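import Pool.Agent.helper99.WN.Defs

/-!
# MP_5c1f29_al, rows wn:* : basic facts
-/

set_option autoImplicit false

open Classical

namespace Pool.Agent.WN

/-! ### letters and words -/

section words

variable {k : ℕ}

@[simp] theorem iv_iv (a : Lt k) : iv (iv a) = a := by simp [iv]

theorem iv_ne (a : Lt k) : iv a ≠ a := by
  intro h
  have h1 := congrArg Prod.snd h
  simp [iv] at h1

theorem iv_inj {a b : Lt k} (h : iv a = iv b) : a = b := by
  rw [← iv_iv a, h, iv_iv]

theorem lt_true (x : Fin k) : lt (x, true) = FreeGroup.of x := rfl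

theorem lt_iv (a : Lt k) : lt (iv a) = (lt a)⁻¹ := by
  simp [lt, iv, FreeGroup.inv_mk, FreeGroup.invRev]

theorem lt_false (x : Fin k) : lt (x, false) = (FreeGroup.of x)⁻¹ := lt_iv (x, true)

@[simp] theorem wd_zero (W : ℤ → Lt k) (i : ℤ) : wd W i 0 = 1 := rfl

theorem wd_succ (W : ℤ → Lt k) (i : ℤ) (n : ℕ) : wd W i (n + 1) = wd W i n * lt (W (i + n)) := by
  unfold wd lt
  rw [List.range_succ, List.map_append, FreeGroup.mul_mk]
  rfl

theorem wd_one (W : ℤ → Lt k) (i : ℤ) : wd W i 1 = lt (W i) := by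
  rw [wd_succ, wd_zero, one_mul, Nat.cast_zero, add_zero]

theorem wd_add (W : ℤ → Lt k) (i : ℤ) (m n : ℕ) : wd W i (m + n) = wd W i m * wd W (i + m) n := by
  induction n with
  | zero => simp
  | succ n ih =>
    rw [← add_assoc, wd_succ, wd_succ, ih, mul_assoc]
    congr 3
    push_cast
    ring_nf

theorem wd_succ' (W : ℤ → Lt k) (i : ℤ) (n : ℕ) : wd W i (n + 1) = lt (W i) * wd W (i + 1) n := by
  rw [add_comm n 1, wd_add, wd_one]
  push_cast
  rfl

theorem wd_congr {W : ℤ → Lt k} {i j : ℤ} {n : ℕ} (h : ∀ t : ℕ, t < n → W (i + t) = W (j + t)) :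
    wd W i n = wd W j n := by
  unfold wd
  congr 1
  apply List.map_congr_left
  intro t ht
  exact h t (List.mem_range.1 ht)

namespace Wd

variable {W : ℤ → Lt k} {N : ℕ}

theorem per_mul (h : Wd W N) (i q : ℤ) : W (i + q * N) = W i := by
  induction q using Int.induction_on with
  | zero => simp
  | succ q ih =>
    have h1 := h.per (i + q * N)
    rw [ih] at h1
    rw [← h1]
    congr 1
    ring
  | pred q ih =>
    have h1 := h.per (i + (-(q : ℤ) - 1) * N)
    rw [← h1, ← ih]
    congr 1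
    ring

theorem per_dvd (h : Wd W N) {i j : ℤ} (hd : (N : ℤ) ∣ i - j) : W i = W j := by
  obtain ⟨q, hq⟩ := hd
  have h1 := h.per_mul j q
  rw [← h1]
  congr 1
  rw [mul_comm q, ← hq]
  ring

theorem red' (h : Wd W N) (i : ℤ) : W i ≠ iv (W (i + 1)) := by
  intro h1
  apply h.red i
  rw [h1, iv_iv]

theorem wd_dvd (h : Wd W N) {i j : ℤ} (hd : (N : ℤ) ∣ i - j) (n : ℕ) : wd W i n = wd W j n := by
  apply wd_congr
  intro t _
  apply h.per_dvd
  have : i + t - (j + t) = i - j := by ring
  rw [this]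
  exact hd

/-- shift of the starting point: conjugation by a letter -/
theorem wd_shift (h : Wd W N) (i : ℤ) : wd W (i + 1) N = (lt (W i))⁻¹ * wd W i N * lt (W i) := by
  have h1 := wd_succ W i N
  rw [wd_succ', h.per i] at h1
  rw [mul_assoc, ← h1, inv_mul_cancel_left]

theorem wd_mul (h : Wd W N) (i : ℤ) (n : ℕ) : wd W i (n * N) = wd W i N ^ n := by
  induction n with
  | zero => simp
  | succ n ih =>
    rw [add_mul, one_mul, wd_add, ih, pow_succ]
    congr 1
    apply h.wd_dvd
    exact ⟨n, by push_cast; ring⟩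

/-- all the words `wd W i N` are conjugate -/
theorem wd_conj (h : Wd W N) (i j : ℤ) : ∃ g : Fr k, wd W i N = g * wd W j N * g⁻¹ := by
  have key : ∀ (i : ℤ) (q : ℕ), ∃ g : Fr k, wd W (i + q) N = g * wd W i N * g⁻¹ := by
    intro i q
    induction q with
    | zero => exact ⟨1, by simp⟩
    | succ q ih =>
      obtain ⟨g, hg⟩ := ih
      refine ⟨(lt (W (i + q)))⁻¹ * g, ?_⟩
      have h1 := h.wd_shift (i + q)
      rw [Nat.cast_succ, ← add_assoc, h1, hg]
      group
  rcases le_total i j with hij | hij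
  · obtain ⟨g, hg⟩ := key i (j - i).toNat
    have h2 : i + ((j - i).toNat : ℤ) = j := by omega
    rw [h2] at hg
    refine ⟨g⁻¹, ?_⟩
    rw [hg]
    group
  · obtain ⟨g, hg⟩ := key j (i - j).toNat
    have h2 : j + ((i - j).toNat : ℤ) = i := by omega
    rw [h2] at hg
    exact ⟨g, hg⟩

end Wd

end words

/-! ### labels of paths -/

section paths

variable {V K : Type} [Group K] {S : Set (V × K × V)}

theorem PL.trans {a b c : V} {g h : K} (h1 : PL S a b g) (h2 : PL S b c h) : PL S a c (g * h) := by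
  induction h2 with
  | nil => rw [mul_one]; exact h1
  | fwd _ he ih => rw [← mul_assoc]; exact ih.fwd he
  | bwd _ he ih => rw [← mul_assoc]; exact ih.bwd he

theorem PL.edge {a b : V} {x : K} (h : (a, x, b) ∈ S) : PL S a b x := by
  have := (PL.nil (S := S) a).fwd h
  rwa [one_mul] at this

theorem PL.edge' {a b : V} {x : K} (h : (a, x, b) ∈ S) : PL S b a x⁻¹ := by
  have := (PL.nil (S := S) b).bwd h
  rwa [one_mul] at this

theorem PL.symm {a b : V} {g : K} (h1 : PL S a b g) : PL S b a g⁻¹ := by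
  induction h1 with
  | nil => rw [inv_one]; exact PL.nil _
  | fwd _ he ih => rw [mul_inv_rev]; exact (PL.edge' he).trans ih
  | bwd _ he ih => rw [mul_inv_rev, inv_inv]; exact (PL.edge he).trans ih

/-- MOR: a map of vertices and a gauge -/
theorem PL.mor {V' : Type} {S' : Set (V' × K × V')} (f : V → V') (γ : V → K)
    (H : ∀ a x b, (a, x, b) ∈ S → PL S' (f a) (f b) ((γ a)⁻¹ * x * γ b)) {a b : V} {g : K}
    (h : PL S a b g) : PL S' (f a) (f b) ((γ a)⁻¹ * g * γ b) := by
  induction h with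
  | nil => rw [mul_one, inv_mul_cancel]; exact PL.nil _
  | @fwd b c g x h he ih =>
    have h1 := ih.trans (H _ _ _ he)
    have h2 : (γ a)⁻¹ * g * γ b * ((γ b)⁻¹ * x * γ c) = (γ a)⁻¹ * (g * x) * γ c := by group
    rwa [h2] at h1
  | @bwd b c g x h he ih =>
    have h1 := ih.trans (H _ _ _ he).symm
    have h2 : (γ a)⁻¹ * g * γ b * ((γ c)⁻¹ * x * γ b)⁻¹ = (γ a)⁻¹ * (g * x⁻¹) * γ c := by group
    rwa [h2] at h1

/-- MOR with trivial gauge -/
theorem PL.map {V' : Type} {S' : Set (V' × K × V')} (f : V → V')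
    (H : ∀ a x b, (a, x, b) ∈ S → PL S' (f a) (f b) x) {a b : V} {g : K}
    (h : PL S a b g) : PL S' (f a) (f b) g := by
  have h1 := PL.mor f (fun _ => (1 : K)) (S' := S')
    (by intro a x b hx; rw [inv_one, one_mul, mul_one]; exact H a x b hx) h
  rwa [inv_one, one_mul, mul_one] at h1

theorem PL.mono {S' : Set (V × K × V)} (H : S ⊆ S') {a b : V} {g : K} (h : PL S a b g) :
    PL S' a b g :=
  PL.map id (fun _ _ _ hx => PL.edge (H hx)) h

/-- the labels of closed paths form a subgroup -/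
def loopG (S : Set (V × K × V)) (v : V) : Subgroup K where
  carrier := {g | PL S v v g}
  mul_mem' := fun h1 h2 => PL.trans h1 h2
  one_mem' := PL.nil v
  inv_mem' := fun h => PL.symm h

theorem mem_loopG {v : V} {g : K} : g ∈ loopG S v ↔ PL S v v g := Iff.rfl

/-- PRJ: labels in a product, first label lifts to a pair; stated for a homomorphism `π` -/
theorem PL.lift {K' : Type} [Group K'] {S' : Set (V × K' × V)} (π : K' →* K)
    (H : ∀ a x b, (a, x, b) ∈ S → ∃ x', π x' = x ∧ PL S' a b x') {a b : V} {g : K}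
    (h : PL S a b g) : ∃ g', π g' = g ∧ PL S' a b g' := by
  induction h with
  | nil => exact ⟨1, map_one π, PL.nil _⟩
  | fwd _ he ih =>
    obtain ⟨g', hg', h1⟩ := ih
    obtain ⟨x', hx', h2⟩ := H _ _ _ he
    exact ⟨g' * x', by rw [map_mul, hg', hx'], h1.trans h2⟩
  | bwd _ he ih =>
    obtain ⟨g', hg', h1⟩ := ih
    obtain ⟨x', hx', h2⟩ := H _ _ _ he
    exact ⟨g' * x'⁻¹, by rw [map_mul, map_inv, hg', hx'], h1.trans h2.symm⟩

/-- image of path labels under a homomorphism -/
theorem PL.hom {K' : Type} [Group K'] {S' : Set (V × K' × V)} (π : K →* K')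
    (H : ∀ a x b, (a, x, b) ∈ S → PL S' a b (π x)) {a b : V} {g : K}
    (h : PL S a b g) : PL S' a b (π g) := by
  induction h with
  | nil => rw [map_one]; exact PL.nil _
  | fwd _ he ih => rw [map_mul]; exact ih.trans (H _ _ _ he)
  | bwd _ he ih => rw [map_mul, map_inv]; exact ih.trans (H _ _ _ he).symm

end paths

/-! ### graphs and their step relation -/

section graphs

variable {V : Type} {k : ℕ} {E : Gr V k}

theorem mem_lf {a b : V} {x : Fin k} (h : (a, x, b) ∈ E) : (a, FreeGroup.of x, b) ∈ lf E :=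
  ⟨(a, x, b), h, rfl⟩

theorem rl_sym : Sym (Rl E) := by
  intro v a v' h
  rcases a with ⟨x, b⟩
  cases b
  · simpa [Rl, iv] using h
  · simpa [Rl, iv] using h

theorem rl_pl {v v' : V} {a : Lt k} (h : Rl E v a v') : PL (lf E) v v' (lt a) := by
  rcases a with ⟨x, b⟩
  cases b
  · rw [lt_false]
    have h1 : (v', x, v) ∈ E := by simpa [Rl] using h
    exact PL.edge' (mem_lf h1)
  · rw [lt_true]
    have h1 : (v, x, v') ∈ E := by simpa [Rl] using h
    exact PL.edge (mem_lf h1)

theorem rd_append {R : V → Lt k → V → Prop} {l l' : List (Lt k)} {v v' v'' : V}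
    (h : Rd R v l v') (h' : Rd R v' l' v'') : Rd R v (l ++ l') v'' := by
  induction l generalizing v with
  | nil =>
    have h1 : v = v' := h
    rw [List.nil_append, h1]; exact h'
  | cons a l ih =>
    obtain ⟨v1, h1, h2⟩ := h
    exact ⟨v1, h1, ih h2⟩

theorem rd_append_iff {R : V → Lt k → V → Prop} {l l' : List (Lt k)} {v v'' : V} :
    Rd R v (l ++ l') v'' ↔ ∃ v', Rd R v l v' ∧ Rd R v' l' v'' := by
  constructor
  · intro h
    induction l generalizing v with
    | nil => exact ⟨v, rfl, h⟩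
    | cons a l ih =>
      obtain ⟨v1, h1, h2⟩ := h
      obtain ⟨v', h3, h4⟩ := ih h2
      exact ⟨v', ⟨v1, h1, h3⟩, h4⟩
  · rintro ⟨v', h1, h2⟩; exact rd_append h1 h2

theorem rd_pl {l : List (Lt k)} {v v' : V} (h : Rd (Rl E) v l v') :
    PL (lf E) v v' (FreeGroup.mk l) := by
  induction l generalizing v with
  | nil =>
    have h1 : v = v' := h
    rw [h1]; exact PL.nil _
  | cons a l ih =>
    obtain ⟨v1, h1, h2⟩ := h
    have h3 := (rl_pl h1).trans (ih h2)
    have h4 : lt a * FreeGroup.mk l = FreeGroup.mk (a :: l) := by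
      unfold lt; rw [FreeGroup.mul_mk]; rfl
    rwa [h4] at h3

theorem rd_det {R : V → Lt k → V → Prop} (hR : Det R) {l : List (Lt k)} {v v1 v2 : V}
    (h1 : Rd R v l v1) (h2 : Rd R v l v2) : v1 = v2 := by
  induction l generalizing v with
  | nil => exact (show v = v1 from h1).symm.trans h2
  | cons a l ih =>
    obtain ⟨u1, h3, h4⟩ := h1
    obtain ⟨u2, h5, h6⟩ := h2
    have h7 := hR _ _ _ _ h3 h5
    subst h7
    exact ih h4 h6

/-- a run is a path -/
theorem run_pl {W : ℤ → Lt k} {s e : ℤ} {z : ℤ → V} (h : Run (Rl E) W s e z) {t : ℤ} (ht : s ≤ t)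
    (q : ℕ) (hq : t + q ≤ e) : PL (lf E) (z t) (z (t + q)) (wd W t q) := by
  induction q with
  | zero => rw [Nat.cast_zero, add_zero, wd_zero]; exact PL.nil _
  | succ q ih =>
    have h1 := ih (by push_cast at hq; omega)
    have h2 := rl_pl (h (t + q) (by omega) (by push_cast at hq; omega))
    rw [wd_succ, Nat.cast_succ, ← add_assoc]
    exact h1.trans h2

theorem ed_mem {W : ℤ → Lt k} {z : ℤ → V} {t : ℤ} (h : Rl E (z t) (W t) (z (t + 1))) :
    ed W z t ∈ E := by
  unfold ed
  unfold Rl at h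
  split_ifs at h ⊢ <;> exact h

theorem ed_mem_iff {W : ℤ → Lt k} {z : ℤ → V} {t : ℤ} :
    ed W z t ∈ E ↔ Rl E (z t) (W t) (z (t + 1)) := by
  unfold ed Rl
  split_ifs <;> rfl

end graphs

/-! ### stackings, the two ends of a step -/

section stack

variable {V : Type} {k : ℕ} {W : ℤ → Lt k} {N : ℕ} {r : ℤ → ℤ}

theorem Stk.neg (h : Stk W N r) : Stk W N (fun i => - r i) where
  per i := by simp only [h.per]
  inj i j hij := h.inj i j (neg_injective hij)
  same i j hij := by
    rw [neg_lt_neg_iff, neg_lt_neg_iff]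
    exact h.same j i hij.symm
  opp i j hij := by
    rw [neg_lt_neg_iff, neg_lt_neg_iff]
    exact (h.opp j i (by rw [hij, iv_iv])).symm

theorem Stk.per_mul (h : Stk W N r) (i q : ℤ) : r (i + q * N) = r i := by
  induction q using Int.induction_on with
  | zero => simp
  | succ q ih =>
    have h1 := h.per (i + q * N)
    rw [ih] at h1
    rw [← h1]
    congr 1
    ring
  | pred q ih =>
    have h1 := h.per (i + (-(q : ℤ) - 1) * N)
    rw [← h1, ← ih]
    congr 1
    ring

theorem Stk.dvd (h : Stk W N r) {i j : ℤ} (hd : (N : ℤ) ∣ i - j) : r i = r j := by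
  obtain ⟨q, hq⟩ := hd
  rw [← h.per_mul j q]
  congr 1
  rw [mul_comm q, ← hq]
  ring

theorem ed_al (z : ℤ → V) (t : ℤ) : (ed W z t).1 = z (al W t) := by
  unfold ed al
  split_ifs <;> rfl

theorem ed_be (z : ℤ → V) (t : ℤ) : (ed W z t).2.2 = z (be W t) := by
  unfold ed be
  split_ifs <;> rfl

theorem ed_letter (z : ℤ → V) (t : ℤ) : (ed W z t).2.1 = (W t).1 := by
  unfold ed
  split_ifs <;> rfl

theorem al_be_cases (t : ℤ) : (al W t = t ∧ be W t = t + 1) ∨ (al W t = t + 1 ∧ be W t = t) := by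
  unfold al be
  split_ifs
  · exact Or.inl ⟨rfl, rfl⟩
  · exact Or.inr ⟨rfl, rfl⟩

/-- two steps over the same letter whose initial ends agree modulo `N` agree modulo `N` -/
theorem al_inj (hW : Wd W N) {t t' : ℤ} (hl : (W t).1 = (W t').1)
    (hd : (N : ℤ) ∣ al W t - al W t') : (N : ℤ) ∣ t - t' := by
  unfold al at hd
  by_cases h1 : (W t).2 = true <;> by_cases h2 : (W t').2 = true
  · rwa [if_pos h1, if_pos h2] at hd
  · rw [if_pos h1, if_neg h2] at hd
    exfalso
    have h3 := hW.per_dvd hd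
    apply hW.red t'
    rw [← h3]
    unfold iv
    apply Prod.ext
    · exact hl
    · simp only [Bool.not_eq_true] at h2
      simp [h1, h2]
  · rw [if_neg h1, if_pos h2] at hd
    exfalso
    have h3 := hW.per_dvd hd
    apply hW.red t
    rw [h3]
    unfold iv
    apply Prod.ext
    · exact hl.symm
    · simp only [Bool.not_eq_true] at h1
      simp [h1, h2]
  · rw [if_neg h1, if_neg h2] at hd
    have : t + 1 - (t' + 1) = t - t' := by ring
    rwa [this] at hd

/-- the same for the terminal ends -/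
theorem be_inj (hW : Wd W N) {t t' : ℤ} (hl : (W t).1 = (W t').1)
    (hd : (N : ℤ) ∣ be W t - be W t') : (N : ℤ) ∣ t - t' := by
  unfold be at hd
  by_cases h1 : (W t).2 = true <;> by_cases h2 : (W t').2 = true
  · rw [if_pos h1, if_pos h2] at hd
    have : t + 1 - (t' + 1) = t - t' := by ring
    rwa [this] at hd
  · rw [if_pos h1, if_neg h2] at hd
    exfalso
    have h3 := hW.per_dvd hd
    apply hW.red t
    rw [h3]
    unfold iv
    apply Prod.ext
    · exact hl.symm
    · simp only [Bool.not_eq_true] at h2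
      simp [h1, h2]
  · rw [if_neg h1, if_pos h2] at hd
    exfalso
    have h3 := hW.per_dvd hd
    apply hW.red t'
    rw [← h3]
    unfold iv
    apply Prod.ext
    · exact hl
    · simp only [Bool.not_eq_true] at h1
      simp [h1, h2]
  · rwa [if_neg h1, if_neg h2] at hd

/-- for steps over the same letter the stacking orders the two ends in the same way -/
theorem Stk.al_be (h : Stk W N r) {t t' : ℤ} (hl : (W t).1 = (W t').1) :
    r (al W t) < r (al W t') ↔ r (be W t) < r (be W t') := by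
  unfold al be
  by_cases h1 : (W t).2 = true <;> by_cases h2 : (W t').2 = true
  · rw [if_pos h1, if_pos h2, if_pos h1, if_pos h2]
    exact h.same t t' (Prod.ext hl (by rw [h1, h2]))
  · rw [if_pos h1, if_neg h2, if_pos h1, if_neg h2]
    simp only [Bool.not_eq_true] at h2
    exact h.opp t t' (Prod.ext hl (by simp [iv, h1, h2]))
  · rw [if_neg h1, if_pos h2, if_neg h1, if_pos h2]
    simp only [Bool.not_eq_true] at h1
    exact (h.opp t t' (Prod.ext hl (by simp [iv, h1, h2])) |> fun _ => by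
      have h3 := (Stk.neg h).opp t' t (Prod.ext hl.symm (by simp [iv, h1, h2]))
      rw [neg_lt_neg_iff, neg_lt_neg_iff] at h3
      exact h3)
  · rw [if_neg h1, if_neg h2, if_neg h1, if_neg h2]
    simp only [Bool.not_eq_true] at h1 h2
    exact (h.same t t' (Prod.ext hl (by rw [h1, h2]))).symm

end stack

/-! ### the kernel -/

section kernel

variable {k : ℕ} {w : Fr k} {n : ℕ}

theorem pow_mem_Kn : w ^ n ∈ Kn w n := Subgroup.subset_normalClosure rfl

theorem conj_mem_Kn {g : Fr k} (c : Fr k) (h : g ∈ Kn w n) : c * g * c⁻¹ ∈ Kn w n :=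
  (Subgroup.normalClosure_normal (s := {w ^ n})).conj_mem g h c

theorem conj_mem_Kn' {g : Fr k} (c : Fr k) (h : g ∈ Kn w n) : c⁻¹ * g * c ∈ Kn w n := by
  have := conj_mem_Kn c⁻¹ h
  rwa [inv_inv] at this

/-- `n N` letters of the periodic word are in the kernel -/
theorem wd_mem_Kn {W : ℤ → Lt k} {N : ℕ} (hW : Wd W N) (i : ℤ) (n : ℕ) :
    wd W i (n * N) ∈ Kn (wd W 0 N) n := by
  obtain ⟨g, hg⟩ := hW.wd_conj i 0
  rw [hW.wd_mul, hg, conj_pow]
  exact conj_mem_Kn g pow_mem_Kn

end kernel

end Pool.Agent.WN
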