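import Pool.Agent.helper99.WN.SpecA

/-!
# MP_5c1f29_al, rows wn:* : basic facts for block C
-/

set_option autoImplicit false

open Classical

namespace Pool.Agent.WN

section

variable {V : Type} {k : ℕ} {R : V → Lt k → V → Prop} {W : ℤ → Lt k} {N n : ℕ}

theorem rd_map {V' : Type} {R' : V' → Lt k → V' → Prop} (ι : V → V')
    (H : ∀ v a v', R v a v' → R' (ι v) a (ι v')) {l : List (Lt k)} {v v' : V} (h : Rd R v l v') :
    Rd R' (ι v) l (ι v') := by
  induction l generalizing v with
  | nil => exact congrArg ι (show v = v' from h)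
  | cons a l ih =>
    obtain ⟨v1, h1, h2⟩ := h
    exact ⟨ι v1, H _ _ _ h1, ih h2⟩

/-- runs may be shifted in time by multiples of `N` -/
theorem Run.shift (hW : Wd W N) {s e : ℤ} {z : ℤ → V} (h : Run R W s e z) (c : ℤ) :
    Run R W (s + c * N) (e + c * N) (fun t => z (t - c * N)) := by
  intro t h1 h2
  have h3 := h (t - c * N) (by linarith) (by linarith)
  have h4 : W t = W (t - c * N) := by
    apply hW.per_dvd
    exact ⟨c, by ring⟩
  have h5 : t + 1 - c * N = t - c * N + 1 := by ring
  show R (z (t - c * N)) (W t) (z (t + 1 - c * N))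
  rw [h4, h5]
  exact h3

theorem ClAt.shift (hW : Wd W N) {s : ℤ} {v : V} (h : ClAt R W N n s v) (c : ℤ) :
    ClAt R W N n (s + c * N) v := by
  obtain ⟨z, h1, h2, h3⟩ := h
  refine ⟨fun t => z (t - c * N), ?_, ?_, ?_⟩
  · have h4 := h1.shift hW c
    have h5 : s + n * N + c * N = s + c * N + n * N := by ring
    rwa [h5] at h4
  · show z (s + c * N - c * N) = v
    rw [add_sub_cancel_right]; exact h2
  · show z (s + c * N + n * N - c * N) = v
    have h5 : s + c * N + n * N - c * N = s + n * N := by ring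
    rw [h5]; exact h3

theorem ClAt.of_dvd (hW : Wd W N) {s s' : ℤ} {v : V} (h : ClAt R W N n s v)
    (hd : (N : ℤ) ∣ s' - s) : ClAt R W N n s' v := by
  obtain ⟨c, hc⟩ := hd
  have h1 := h.shift hW c
  have h2 : s + c * N = s' := by rw [mul_comm c, ← hc]; ring
  rwa [h2] at h1

theorem Run.mono {s e s' e' : ℤ} {z : ℤ → V} (h : Run R W s e z) (h1 : s ≤ s') (h2 : e' ≤ e) :
    Run R W s' e' z := fun t ht ht' => h t (h1.trans ht) (lt_of_lt_of_le ht' h2)

end

section

variable {k : ℕ} {W : ℤ → Lt k} {N : ℕ}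

@[simp] theorem fw_length (i : ℤ) (m : ℕ) : (fw W i m).length = m := by
  induction m with
  | zero => rfl
  | succ m ih => simp [fw, ih]

@[simp] theorem bw_length (i : ℤ) (m : ℕ) : (bw W i m).length = m := by
  induction m with
  | zero => rfl
  | succ m ih => simp [bw, ih]

theorem fw_congr {i i' : ℤ} {m : ℕ} (h : ∀ t : ℕ, t < m → W (i + t) = W (i' + t)) :
    fw W i m = fw W i' m := by
  induction m with
  | zero => rfl
  | succ m ih =>
    show W (i + m) :: fw W i m = W (i' + m) :: fw W i' m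
    rw [h m (Nat.lt_succ_self m), ih (fun t ht => h t (Nat.lt_succ_of_lt ht))]

theorem fw_dvd (hW : Wd W N) {i i' : ℤ} (hd : (N : ℤ) ∣ i - i') (m : ℕ) :
    fw W i m = fw W i' m := by
  apply fw_congr
  intro t _
  apply hW.per_dvd
  have : i + t - (i' + t) = i - i' := by ring
  rw [this]; exact hd

theorem bw_dvd (hW : Wd W N) {i i' : ℤ} (hd : (N : ℤ) ∣ i - i') (m : ℕ) :
    bw W i m = bw W i' m := by
  induction m with
  | zero => rfl
  | succ m ih =>
    show iv (W (i - 1 - m)) :: bw W i m = iv (W (i' - 1 - m)) :: bw W i' m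
    rw [ih]
    congr 2
    apply hW.per_dvd
    have : i - 1 - m - (i' - 1 - m) = i - i' := by ring
    rw [this]; exact hd

theorem fw_eq {i i' : ℤ} {m : ℕ} (h : fw W i m = fw W i' m) :
    ∀ t : ℕ, t < m → W (i + t) = W (i' + t) := by
  induction m with
  | zero => intro t ht; omega
  | succ m ih =>
    have h1 : W (i + m) :: fw W i m = W (i' + m) :: fw W i' m := h
    rw [List.cons.injEq] at h1
    intro t ht
    rcases Nat.lt_succ_iff_lt_or_eq.1 ht with h2 | rfl
    · exact ih h1.2 t h2
    · exact h1.1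

theorem bw_eq {i i' : ℤ} {m : ℕ} (h : bw W i m = bw W i' m) :
    ∀ t : ℕ, t < m → W (i - 1 - t) = W (i' - 1 - t) := by
  induction m with
  | zero => intro t ht; omega
  | succ m ih =>
    have h1 : iv (W (i - 1 - m)) :: bw W i m = iv (W (i' - 1 - m)) :: bw W i' m := h
    rw [List.cons.injEq] at h1
    intro t ht
    rcases Nat.lt_succ_iff_lt_or_eq.1 ht with h2 | rfl
    · exact ih h1.2 t h2
    · exact iv_inj h1.1

theorem fw_eq_bw {i j : ℤ} {m : ℕ} (h : fw W i m = bw W j m) :
    ∀ t : ℕ, t < m → W (i + t) = iv (W (j - 1 - t)) := by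
  induction m with
  | zero => intro t ht; omega
  | succ m ih =>
    have h1 : W (i + m) :: fw W i m = iv (W (j - 1 - m)) :: bw W j m := h
    rw [List.cons.injEq] at h1
    intro t ht
    rcases Nat.lt_succ_iff_lt_or_eq.1 ht with h2 | rfl
    · exact ih h1.2 t h2
    · exact h1.1

/-- F1 -/
theorem fw_inj (hW : Wd W N) {i i' : ℤ} {m m' : ℕ} (hm : N ≤ m) (h : fw W i m = fw W i' m') :
    m = m' ∧ (N : ℤ) ∣ i - i' := by
  have h1 : m = m' := by
    have := congrArg List.length h
    rwa [fw_length, fw_length] at this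
  subst h1
  exact ⟨rfl, hW.pa i i' (fun t ht => fw_eq h t (lt_of_lt_of_le ht hm))⟩

/-- F2 -/
theorem bw_inj (hW : Wd W N) {j j' : ℤ} (h : bw W j N = bw W j' N) : (N : ℤ) ∣ j - j' := by
  have h1 := hW.pa (j - N) (j' - N) (fun t ht => by
    have h2 := bw_eq h (N - 1 - t) (by omega)
    have h3 : j - 1 - ((N - 1 - t : ℕ) : ℤ) = j - N + t := by omega
    have h4 : j' - 1 - ((N - 1 - t : ℕ) : ℤ) = j' - N + t := by omega
    rwa [h3, h4] at h2)
  have h5 : j - N - (j' - N) = j - j' := by ring
  rwa [h5] at h1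

/-- F3 -/
theorem fw_ne_bw (hW : Wd W N) (i j : ℤ) (m : ℕ) : fw W i m ≠ bw W j N := by
  intro h
  have h1 : m = N := by
    have := congrArg List.length h
    rwa [fw_length, bw_length] at this
  subst h1
  exact hW.pb i (j - 1) (fun t ht => fw_eq_bw h t ht)

/-- F4 -/
theorem al_long {V : Type} {R : V → Lt k → V → Prop} {n : ℕ} {v : V} {a : Lt k}
    {u : List (Lt k)} (h : Al R W N n v (a :: u)) (hu : N ≤ u.length) :
    ∃ i y l, Arc R W v i y l ∧ u = fw W i u.length ∧ a = W (i + u.length) ∧
      u.length + 1 + l + N + 1 ≤ n * N := by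
  obtain ⟨_, _, h1 | ⟨i, m, y, l, h2, h3, h4⟩⟩ := h
  · simp only [List.length_cons] at h1
    omega
  · have h5 : m = u.length + 1 := by
      have := congrArg List.length h3
      rw [fw_length, List.length_cons] at this
      exact this.symm
    subst h5
    have h6 : a :: u = W (i + u.length) :: fw W i u.length := h3
    rw [List.cons.injEq] at h6
    exact ⟨i, y, l, h2, h6.2, h6.1, h4⟩

theorem fw_chain (hW : Wd W N) (i : ℤ) (m : ℕ) :
    (fw W i m).IsChain (fun a b => a ≠ iv b) := by
  induction m with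
  | zero => exact List.isChain_nil
  | succ m ih =>
    cases m with
    | zero => exact List.isChain_singleton _
    | succ m =>
      show (W (i + ((m + 1 : ℕ) : ℤ)) :: W (i + m) :: fw W i m).IsChain _
      rw [List.isChain_cons_cons]
      refine ⟨?_, ih⟩
      have h1 := hW.red (i + m)
      have h2 : i + ((m + 1 : ℕ) : ℤ) = i + m + 1 := by push_cast; ring
      rw [h2]; exact h1

theorem bw_chain (hW : Wd W N) (i : ℤ) (m : ℕ) :
    (bw W i m).IsChain (fun a b => a ≠ iv b) := by
  induction m with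
  | zero => exact List.isChain_nil
  | succ m ih =>
    cases m with
    | zero => exact List.isChain_singleton _
    | succ m =>
      show (iv (W (i - 1 - ((m + 1 : ℕ) : ℤ))) :: iv (W (i - 1 - m)) :: bw W i m).IsChain _
      rw [List.isChain_cons_cons]
      refine ⟨?_, ih⟩
      rw [iv_iv]
      intro h
      have h1 := hW.red' (i - 1 - ((m + 1 : ℕ) : ℤ))
      have h2 : i - 1 - ((m + 1 : ℕ) : ℤ) + 1 = i - 1 - m := by push_cast; ring
      rw [h2] at h1
      apply h1
      rw [← h, iv_iv]

theorem fw_getLast (i : ℤ) (m : ℕ) : (fw W i (m + 1)).getLast? = some (W i) := by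
  induction m with
  | zero => simp [fw]
  | succ m ih =>
    show (W (i + ((m + 1 : ℕ) : ℤ)) :: fw W i (m + 1)).getLast? = some (W i)
    rw [List.getLast?_cons, ih]
    rfl

theorem bw_getLast (i : ℤ) (m : ℕ) : (bw W i (m + 1)).getLast? = some (iv (W (i - 1))) := by
  induction m with
  | zero => simp [bw]
  | succ m ih =>
    show (iv (W (i - 1 - ((m + 1 : ℕ) : ℤ))) :: bw W i (m + 1)).getLast? = some (iv (W (i - 1)))
    rw [List.getLast?_cons, ih]
    rfl

end

end Pool.Agent.WN
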