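import Pool.Agent.helper99.WN.SpecC

/-!
# MP_5c1f29_al, row wn:AU: tuples Nielsen equivalent to the basis are images of the basis
-/

set_option autoImplicit false

open Classical

namespace Pool.Agent.WN

open Pool.Agent.NE

/-- inversion of one generator -/
theorem au_inv {k : ℕ} (i : Fin k) : ∃ ψ : Fr k ≃* Fr k, ∀ j,
    ψ (FreeGroup.of j) = Function.update (fun j => (FreeGroup.of j : Fr k)) i
      (FreeGroup.of i)⁻¹ j := by
  set f : Fin k → Fr k := Function.update (fun j => (FreeGroup.of j : Fr k)) i (FreeGroup.of i)⁻¹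
    with hf
  have h1 : (FreeGroup.lift f).comp (FreeGroup.lift f) = MonoidHom.id _ := by
    apply FreeGroup.ext_hom
    intro j
    rw [MonoidHom.comp_apply, FreeGroup.lift_apply_of, MonoidHom.id_apply]
    by_cases hj : j = i
    · subst hj
      have h2 : f j = (FreeGroup.of j)⁻¹ := by rw [hf, Function.update_self]
      rw [h2, map_inv, FreeGroup.lift_apply_of, h2, inv_inv]
    · have h2 : f j = FreeGroup.of j := by rw [hf, Function.update_of_ne hj]
      rw [h2, FreeGroup.lift_apply_of, h2]
  refine ⟨MonoidHom.toMulEquiv (FreeGroup.lift f) (FreeGroup.lift f) h1 h1, fun j => ?_⟩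
  show FreeGroup.lift f (FreeGroup.of j) = _
  rw [FreeGroup.lift_apply_of]

/-- multiplication of one generator by another -/
theorem au_mul {k : ℕ} (i j : Fin k) (hij : j ≠ i) : ∃ ψ : Fr k ≃* Fr k, ∀ l,
    ψ (FreeGroup.of l) = Function.update (fun j => (FreeGroup.of j : Fr k)) i
      (FreeGroup.of i * FreeGroup.of j) l := by
  set f : Fin k → Fr k := Function.update (fun j => (FreeGroup.of j : Fr k)) i
    (FreeGroup.of i * FreeGroup.of j) with hf
  set g : Fin k → Fr k := Function.update (fun j => (FreeGroup.of j : Fr k)) i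
    (FreeGroup.of i * (FreeGroup.of j)⁻¹) with hg
  have hfi : f i = FreeGroup.of i * FreeGroup.of j := by rw [hf, Function.update_self]
  have hgi : g i = FreeGroup.of i * (FreeGroup.of j)⁻¹ := by rw [hg, Function.update_self]
  have hfl : ∀ l, l ≠ i → f l = FreeGroup.of l := fun l hl => by
    rw [hf, Function.update_of_ne hl]
  have hgl : ∀ l, l ≠ i → g l = FreeGroup.of l := fun l hl => by
    rw [hg, Function.update_of_ne hl]
  have h1 : (FreeGroup.lift f).comp (FreeGroup.lift g) = MonoidHom.id _ := by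
    apply FreeGroup.ext_hom
    intro l
    rw [MonoidHom.comp_apply, FreeGroup.lift_apply_of, MonoidHom.id_apply]
    by_cases hl : l = i
    · subst hl
      rw [hgi, map_mul, map_inv, FreeGroup.lift_apply_of, FreeGroup.lift_apply_of, hfi, hfl j hij,
        mul_inv_cancel_right]
    · rw [hgl l hl, FreeGroup.lift_apply_of, hfl l hl]
  have h2 : (FreeGroup.lift g).comp (FreeGroup.lift f) = MonoidHom.id _ := by
    apply FreeGroup.ext_hom
    intro l
    rw [MonoidHom.comp_apply, FreeGroup.lift_apply_of, MonoidHom.id_apply]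
    by_cases hl : l = i
    · subst hl
      rw [hfi, map_mul, FreeGroup.lift_apply_of, FreeGroup.lift_apply_of, hgi, hgl j hij,
        inv_mul_cancel_right]
    · rw [hfl l hl, FreeGroup.lift_apply_of, hgl l hl]
  refine ⟨MonoidHom.toMulEquiv (FreeGroup.lift f) (FreeGroup.lift g) h2 h1, fun l => ?_⟩
  show FreeGroup.lift f (FreeGroup.of l) = _
  rw [FreeGroup.lift_apply_of]

theorem au_step {k : ℕ} {g g' : Fin k → Fr k} (h : Step g g')
    (hg : ∃ φ : Fr k ≃* Fr k, ∀ i, φ (FreeGroup.of i) = g i) :
    ∃ φ : Fr k ≃* Fr k, ∀ i, φ (FreeGroup.of i) = g' i := by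
  obtain ⟨φ, hφ⟩ := hg
  cases h with
  | perm σ =>
    refine ⟨(FreeGroup.freeGroupCongr σ).trans φ, fun i => ?_⟩
    rw [MulEquiv.trans_apply, FreeGroup.freeGroupCongr_apply, FreeGroup.map.of, hφ]
    rfl
  | inv i =>
    obtain ⟨ψ, hψ⟩ := au_inv i
    refine ⟨ψ.trans φ, fun j => ?_⟩
    rw [MulEquiv.trans_apply, hψ]
    by_cases hj : j = i
    · subst hj
      rw [Function.update_self, Function.update_self, map_inv, hφ]
    · rw [Function.update_of_ne hj, Function.update_of_ne hj, hφ]
  | mul i j hij =>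
    obtain ⟨ψ, hψ⟩ := au_mul i j hij
    refine ⟨ψ.trans φ, fun l => ?_⟩
    rw [MulEquiv.trans_apply, hψ]
    by_cases hl : l = i
    · subst hl
      rw [Function.update_self, Function.update_self, map_mul, hφ, hφ]
    · rw [Function.update_of_ne hl, Function.update_of_ne hl, hφ]

theorem AU : AU_stmt := by
  intro k b h
  have h1 := h.symm
  clear h
  induction h1 with
  | refl => exact ⟨MulEquiv.refl _, fun i => rfl⟩
  | tail _ hs ih => exact au_step hs ih

end Pool.Agent.WN
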