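import Pool.Agent.helper99.WN.Basic2

/-!
# MP_5c1f29_al, row wn:C1: passing a closing edge forwards
-/

set_option autoImplicit false

open Classical

namespace Pool.Agent.WN

theorem C1 (hCA : CA_stmt) : C1_stmt := by
  intro V k R W N n H s e z hz t v i y l m hst hte hArc hml hzt _ hWt
  have hW := H.wd
  obtain ⟨_, hA2, hA3, _⟩ := hCA V k R W N n H
  have hl := hA2 v i y l hArc
  have hm2 : 2 * N ≤ m := by
    have h1 : ((m + l + N + 1 : ℕ) : ℤ) = ((n * N : ℕ) : ℤ) := by rw [hml]
    push_cast at h1
    have h2 : (2 * (N : ℤ)) ≤ m := by linarith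
    exact_mod_cast h2
  have claim : ∀ q : ℕ, q ≤ N → z (t - q) = (v, fw W i (m - q)) ∧
      (1 ≤ q → W (t - q) = W (i + m - q)) := by
    intro q
    induction q with
    | zero =>
      intro _
      refine ⟨?_, fun h => by omega⟩
      rw [Nat.cast_zero, sub_zero, Nat.sub_zero]; exact hzt
    | succ q ih =>
      intro hq
      obtain ⟨h1, h2⟩ := ih (by omega)
      have hs := hz (t - ((q + 1 : ℕ) : ℤ)) (by push_cast; omega) (by push_cast; omega)
      have e1 : t - ((q + 1 : ℕ) : ℤ) + 1 = t - q := by push_cast; ring
      rw [e1, h1] at hs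
      have hWq : W (t - q) = W (i + m - q) := by
        rcases Nat.eq_zero_or_pos q with h3 | h3
        · subst h3
          rw [Nat.cast_zero, sub_zero, sub_zero]; exact hWt
        · exact h2 h3
      have hred := hW.red' (t - ((q + 1 : ℕ) : ℤ))
      rw [e1] at hred
      generalize hp' : ((v, fw W i (m - q)) : V × List (Lt k)) = p' at hs
      generalize hp : z (t - ((q + 1 : ℕ) : ℤ)) = p at hs
      generalize ha : W (t - ((q + 1 : ℕ) : ℤ)) = a at hs hred
      have hmq : m - q = (m - (q + 1)) + 1 := by omega
      cases hs with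
      | base _ =>
        exfalso
        rw [Prod.mk.injEq] at hp'
        have h3 := congrArg List.length hp'.2
        rw [fw_length, List.length_nil] at h3
        omega
      | @down v1 a1 u1 hAl =>
        rw [Prod.mk.injEq, hmq] at hp'
        obtain ⟨h3, h4⟩ := hp'
        have h5 : W (i + ((m - (q + 1) : ℕ) : ℤ)) :: fw W i (m - (q + 1)) = a :: u1 := h4
        rw [List.cons.injEq] at h5
        subst h3
        refine ⟨by rw [h5.2], fun _ => ?_⟩
        rw [← h5.1]
        congr 1
        push_cast [Nat.cast_sub (show q + 1 ≤ m by omega)]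
        ring
      | @up v1 a1 u1 hAl =>
        exfalso
        rw [Prod.mk.injEq] at hp'
        obtain ⟨h3, h4⟩ := hp'
        subst h3
        have hul : u1.length = m - q := by rw [← h4, fw_length]
        obtain ⟨i', y', l', hArc', hu, ha', hle⟩ := al_long hAl (by rw [hul]; omega)
        rw [hul] at hu ha' hle
        have h6 := fw_inj hW (show N ≤ m - q by omega) (h4.trans hu)
        obtain ⟨_, h8⟩ := hA3 v i y l i' y' l' hArc hArc' h6.2
        subst h8
        have hq1 : 1 ≤ q := by omega
        apply hred
        rw [hWq]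
        congr 1
        rw [ha']
        apply hW.per_dvd
        have h9 : i' + ((m - q : ℕ) : ℤ) - (i + m - q) = -(i - i') := by
          push_cast [Nat.cast_sub (show q ≤ m by omega)]
          ring
        rw [h9]
        exact (dvd_neg).2 h6.2
      | @cf v1 i1 y1 l1 m1 hArc1 hm1 =>
        exfalso
        rw [Prod.mk.injEq] at hp'
        exact fw_ne_bw hW _ _ _ hp'.2
      | @cb v1 i1 y1 l1 m1 hArc1 hm1 =>
        exfalso
        rw [Prod.mk.injEq] at hp'
        obtain ⟨h3, h4⟩ := hp'
        subst h3
        have h6 := fw_inj hW (show N ≤ m - q by omega) h4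
        obtain ⟨_, h8⟩ := hA3 v i y l i1 y1 l1 hArc hArc1 h6.2
        subst h8
        have hq0 : q = 0 := by omega
        subst hq0
        apply hred
        rw [hWq]
        congr 1
        apply hW.per_dvd
        have h10 : m1 = m := by omega
        subst h10
        have h9 : i1 + (m1 : ℤ) - (i + m1 - ((0 : ℕ) : ℤ)) = -(i - i1) := by
          push_cast
          ring
        rw [h9]
        exact (dvd_neg).2 h6.2
  have h1 := hW.pa (t - N) (i + m - N) (fun q hq => by
    obtain ⟨_, h2⟩ := claim (N - q) (by omega)
    have h3 := h2 (by omega)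
    have h4 : t - ((N - q : ℕ) : ℤ) = t - N + q := by
      push_cast [Nat.cast_sub (show q ≤ N by omega)]; ring
    have h5 : i + m - ((N - q : ℕ) : ℤ) = i + m - N + q := by
      push_cast [Nat.cast_sub (show q ≤ N by omega)]; ring
    rwa [h4, h5] at h3)
  have h2 : t - N - (i + m - N) = t - (i + m) := by ring
  rwa [h2] at h1

end Pool.Agent.WN
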