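import Pool.Agent.helper99.WN.SpecC

/-!
# MP_5c1f29_al, row wn:NR: no entry of a generating `k`-tuple of `F_k` is trivial
-/

set_option autoImplicit false

open Classical

namespace Pool.Agent.WN

open Pool.Agent.NE

/-- the exponent sums modulo `p` -/
noncomputable def thp (k p : ℕ) : Fr k →* Multiplicative (Fin k → ZMod p) :=
  FreeGroup.lift fun i => Multiplicative.ofAdd (Pi.single i 1)

theorem thp_of (k p : ℕ) (i : Fin k) :
    Multiplicative.toAdd (thp k p (FreeGroup.of i)) = Pi.single i 1 := by
  unfold thp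
  rw [FreeGroup.lift_apply_of]
  rfl

theorem thp_closure {k p m : ℕ} [Fact p.Prime] (b : Fin m → Fr k) {h : Fr k}
    (hh : h ∈ Subgroup.closure (Set.range b)) :
    Multiplicative.toAdd (thp k p h) ∈
      Submodule.span (ZMod p) (Set.range fun i => Multiplicative.toAdd (thp k p (b i))) := by
  induction hh using Subgroup.closure_induction with
  | mem x hx =>
    obtain ⟨i, rfl⟩ := hx
    exact Submodule.subset_span ⟨i, rfl⟩
  | one => rw [map_one]; exact Submodule.zero_mem _
  | mul x y _ _ h1 h2 => rw [map_mul, toAdd_mul]; exact Submodule.add_mem _ h1 h2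
  | inv x _ h1 => rw [map_inv, toAdd_inv]; exact Submodule.neg_mem _ h1

theorem thp_top {k p m : ℕ} [Fact p.Prime] (b : Fin m → Fr k)
    (hb : ∀ i : Fin k, ∃ h ∈ Subgroup.closure (Set.range b), thp k p h = thp k p (FreeGroup.of i)) :
    ⊤ ≤ Submodule.span (ZMod p) (Set.range fun i => Multiplicative.toAdd (thp k p (b i))) := by
  intro v _
  have h1 : v = ∑ i, v i • (Pi.single i (1 : ZMod p) : Fin k → ZMod p) := by
    funext j
    rw [Finset.sum_apply]
    simp [Pi.single_apply]
  rw [h1]
  apply Submodule.sum_mem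
  intro i _
  apply Submodule.smul_mem
  obtain ⟨h, hh, hth⟩ := hb i
  have h2 := thp_closure (p := p) b hh
  rw [hth, thp_of] at h2
  exact h2

theorem NR : NR_stmt := by
  intro k t ht j hj
  have : Fact (Nat.Prime 2) := ⟨Nat.prime_two⟩
  have h1 := thp_top (p := 2) t (fun i => ⟨FreeGroup.of i, by rw [ht]; trivial, rfl⟩)
  have h2 := linearIndependent_of_top_le_span_of_card_eq_finrank h1 (by simp)
  have h3 := h2.ne_zero j
  apply h3
  show Multiplicative.toAdd (thp k 2 (t j)) = 0
  rw [hj, map_one]
  rfl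

end Pool.Agent.WN
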