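import Pool.Agent.helper99.WN.Asm4
import Pool.Agent.helper99.WN.NR

/-!
# MP_5c1f29_al, row wn:CV: primitive relators
-/

set_option autoImplicit false

open Classical

namespace Pool.Agent.WN

open Pool.Agent.NE

theorem CV (hDG : DG_stmt) (hDT : DT_stmt) (hNU : NU_stmt) : CV_stmt := by
  rintro k w n hn ⟨φ, i₀, hφ⟩ hN
  obtain ⟨j, hj, hj1, hj2⟩ := hNU n hn
  have hnsmul : ∀ v : Fin k → ZMod n, n • v = 0 := by
    intro v
    funext i
    rw [Pi.smul_apply, nsmul_eq_mul, ZMod.natCast_self, zero_mul]
    rfl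
  -- the abelian quotient
  set ψ₀ : Fr k →* Multiplicative (Fin k → ZMod n) := (thp k n).comp φ.symm.toMonoidHom with hψ₀
  have hψφ : ∀ i, ψ₀ (φ (FreeGroup.of i)) = thp k n (FreeGroup.of i) := by
    intro i
    rw [hψ₀, MonoidHom.comp_apply]
    congr 1
    exact φ.symm_apply_apply _
  have hker : Subgroup.normalClosure ({w ^ n} : Set (FreeGroup (Fin k))) ≤ ψ₀.ker := by
    apply Subgroup.normalClosure_le_normal
    rintro _ rfl
    show w ^ n ∈ ψ₀.ker
    rw [MonoidHom.mem_ker, map_pow, ← hφ, hψφ]
    apply Multiplicative.toAdd.injective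
    rw [toAdd_pow, hnsmul, toAdd_one]
  let ψ : PresentedGroup ({w ^ n} : Set (FreeGroup (Fin k))) →* Multiplicative (Fin k → ZMod n) :=
    QuotientGroup.lift _ ψ₀ hker
  have hψ : ∀ g, ψ (PresentedGroup.mk _ g) = ψ₀ g := fun g => rfl
  -- the two tuples
  set t : Fin k → PresentedGroup ({w ^ n} : Set (FreeGroup (Fin k))) :=
    fun i => PresentedGroup.mk _ (φ (FreeGroup.of i)) with ht
  set t' := Function.update t i₀ (t i₀ ^ j) with ht'
  have hgt : Generates t := by
    have h1 : Generates (fun i => PresentedGroup.mk ({w ^ n} : Set (FreeGroup (Fin k)))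
        ((fun i => φ (FreeGroup.of i)) i)) := by
      rw [← gen_iff' (w := w) (n := n) (fun i => φ (FreeGroup.of i))]
      intro g
      refine ⟨g, ?_, by rw [inv_mul_cancel]; exact one_mem _⟩
      have h2 : Set.range (fun i => φ (FreeGroup.of i)) =
          φ.toMonoidHom '' (Set.range (FreeGroup.of : Fin k → Fr k)) := by
        rw [← Set.range_comp]; rfl
      rw [h2, ← MonoidHom.map_closure, FreeGroup.closure_range_of]
      exact ⟨φ.symm g, trivial, φ.apply_symm_apply g⟩
    exact h1
  have htn : t i₀ ^ n = 1 := by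
    have h0 : t i₀ = PresentedGroup.mk ({w ^ n} : Set (FreeGroup (Fin k))) w := by
      show PresentedGroup.mk _ (φ (FreeGroup.of i₀)) = _
      rw [hφ]
    have h1 : t i₀ ^ n = PresentedGroup.mk ({w ^ n} : Set (FreeGroup (Fin k))) (w ^ n) := by
      rw [map_pow, h0]
    rw [h1, ← map_one (PresentedGroup.mk ({w ^ n} : Set (FreeGroup (Fin k))))]
    symm
    apply mk_eq
    rw [inv_one, one_mul]
    exact pow_mem_Kn
  have hgt' : Generates t' := by
    unfold Generates at hgt ⊢
    rw [← top_le_iff, ← hgt, Subgroup.closure_le]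
    rintro _ ⟨i, rfl⟩
    by_cases hi : i = i₀
    · subst hi
      have h1 : t' i = t i ^ j := by rw [ht', Function.update_self]
      have h2 : (1 : ℤ) = j * Int.gcdA j n + n * Int.gcdB j n := by
        have h3 := Int.gcd_eq_gcd_ab (j : ℤ) (n : ℤ)
        rw [Int.gcd_natCast_natCast, hj] at h3
        exact_mod_cast h3
      have h4 : t i = (t' i) ^ (Int.gcdA j n) := by
        conv_lhs => rw [← zpow_one (t i), h2]
        rw [zpow_add, zpow_mul, zpow_mul, zpow_natCast, zpow_natCast, htn, one_zpow, mul_one, h1]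
      rw [SetLike.mem_coe, h4]
      exact Subgroup.zpow_mem _ (Subgroup.subset_closure (Set.mem_range_self i)) _
    · have h1 : t' i = t i := by rw [ht', Function.update_of_ne hi]
      exact Subgroup.subset_closure (Set.mem_range.2 (Exists.intro i h1))
  have hmin : ∀ (m : ℕ) (h : Fin m → PresentedGroup ({w ^ n} : Set (FreeGroup (Fin k)))),
      Generates h → k ≤ m := fun m h hh => le_of_generates hDG (by omega) hh
  have hequiv := hN k t t' ⟨hgt, hmin⟩ ⟨hgt', hmin⟩
  have hdet := hDT _ k n ψ t t' hequiv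
  have hM : (Matrix.of fun i => Multiplicative.toAdd (ψ (t i))) =
      (1 : Matrix (Fin k) (Fin k) (ZMod n)) := by
    ext a b
    rw [Matrix.of_apply, ht, hψ, hψφ, thp_of, Matrix.one_apply, Pi.single_apply]
    by_cases h : a = b
    · rw [if_pos h, if_pos h.symm]
    · rw [if_neg h, if_neg (Ne.symm h)]
  have hM' : (Matrix.of fun i => Multiplicative.toAdd (ψ (t' i))) =
      Matrix.diagonal (Function.update (fun _ => (1 : ZMod n)) i₀ (j : ZMod n)) := by
    ext a b
    rw [Matrix.of_apply, Matrix.diagonal_apply]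
    by_cases ha : a = i₀
    · subst ha
      rw [ht', Function.update_self, map_pow, toAdd_pow, Function.update_self]
      have h1 : Multiplicative.toAdd (ψ (t a)) = Pi.single a 1 := by
        rw [ht, hψ, hψφ, thp_of]
      rw [h1, Pi.smul_apply, Pi.single_apply]
      by_cases h : a = b
      · rw [if_pos h, if_pos h.symm, nsmul_eq_mul, mul_one]
      · rw [if_neg h, if_neg (Ne.symm h), smul_zero]
    · have h2 : t' a = t a := by rw [ht', Function.update_of_ne ha]
      rw [h2, Function.update_of_ne ha]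
      have h1 : Multiplicative.toAdd (ψ (t a)) = Pi.single a 1 := by
        rw [ht, hψ, hψφ, thp_of]
      rw [h1, Pi.single_apply]
      by_cases h : a = b
      · rw [if_pos h, if_pos h.symm]
      · rw [if_neg h, if_neg (Ne.symm h)]
  have hd' : (Matrix.diagonal (Function.update (fun _ : Fin k => (1 : ZMod n)) i₀
      (j : ZMod n))).det = j := by
    rw [Matrix.det_diagonal, Finset.prod_update_of_mem (Finset.mem_univ _)]
    simp
  rw [hM, hM', Matrix.det_one, hd'] at hdet
  rcases hdet with h | h
  · exact hj1 h.symm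
  · apply hj2
    rw [h, neg_neg]

end Pool.Agent.WN
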