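import Pool.Agent.helper99.WN.NR

/-!
# MP_5c1f29_al, row wn:DG: the rank of the quotient
-/

set_option autoImplicit false

open Classical

namespace Pool.Agent.WN

open Pool.Agent.NE

theorem DG : DG_stmt := by
  intro k m w n b hn hg
  obtain ⟨p, hp, hpn⟩ := Nat.exists_prime_and_dvd (show n ≠ 1 by omega)
  have : Fact p.Prime := ⟨hp⟩
  have hker : ∀ x ∈ Kn w n, thp k p x = 1 := by
    have h1 : Kn w n ≤ (thp k p).ker := by
      apply Subgroup.normalClosure_le_normal
      rintro _ rfl
      show w ^ n ∈ (thp k p).ker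
      rw [MonoidHom.mem_ker, map_pow]
      apply Multiplicative.toAdd.injective
      rw [toAdd_pow, toAdd_one]
      funext i
      rw [Pi.smul_apply, nsmul_eq_mul, (ZMod.natCast_eq_zero_iff n p).2 hpn, zero_mul]
      rfl
    intro x hx
    exact MonoidHom.mem_ker.1 (h1 hx)
  have h1 := thp_top (p := p) b (fun i => by
    obtain ⟨h, hh, hgh⟩ := hg (FreeGroup.of i)
    refine ⟨h, hh, ?_⟩
    have h2 := hker _ hgh
    rw [map_mul, map_inv, inv_mul_eq_one] at h2
    exact h2.symm)
  have h2 := finrank_range_le_card (R := ZMod p)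
    (b := fun i => Multiplicative.toAdd (thp k p (b i)))
  rw [Set.finrank, top_le_iff.1 h1, finrank_top, Module.finrank_fintype_fun_eq_card,
    Fintype.card_fin, Fintype.card_fin] at h2
  exact h2

end Pool.Agent.WN
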