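import Pool.Agent.helper99.WN.SpecB

/-!
# MP_5c1f29_al, row wn:IN: the inner vertices of an arc of singly used edges
-/

set_option autoImplicit false

open Classical

namespace Pool.Agent.WN

/-- at a vertex of valence two with ends of two different edges there is nothing else -/
theorem deg_two {V : Type} {k : ℕ} {E : Gr V k} {v : V} (hd : deg E v = 2) {d1 d2 : V × Fin k × V}
    (h1 : d1 ∈ E) (h2 : d2 ∈ E) (hne : d1 ≠ d2) (e1 : d1.1 = v ∨ d1.2.2 = v)
    (e2 : d2.1 = v ∨ d2.2.2 = v) :
    (∀ d ∈ E, (d.1 = v ∨ d.2.2 = v) → d = d1 ∨ d = d2) ∧ ¬ (d1.1 = v ∧ d1.2.2 = v) := by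
  unfold deg at hd
  set A := E.filter fun e => e.1 = v with hA
  set B := E.filter fun e => e.2.2 = v with hB
  have hmem : ∀ d ∈ E, (d.1 = v ∨ d.2.2 = v) → d ∈ A ∪ B := by
    intro d hdE h
    rw [Finset.mem_union, hA, hB, Finset.mem_filter, Finset.mem_filter]
    rcases h with h | h
    · exact Or.inl ⟨hdE, h⟩
    · exact Or.inr ⟨hdE, h⟩
  have hc := Finset.card_union_add_card_inter A B
  have hsub : ({d1, d2} : Finset (V × Fin k × V)) ⊆ A ∪ B := by
    intro d hdd
    rw [Finset.mem_insert, Finset.mem_singleton] at hdd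
    rcases hdd with rfl | rfl
    · exact hmem _ h1 e1
    · exact hmem _ h2 e2
  have hc2 : ({d1, d2} : Finset (V × Fin k × V)).card = 2 := Finset.card_pair hne
  have hle := Finset.card_le_card hsub
  constructor
  · intro d hdE h
    by_contra hcon
    push Not at hcon
    have hsub3 : ({d, d1, d2} : Finset (V × Fin k × V)) ⊆ A ∪ B := by
      intro d' hdd
      rw [Finset.mem_insert] at hdd
      rcases hdd with rfl | hdd
      · exact hmem _ hdE h
      · exact hsub hdd
    have hc3 : ({d, d1, d2} : Finset (V × Fin k × V)).card = 3 := by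
      rw [Finset.card_insert_of_notMem, hc2]
      rw [Finset.mem_insert, Finset.mem_singleton]
      push Not
      exact hcon
    have := Finset.card_le_card hsub3
    omega
  · rintro ⟨h3, h4⟩
    have h5 : d1 ∈ A ∩ B := by
      rw [Finset.mem_inter, hA, hB, Finset.mem_filter, Finset.mem_filter]
      exact ⟨⟨h1, h3⟩, h1, h4⟩
    have h6 : 0 < (A ∩ B).card := Finset.card_pos.2 ⟨d1, h5⟩
    omega

/-- both ends of the edge `ed t` -/
theorem ed_end_left {V : Type} {k : ℕ} (W : ℤ → Lt k) (z : ℤ → V) (t : ℤ) :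
    (ed W z t).1 = z t ∨ (ed W z t).2.2 = z t := by
  rw [ed_al, ed_be]
  rcases al_be_cases (W := W) t with ⟨h1, h2⟩ | ⟨h1, h2⟩
  · left; rw [h1]
  · right; rw [h2]

theorem ed_end_right {V : Type} {k : ℕ} (W : ℤ → Lt k) (z : ℤ → V) (t : ℤ) :
    (ed W z t).1 = z (t + 1) ∨ (ed W z t).2.2 = z (t + 1) := by
  rw [ed_al, ed_be]
  rcases al_be_cases (W := W) t with ⟨h1, h2⟩ | ⟨h1, h2⟩
  · right; rw [h2]
  · left; rw [h1]

/-- if the ends of a step agree, the edge is a loop -/
theorem ed_loop {V : Type} {k : ℕ} (W : ℤ → Lt k) (z : ℤ → V) (t : ℤ) {v : V} (h : z t = v)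
    (h' : z (t + 1) = v) : (ed W z t).1 = v ∧ (ed W z t).2.2 = v := by
  rw [ed_al, ed_be]
  rcases al_be_cases (W := W) t with ⟨h1, h2⟩ | ⟨h1, h2⟩
  · rw [h1, h2]; exact ⟨h, h'⟩
  · rw [h1, h2]; exact ⟨h', h⟩

theorem IN : IN_stmt := by
  intro V k E W s e z t0 q hS
  have hmemE : ∀ t, s ≤ t → t < e → ed W z t ∈ E := fun t h1 h2 => ed_mem (hS.run t h1 h2)
  have hs := hS.hs
  have he := hS.he
  -- the two edges at an inner vertex
  have hne : ∀ t, t0 < t → t ≤ t0 + q → ed W z (t - 1) ≠ ed W z t := by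
    intro t h1 h2 h3
    have := hS.single t (by omega) h2 (t - 1) (by omega) (by omega) h3
    omega
  have hend : ∀ t, t0 < t → t ≤ t0 + q →
      (ed W z (t - 1)).1 = z t ∨ (ed W z (t - 1)).2.2 = z t := by
    intro t _ _
    have := ed_end_right W z (t - 1)
    rwa [sub_add_cancel] at this
  have htwo : ∀ t, t0 < t → t ≤ t0 + q →
      (∀ d ∈ E, (d.1 = z t ∨ d.2.2 = z t) → d = ed W z (t - 1) ∨ d = ed W z t) ∧
      ¬ ((ed W z (t - 1)).1 = z t ∧ (ed W z (t - 1)).2.2 = z t) := by
    intro t h1 h2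
    exact deg_two (hS.inner t h1 h2).1 (hmemE _ (by omega) (by omega))
      (hmemE _ (by omega) (by omega)) (hne t h1 h2) (hend t h1 h2) (ed_end_left W z t)
  -- inner vertices are visited once
  have hvis : ∀ t t', t0 < t → t ≤ t0 + q → s ≤ t' → t' ≤ e → z t' = z t → t' = t := by
    intro t t' h1 h2 h3 h4 h5
    rcases lt_or_eq_of_le h4 with h6 | h6
    · have h7 : (ed W z t').1 = z t ∨ (ed W z t').2.2 = z t := by
        rw [← h5]; exact ed_end_left W z t'
      rcases (htwo t h1 h2).1 _ (hmemE t' h3 h6) h7 with h8 | h8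
      · have h9 := hS.single (t - 1) (by omega) (by omega) t' h3 h6 h8
        subst h9
        exfalso
        apply (htwo t h1 h2).2
        exact ed_loop W z (t - 1) h5 (by rw [sub_add_cancel])
      · exact hS.single t (by omega) h2 t' h3 h6 h8
    · subst h6
      exact absurd h5.symm (hS.inner t h1 h2).2.2
  refine ⟨?_, ?_, ?_, hvis⟩
  · unfold II
    rw [Finset.card_image_of_injOn]
    · rw [Int.card_Ioc]; omega
    · intro t ht t' ht' h
      rw [Finset.mem_coe, Finset.mem_Ioc] at ht ht'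
      exact hvis t' t ht'.1 ht'.2 (by omega) (by omega) h
  · unfold E1
    have hsub : (Finset.Icc t0 (t0 + q)).image (ed W z) ⊆ E := by
      intro d hd
      obtain ⟨t, ht, rfl⟩ := Finset.mem_image.1 hd
      rw [Finset.mem_Icc] at ht
      exact hmemE t (by omega) (by omega)
    have hcard : ((Finset.Icc t0 (t0 + q)).image (ed W z)).card = q + 1 := by
      rw [Finset.card_image_of_injOn]
      · rw [Int.card_Icc]; omega
      · intro t ht t' ht' h
        rw [Finset.mem_coe, Finset.mem_Icc] at ht ht'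
        exact hS.single t' ht'.1 ht'.2 t (by omega) (by omega) h
    have h1 := Finset.card_sdiff_add_card_eq_card hsub
    omega
  · intro d hd
    unfold E1 at hd
    rw [Finset.mem_sdiff] at hd
    have key : ∀ v ∈ II z t0 q, ¬ (d.1 = v ∨ d.2.2 = v) := by
      intro v hv hv'
      obtain ⟨t, ht, rfl⟩ := Finset.mem_image.1 hv
      rw [Finset.mem_Ioc] at ht
      apply hd.2
      rcases (htwo t ht.1 ht.2).1 d hd.1 hv' with h | h
      · rw [h]; exact Finset.mem_image_of_mem _ (Finset.mem_Icc.2 ⟨by omega, by omega⟩)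
      · rw [h]; exact Finset.mem_image_of_mem _ (Finset.mem_Icc.2 ⟨by omega, by omega⟩)
    exact ⟨fun h => key _ h (Or.inl rfl), fun h => key _ h (Or.inr rfl)⟩

end Pool.Agent.WN
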