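import Pool.Agent.helper99.WN.SpecC

/-!
# MP_5c1f29_al, row wn:N1: Nielsen's theorem, assembly
-/

set_option autoImplicit false

open Classical

namespace Pool.Agent.WN

open Pool.Agent.NE

theorem N1 (hNR : NR_stmt) (hNA : NA_stmt) (hNB : NB_stmt) (hNC : NC_stmt) (hND : ND_stmt)
    (hNE : NE_stmt) : N1_stmt := by
  intro k b hb
  have key : ∀ (S : ℕ) (A : Finset (Fr k)) (t a b : Fin k → Fr k) (x : Fin k → Lt k),
      A.card < S → TF A t a b x → Subgroup.closure (Set.range t) = ⊤ →
      NielsenEquiv t (fun i => FreeGroup.of i) := by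
    intro S
    induction S with
    | zero => intro A t a b x h; omega
    | succ S ih =>
      intro A t a b x hS hT ht
      by_cases hdet : Det (RT A a b x)
      · have h1 := hNB k A t a b x hT ht hdet
        apply hNE k t x _ ht
        intro j
        rw [hT.eq j, h1 _ (hT.ha j), h1 _ (hT.hb j), one_mul, inv_one, mul_one]
      · obtain ⟨t', j, c, d, h1, h2, h3, h4, h5, h6, h7⟩ := hNC k A t a b x hT hdet
        obtain ⟨A', t'', a', b', x', h8, h9, h10⟩ := hND k A t' j c d hT.one hT.pc h2 h3 h4 h5 h6 h7
        have h11 : NielsenEquiv t t'' := h1.trans h9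
        have h12 : Generates t'' := h11.symm.generates ht
        exact h11.trans (ih A' t'' a' b' x' (by omega) h10 h12)
  obtain ⟨A, a, b', x, hT⟩ := hNA k b (hNR k b hb)
  exact key _ A b a b' x (Nat.lt_succ_self _) hT hb

end Pool.Agent.WN
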