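import Pool.Agent.helper99.WN.NT

/-!
# MP_5c1f29_al, row wn:NA: the first tree
-/

set_option autoImplicit false

open Classical

namespace Pool.Agent.WN

theorem NA : NA_stmt := by
  intro k t ht
  set A : Finset (Fr k) := insert 1 (Finset.univ.biUnion fun j : Fin k =>
    ((t j).toWord.inits.map fun p => (FreeGroup.mk p : Fr k)).toFinset) with hA
  have hmem : ∀ g : Fr k, g ∈ A ↔ g = 1 ∨ ∃ j, ∃ p, p <+: (t j).toWord ∧ FreeGroup.mk p = g := by
    intro g
    rw [hA, Finset.mem_insert, Finset.mem_biUnion]
    constructor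
    · rintro (h | ⟨j, _, h⟩)
      · exact Or.inl h
      · rw [List.mem_toFinset, List.mem_map] at h
        obtain ⟨p, hp, rfl⟩ := h
        exact Or.inr ⟨j, p, (List.mem_inits _ _).1 hp, rfl⟩
    · rintro (h | ⟨j, p, hp, rfl⟩)
      · exact Or.inl h
      · refine Or.inr ⟨j, Finset.mem_univ _, ?_⟩
        rw [List.mem_toFinset, List.mem_map]
        exact ⟨p, (List.mem_inits _ _).2 hp, rfl⟩
  have hne : ∀ j, (t j).toWord ≠ [] := by
    intro j h
    exact ht j (FreeGroup.toWord_eq_nil_iff.1 h)
  refine ⟨A, fun j => FreeGroup.mk (t j).toWord.dropLast, fun _ => 1,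
    fun j => (t j).toWord.getLast (hne j), ?_⟩
  exact
    { one := (hmem 1).2 (Or.inl rfl)
      pc := by
        intro g hg
        rcases (hmem g).1 hg with h | ⟨j, p, hp, rfl⟩
        · subst h
          rw [FreeGroup.toWord_one]
          exact (hmem _).2 (Or.inl rfl)
        · have h1 : (FreeGroup.mk p : Fr k).toWord = p :=
            toWord_mk_of_reduced (reduced_of_initial FreeGroup.isReduced_toWord hp)
          rw [h1]
          exact (hmem _).2 (Or.inr ⟨j, _, (List.dropLast_prefix _).trans hp, rfl⟩)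
      ha := fun j => (hmem _).2 (Or.inr ⟨j, _, List.dropLast_prefix _, rfl⟩)
      hb := fun _ => (hmem 1).2 (Or.inl rfl)
      eq := by
        intro j
        rw [inv_one, mul_one]
        unfold lt
        rw [FreeGroup.mul_mk, List.dropLast_append_getLast, FreeGroup.mk_toWord] }

end Pool.Agent.WN
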