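import Pool.Agent.helper99.WN.SpecC

/-!
# MP_5c1f29_al, row wn:NE: generating tuples of letters
-/

set_option autoImplicit false

open Classical

namespace Pool.Agent.WN

open Pool.Agent.NE

/-- inverting some of the entries -/
theorem nielsen_inv {G : Type} [Group G] {k : ℕ} (t t' : Fin k → G)
    (h : ∀ j, t' j = t j ∨ t' j = (t j)⁻¹) : NielsenEquiv t t' := by
  have key : ∀ S : Finset (Fin k), NielsenEquiv t (fun j => if j ∈ S then t' j else t j) := by
    intro S
    induction S using Finset.induction_on with
    | empty =>
      have h1 : (fun j => if j ∈ (∅ : Finset (Fin k)) then t' j else t j) = t := by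
        funext j; simp
      rw [h1]; exact NielsenEquiv.refl _
    | insert a S ha ih =>
      set u : Fin k → G := fun j => if j ∈ S then t' j else t j with hu
      have hua : u a = t a := by rw [hu]; simp [ha]
      have h1 : (fun j => if j ∈ insert a S then t' j else t j) = Function.update u a (t' a) := by
        funext j
        by_cases hj : j = a
        · subst hj; simp
        · rw [Function.update_of_ne hj, hu]
          simp [hj]
      rw [h1]
      refine ih.trans ?_
      rcases h a with h2 | h2
      · rw [h2, ← hua, Function.update_eq_self]; exact NielsenEquiv.refl _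
      · rw [h2, ← hua]; exact NielsenEquiv.of_step (Step.inv u a)
  have h1 := key Finset.univ
  have h2 : (fun j => if j ∈ (Finset.univ : Finset (Fin k)) then t' j else t j) = t' := by
    funext j; simp
  rwa [h2] at h1

theorem NE : NE_stmt := by
  intro k t x hx ht
  have hsurj : Function.Surjective fun j => (x j).1 := by
    intro i
    by_contra hcon
    push Not at hcon
    set χ : Fr k →* Multiplicative ℤ :=
      FreeGroup.lift fun j => if j = i then Multiplicative.ofAdd 1 else 1 with hχ
    have h1 : Subgroup.closure (Set.range t) ≤ χ.ker := by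
      rw [Subgroup.closure_le]
      rintro _ ⟨j, rfl⟩
      show t j ∈ χ.ker
      rw [MonoidHom.mem_ker, hx j]
      have h2 : χ (FreeGroup.of (x j).1) = 1 := by
        rw [hχ, FreeGroup.lift_apply_of, if_neg (hcon j)]
      rcases hxj : x j with ⟨y, b⟩
      rw [hxj] at h2
      cases b
      · rw [lt_false, map_inv, h2, inv_one]
      · rw [lt_true, h2]
    rw [ht] at h1
    have h3 : χ (FreeGroup.of i) = 1 := MonoidHom.mem_ker.1 (h1 trivial)
    rw [hχ, FreeGroup.lift_apply_of, if_pos rfl] at h3
    have h4 := congrArg Multiplicative.toAdd h3
    simp at h4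
  have hbij : Function.Bijective fun j => (x j).1 := Finite.surjective_iff_bijective.1 hsurj
  set σ : Equiv.Perm (Fin k) := Equiv.ofBijective _ hbij with hσ
  have h1 : NielsenEquiv t ((fun i => (FreeGroup.of i : Fr k)) ∘ σ) := by
    apply nielsen_inv
    intro j
    show FreeGroup.of (x j).1 = t j ∨ FreeGroup.of (x j).1 = (t j)⁻¹
    rw [hx j]
    rcases x j with ⟨y, b⟩
    cases b
    · right; rw [lt_false, inv_inv]
    · left; rw [lt_true]
  exact h1.trans (NielsenEquiv.of_step (Step.perm (fun i => (FreeGroup.of i : Fr k)) σ)).symm

end Pool.Agent.WN
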