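import Pool.Agent.helper99.WN.SpecC

/-!
# MP_5c1f29_al, row wn:NT: connected subsets of the Cayley tree
-/

set_option autoImplicit false

open Classical

namespace Pool.Agent.WN

theorem toWord_mk_of_reduced {k : ℕ} {l : List (Lt k)} (h : FreeGroup.IsReduced l) :
    (FreeGroup.mk l : Fr k).toWord = l := by
  rw [FreeGroup.toWord_mk]; exact h.reduce_eq

theorem reduced_of_initial {k : ℕ} {l p : List (Lt k)} (h : FreeGroup.IsReduced l) (hp : p <+: l) :
    FreeGroup.IsReduced p := by
  obtain ⟨s, rfl⟩ := hp
  exact List.IsChain.left_of_append h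

theorem toWord_mul_lt {k : ℕ} (g : Fr k) (y : Lt k) :
    (g * lt y).toWord = g.toWord ++ [y] ∨ (g * lt y).toWord = g.toWord.dropLast := by
  have hg : FreeGroup.IsReduced g.toWord := FreeGroup.isReduced_toWord
  have h0 : g * lt y = FreeGroup.mk (g.toWord ++ [y]) := by
    unfold lt
    rw [← FreeGroup.mul_mk, FreeGroup.mk_toWord]
  by_cases h1 : g.toWord.getLast? = some (iv y)
  · right
    have h2 : g.toWord = g.toWord.dropLast ++ [iv y] := by
      rw [List.dropLast_append_getLast?]
      exact h1
    have h3 : g * lt y = FreeGroup.mk g.toWord.dropLast := by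
      have h4 : g = FreeGroup.mk g.toWord.dropLast * lt (iv y) := by
        unfold lt
        rw [FreeGroup.mul_mk, ← h2, FreeGroup.mk_toWord]
      conv_lhs => rw [h4]
      rw [mul_assoc, lt_iv, inv_mul_cancel, mul_one]
    rw [h3]
    apply toWord_mk_of_reduced
    exact reduced_of_initial hg (List.dropLast_prefix _)
  · left
    rw [h0]
    apply toWord_mk_of_reduced
    unfold FreeGroup.IsReduced
    rw [List.isChain_append]
    refine ⟨hg, List.isChain_singleton _, ?_⟩
    intro b hb c hc
    rw [List.head?_cons, Option.mem_def, Option.some.injEq] at hc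
    subst hc
    intro h5
    by_contra h6
    apply h1
    rw [Option.mem_def] at hb
    rw [hb]
    congr 1
    unfold iv
    apply Prod.ext
    · exact h5
    · show b.2 = !y.2
      revert h6
      cases b.2 <;> cases y.2 <;> simp

theorem NT : NT_stmt := by
  intro k A hA
  have key : ∀ g : Fr k,
      Relation.ReflTransGen (fun p q => p ∈ A ∧ q ∈ A ∧ ∃ y : Lt k, q = p * lt y) 1 g →
      (1 : Fr k) ∈ A → ∀ p, p <+: g.toWord → FreeGroup.mk p ∈ A := by
    intro g hg h1
    induction hg with
    | refl =>
      intro p hp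
      rw [FreeGroup.toWord_one, List.prefix_nil] at hp
      subst hp
      exact h1
    | @tail g g' _ hs ih =>
      obtain ⟨_, hg', y, rfl⟩ := hs
      intro p hp
      rcases toWord_mul_lt g y with h2 | h2
      · rw [h2] at hp
        rcases List.prefix_concat_iff.1 hp with h3 | h3
        · rw [h3, ← h2, FreeGroup.mk_toWord]; exact hg'
        · exact ih p h3
      · rw [h2] at hp
        exact ih p (hp.trans (List.dropLast_prefix _))
  intro g hg
  have h1 : (1 : Fr k) ∈ A := by
    rcases Relation.ReflTransGen.cases_head (hA g hg) with h2 | ⟨c, ⟨h2, _⟩, _⟩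
    · rw [h2]; exact hg
    · exact h2
  exact key g (hA g hg) h1 _ (List.dropLast_prefix _)

end Pool.Agent.WN
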