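import Pool.Agent.helper99.WN.SpecC

/-!
# MP_5c1f29_al, row wn:NU: a unit modulo `n` different from `1` and `-1`
-/

set_option autoImplicit false

open Classical

namespace Pool.Agent.WN

theorem nu_aux {n j : ℕ} (h1 : 1 < j) (h2 : j + 1 < n) : (j : ZMod n) ≠ 1 ∧ (j : ZMod n) ≠ -1 := by
  constructor
  · intro h
    have h3 : ((j : ℕ) : ZMod n) = ((1 : ℕ) : ZMod n) := by rw [h, Nat.cast_one]
    rw [ZMod.natCast_eq_natCast_iff] at h3
    have h4 := Nat.ModEq.eq_of_lt_of_lt h3 (by omega) (by omega)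
    omega
  · intro h
    have h3 : ((j + 1 : ℕ) : ZMod n) = 0 := by rw [Nat.cast_add, Nat.cast_one, h]; ring
    rw [ZMod.natCast_eq_zero_iff] at h3
    have h4 := Nat.le_of_dvd (by omega) h3
    omega

theorem NU : NU_stmt := by
  intro n hn
  by_cases h2 : n % 2 = 1
  · exact ⟨2, (Nat.coprime_two_left).2 (Nat.odd_iff.2 h2), nu_aux (by omega) (by omega)⟩
  · by_cases h4 : n % 4 = 0
    · refine ⟨n / 2 + 1, ?_, nu_aux (by omega) (by omega)⟩
      have h5 : Nat.gcd (n / 2 + 1) n ∣ 2 := by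
        have h6 : Nat.gcd (n / 2 + 1) n ∣ 2 * (n / 2 + 1) :=
          (Nat.gcd_dvd_left _ _).mul_left 2
        have h7 := Nat.dvd_sub h6 (Nat.gcd_dvd_right (n / 2 + 1) n)
        have h8 : 2 * (n / 2 + 1) - n = 2 := by omega
        rwa [h8] at h7
      rcases (Nat.dvd_prime Nat.prime_two).1 h5 with h6 | h6
      · exact h6
      · exfalso
        have h7 := Nat.gcd_dvd_left (n / 2 + 1) n
        rw [h6] at h7
        omega
    · refine ⟨n / 2 + 2, ?_, nu_aux (by omega) (by omega)⟩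
      have h5 : Nat.gcd (n / 2 + 2) n ∣ 4 := by
        have h6 : Nat.gcd (n / 2 + 2) n ∣ 2 * (n / 2 + 2) :=
          (Nat.gcd_dvd_left _ _).mul_left 2
        have h7 := Nat.dvd_sub h6 (Nat.gcd_dvd_right (n / 2 + 2) n)
        have h8 : 2 * (n / 2 + 2) - n = 4 := by omega
        rwa [h8] at h7
      have h6 : Nat.gcd (n / 2 + 2) n ≤ 4 := Nat.le_of_dvd (by norm_num) h5
      have h7 := Nat.gcd_dvd_left (n / 2 + 2) n
      unfold Nat.Coprime
      interval_cases h8 : Nat.gcd (n / 2 + 2) n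
      · omega
      · rfl
      · omega
      · omega
      · omega

end Pool.Agent.WN
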