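import Pool.Agent.helper99.WN.IN

/-!
# MP_5c1f29_al, row wn:PT: closed readings give protected sets
-/

set_option autoImplicit false

open Classical

namespace Pool.Agent.WN

/-- at a vertex of valence two with a loop there is nothing else -/
theorem deg_two_loop {V : Type} {k : ℕ} {E : Gr V k} {v : V} (hd : deg E v = 2)
    {d1 : V × Fin k × V} (h1 : d1 ∈ E) (e1 : d1.1 = v) (e2 : d1.2.2 = v) :
    ∀ d ∈ E, (d.1 = v ∨ d.2.2 = v) → d = d1 := by
  intro d hdE h
  by_contra hne
  rcases deg_two hd h1 hdE (Ne.symm hne) (Or.inl e1) h with ⟨_, h3⟩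
  exact h3 ⟨e1, e2⟩

theorem PT : PT_stmt := by
  intro V k E W N z hW hI hz hzN
  have hN := hW.pos
  have hper : ∀ t c : ℤ, ed W z (t + c * N) = ed W z t := by
    intro t c
    have h1 : ∀ t c : ℤ, z (t + c * N) = z t := by
      intro t c
      induction c using Int.induction_on with
      | zero => simp
      | succ c ih =>
        have h2 := hzN (t + c * N)
        rw [ih] at h2
        rw [← h2]
        congr 1
        ring
      | pred c ih =>
        have h2 := hzN (t + (-(c : ℤ) - 1) * N)
        rw [← h2, ← ih]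
        congr 1
        ring
    unfold ed
    have h2 : t + c * N + 1 = t + 1 + c * N := by ring
    rw [h2, h1, h1, hW.per_mul]
  have hall : ∀ t, ed W z t ∈ (Finset.Ico (0 : ℤ) N).image (ed W z) := by
    intro t
    rw [Finset.mem_image]
    refine ⟨t % N, ?_, ?_⟩
    · rw [Finset.mem_Ico]
      exact ⟨Int.emod_nonneg _ (by omega), Int.emod_lt_of_pos _ (by omega)⟩
    · have h1 := hper (t % N) (t / N)
      rw [← h1]
      congr 1
      rw [mul_comm]
      exact Int.emod_add_mul_ediv t N
  refine ⟨?_, ?_, ?_, hall⟩
  · intro d hd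
    obtain ⟨t, _, rfl⟩ := Finset.mem_image.1 hd
    exact ed_mem (hz t)
  · intro v hdv d hd hv d' hd' hv'
    obtain ⟨t, _, rfl⟩ := Finset.mem_image.1 hd
    -- `v` is visited
    obtain ⟨t', ht'⟩ : ∃ t', z t' = v := by
      rw [ed_al, ed_be] at hv
      rcases hv with h | h
      · exact ⟨_, h⟩
      · exact ⟨_, h⟩
    have e1 : (ed W z (t' - 1)).1 = v ∨ (ed W z (t' - 1)).2.2 = v := by
      have := ed_end_right W z (t' - 1)
      rwa [sub_add_cancel, ht'] at this
    have e2 : (ed W z t').1 = v ∨ (ed W z t').2.2 = v := by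
      have := ed_end_left W z t'
      rwa [ht'] at this
    by_cases hne : ed W z (t' - 1) = ed W z t'
    · -- a loop
      have h1 : (W (t' - 1)).1 = (W t').1 := by
        rw [← ed_letter (W := W) z (t' - 1), hne, ed_letter]
      have h2 : (W (t' - 1)).2 = (W t').2 := by
        by_contra h3
        apply hW.red (t' - 1)
        rw [sub_add_cancel]
        unfold iv
        apply Prod.ext
        · exact h1.symm
        · show (W t').2 = !(W (t' - 1)).2
          revert h3
          cases (W t').2 <;> cases (W (t' - 1)).2 <;> simp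
      have h3 : z (t' - 1) = z t' ∧ z t' = z (t' + 1) := by
        unfold ed at hne
        rw [sub_add_cancel] at hne
        by_cases h4 : (W t').2 = true
        · rw [if_pos h4, if_pos (h2.trans h4)] at hne
          rw [Prod.mk.injEq, Prod.mk.injEq] at hne
          exact ⟨hne.1, hne.2.2⟩
        · rw [if_neg h4, if_neg (by rw [h2]; exact h4)] at hne
          rw [Prod.mk.injEq, Prod.mk.injEq] at hne
          exact ⟨hne.2.2, hne.1⟩
      have h5 := ed_loop W z t' ht' (h3.2.symm.trans ht')
      rw [deg_two_loop hdv (ed_mem (hz t')) h5.1 h5.2 d' hd' hv']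
      exact hall t'
    · rcases (deg_two hdv (ed_mem (hz (t' - 1))) (ed_mem (hz t')) hne e1 e2).1 d' hd' hv' with h | h
      · rw [h]; exact hall _
      · rw [h]; exact hall _
  · refine Finset.card_image_le.trans ?_
    rw [Int.card_Ico]
    omega

end Pool.Agent.WN
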