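import Pool.Agent.helper99.WN.Asm4
import Pool.Agent.helper99.WN.AU
import Pool.Agent.helper79.WN.BB
import Pool.Agent.helper44.WN.BC
import Pool.Agent.helper39.WN.BE
import Pool.Agent.helper44.WN.BK
import Pool.Agent.helper72.WN.BO
import Pool.Agent.helper72.WN.BS
import Pool.Agent.helper99.WN.C1
import Pool.Agent.helper85.WN.C2
import Pool.Agent.helper90.WN.C3
import Pool.Agent.helper2.WN.CA
import Pool.Agent.helper98.WN.CB
import Pool.Agent.helper6.WN.CC
import Pool.Agent.helper31.WN.CD
import Pool.Agent.helper9.WN.CF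
import Pool.Agent.helper23.WN.CI
import Pool.Agent.helper95.WN.CM
import Pool.Agent.helper50.WN.CN
import Pool.Agent.helper31.WN.CP
import Pool.Agent.helper44.WN.CT
import Pool.Agent.helper99.WN.CV
import Pool.Agent.helper48.WN.CY
import Pool.Agent.helper99.WN.DG
import Pool.Agent.helper46.WN.DI
import Pool.Agent.helper53.WN.DT
import Pool.Agent.helper11.WN.FO
import Pool.Agent.helper72.WN.FU
import Pool.Agent.helper56.WN.GR
import Pool.Agent.helper93.WN.HR
import Pool.Agent.helper99.WN.IN
import Pool.Agent.helper84.WN.K1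
import Pool.Agent.helper32.WN.KE
import Pool.Agent.helper89.WN.LA
import Pool.Agent.helper98.WN.MG
import Pool.Agent.helper72.WN.MN
import Pool.Agent.helper99.WN.N1
import Pool.Agent.helper99.WN.NA
import Pool.Agent.helper53.WN.NB
import Pool.Agent.helper53.WN.NC
import Pool.Agent.helper36.WN.ND
import Pool.Agent.helper99.WN.NE
import Pool.Agent.helper94.WN.NM
import Pool.Agent.helper99.WN.NR
import Pool.Agent.helper99.WN.NT
import Pool.Agent.helper99.WN.NU
import Pool.Agent.helper77.WN.O1
import Pool.Agent.helper72.WN.PR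
import Pool.Agent.helper99.WN.PT
import Pool.Agent.helper23.WN.QU
import Pool.Agent.helper46.WN.RA
import Pool.Agent.helper72.WN.RB
import Pool.Agent.helper38.WN.RC
import Pool.Agent.helper52.WN.RR
import Pool.Agent.helper63.WN.SB
import Pool.Agent.helper40.WN.SK
import Pool.Agent.helper44.WN.TT
import Pool.Agent.helper6.WN.WA
import Pool.Agent.helper29.WN.WP

/-!
# MP_5c1f29_al: all rows together
-/

set_option autoImplicit false

namespace Pool.Agent.WN

theorem cl_rows : CA_stmt ∧ CB_stmt ∧ CY_stmt := ⟨CA, CB CA, CY⟩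

theorem allCC : CC_stmt := CC CA (CB CA) CY

theorem allCD : CD_stmt := CD CA (CB CA) CY allCC (C1 CA) (C2 CA (CB CA)) (C3 allCC)

theorem allCF : CF_stmt := CF RR (CI (CB CA) allCD) (KE RR)

theorem allRows : Rows where
  SK := SK (BO MG)
  HR := HR FU
  GR := GR
  CN := CN
  MN := MN FO CM PR
  CF := allCF
  DI := DI
  CT := CT TT
  SB := SB LA
  PT := PT
  CP := CP RR
  IN := IN
  RB := RB FU IN (RA IN)
  RC := RC
  BE := BE BK BS
  BC := BC
  BB := BB GR QU
  DG := DG
  O1 := O1 DG

theorem allN1 : N1_stmt := N1 NR NA (NB RR) NC (ND NM NT) NE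

end Pool.Agent.WN
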