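import Pool.Agent.helper99.WN.SpecC

/-!
# MP_5c1f29_al, assembly, part 1: changes of base point, generation modulo the kernel, the first graph
-/

set_option autoImplicit false

open Classical

namespace Pool.Agent.WN

open Pool.Agent.NE

section

variable {k m : ℕ}

theorem closure_conj {G : Type} [Group G] (b : Fin m → G) (g h : G) :
    h ∈ Subgroup.closure (Set.range fun i => g⁻¹ * b i * g) ↔
      g * h * g⁻¹ ∈ Subgroup.closure (Set.range b) := by
  have h1 : Set.range (fun i => g⁻¹ * b i * g) = (MulAut.conj g⁻¹).toMonoidHom '' (Set.range b) := by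
    rw [← Set.range_comp]
    congr 1
    funext i
    simp [MulAut.conj_apply]
  rw [h1, ← MonoidHom.map_closure, Subgroup.mem_map]
  constructor
  · rintro ⟨x, hx, rfl⟩
    have h2 : g * (MulAut.conj g⁻¹).toMonoidHom x * g⁻¹ = x := by
      simp [MulAut.conj_apply, mul_assoc]
    rw [h2]; exact hx
  · intro hx
    refine ⟨_, hx, ?_⟩
    simp [MulAut.conj_apply, mul_assoc]

theorem closure_conj_top {G : Type} [Group G] (b : Fin m → G) (g : G)
    (hb : Subgroup.closure (Set.range b) = ⊤) :
    Subgroup.closure (Set.range fun i => g⁻¹ * b i * g) = ⊤ := by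
  rw [eq_top_iff]
  intro h _
  rw [closure_conj, hb]
  trivial

/-- change of the base point -/
theorem IsLoop.base {V : Type} {E : Gr V k} {v0 v1 : V} {b : Fin m → Fr k} (h : IsLoop E v0 b)
    {g : Fr k} (hg : PL (lf E) v0 v1 g) : IsLoop E v1 (fun i => g⁻¹ * b i * g) := by
  intro x
  rw [closure_conj, ← h]
  constructor
  · intro h1; exact (hg.trans h1).trans hg.symm
  · intro h1
    have h2 := (hg.symm.trans h1).trans hg
    have h3 : g⁻¹ * (g * x * g⁻¹) * g = x := by group
    rwa [h3] at h2

/-- transport along the output of MN, PR -/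
theorem IsLoop.conj {V V' : Type} {E : Gr V k} {E' : Gr V' k} {v0 : V} {v0' : V'}
    {b : Fin m → Fr k} (h : IsLoop E v0 b) {g : Fr k}
    (hg : ∀ x : Fr k, PL (lf E') v0' v0' x ↔ PL (lf E) v0 v0 (g * x * g⁻¹)) :
    IsLoop E' v0' (fun i => g⁻¹ * b i * g) := by
  intro x
  rw [closure_conj, ← h, hg]

end

/-! ### generation modulo the kernel -/

section

variable {k m : ℕ} {w : Fr k} {n : ℕ}

instance instKnNormal : (Kn w n).Normal := Subgroup.normalClosure_normal

theorem mk_eq_iff_Kn {g h : Fr k} :
    (QuotientGroup.mk' (Kn w n) g = QuotientGroup.mk' (Kn w n) h) ↔ g⁻¹ * h ∈ Kn w n :=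
  QuotientGroup.eq

theorem gen_iff (b : Fin m → Fr k) :
    Gen w n b ↔ Generates (fun i => QuotientGroup.mk' (Kn w n) (b i)) := by
  have h1 : Subgroup.closure (Set.range fun i => QuotientGroup.mk' (Kn w n) (b i)) =
      (Subgroup.closure (Set.range b)).map (QuotientGroup.mk' (Kn w n)) := by
    rw [MonoidHom.map_closure, ← Set.range_comp]
    rfl
  unfold Generates
  rw [h1]
  constructor
  · intro h
    rw [eq_top_iff]
    intro x _
    obtain ⟨g, rfl⟩ := QuotientGroup.mk'_surjective (Kn w n) x
    obtain ⟨y, hy, hgy⟩ := h g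
    exact ⟨y, hy, (mk_eq_iff_Kn.2 hgy).symm⟩
  · intro h g
    have h2 : QuotientGroup.mk' (Kn w n) g ∈
        (Subgroup.closure (Set.range b)).map (QuotientGroup.mk' (Kn w n)) := by rw [h]; trivial
    obtain ⟨y, hy, hgy⟩ := h2
    exact ⟨y, hy, mk_eq_iff_Kn.1 hgy.symm⟩

theorem Gen.congr {b b' : Fin m → Fr k} (h : Gen w n b) (g : Fr k)
    (hb : ∀ i, (g⁻¹ * b i * g)⁻¹ * b' i ∈ Kn w n) : Gen w n b' := by
  rw [gen_iff] at h ⊢
  have h1 : (fun i => QuotientGroup.mk' (Kn w n) (b' i)) = fun i =>
      (QuotientGroup.mk' (Kn w n) g)⁻¹ * QuotientGroup.mk' (Kn w n) (b i) *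
        QuotientGroup.mk' (Kn w n) g := by
    funext i
    rw [← map_inv, ← map_mul, ← map_mul]
    exact (mk_eq_iff_Kn.2 (hb i)).symm
  rw [h1]
  exact closure_conj_top _ _ h

theorem Gen.conj {b : Fin m → Fr k} (h : Gen w n b) (g : Fr k) :
    Gen w n (fun i => g⁻¹ * b i * g) :=
  h.congr g (fun i => by rw [inv_mul_cancel]; exact one_mem _)

theorem Gen.mono {m' : ℕ} {b : Fin m → Fr k} {b' : Fin m' → Fr k} (h : Gen w n b)
    (hb : ∀ x ∈ Subgroup.closure (Set.range b), x ∈ Subgroup.closure (Set.range b')) :
    Gen w n b' := by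
  intro g
  obtain ⟨y, hy, hgy⟩ := h g
  exact ⟨y, hb y hy, hgy⟩

end

/-! ### the first graph -/

/-- every tuple is a generating tuple of the group of closed paths of a finite graph -/
theorem exists_isLoop (hRC : RC_stmt) {k : ℕ} : ∀ (m : ℕ) (b : Fin m → Fr k),
    ∃ (V : Type) (_ : Fintype V) (E : Gr V k) (v0 : V), IsLoop E v0 b := by
  intro m
  induction m with
  | zero =>
    intro b
    refine ⟨Unit, inferInstance, ∅, (), ?_⟩
    intro h
    have hr : Set.range b = ∅ := Set.range_eq_empty b
    rw [hr, Subgroup.closure_empty, Subgroup.mem_bot]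
    constructor
    · intro h1
      have key : ∀ {u v : Unit} {x : Fr k}, PL (lf (∅ : Gr Unit k)) u v x → x = 1 := by
        intro u v x hx
        induction hx with
        | nil => rfl
        | fwd _ he _ => obtain ⟨e, he, _⟩ := he; simp at he
        | bwd _ he _ => obtain ⟨e, he, _⟩ := he; simp at he
      exact key h1
    · rintro rfl; exact PL.nil _
  | succ m ih =>
    intro b
    obtain ⟨V, hV, E, v0, hE⟩ := ih (fun i => b i.castSucc)
    by_cases hb : b (Fin.last m) = 1
    · refine ⟨V, hV, E, v0, ?_⟩
      intro h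
      rw [hE]
      constructor
      · intro h1
        exact Subgroup.closure_mono (by rintro _ ⟨i, rfl⟩; exact ⟨i.castSucc, rfl⟩) h1
      · intro h1
        have h2 : Subgroup.closure (Set.range b) ≤
            Subgroup.closure (Set.range fun i => b (Fin.castSucc i)) := by
          rw [Subgroup.closure_le]
          rintro _ ⟨i, rfl⟩
          refine Fin.lastCases ?_ (fun j => ?_) i
          · rw [hb]; exact one_mem _
          · exact Subgroup.subset_closure ⟨j, rfl⟩
        exact h2 h1
    · have hL : (b (Fin.last m)).toWord ≠ [] := by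
        intro h
        apply hb
        rw [← FreeGroup.mk_toWord (x := b (Fin.last m)), h]
        rfl
      obtain ⟨V', hV', E', v0', _, h'⟩ := hRC V k E v0 v0 v0 (b (Fin.last m)).toWord ∅
        (by intro d _; simp) (by simp) (by simp) (by simp) hL
      refine ⟨V', hV', E', v0', ?_⟩
      intro h
      rw [h', FreeGroup.mk_toWord]
      constructor
      · intro h1
        -- claim for all paths
        have key : ∀ {a : V} {x : Fr k}, PL (lf E ∪ {(v0, b (Fin.last m), v0)}) v0 a x →
            ∃ y ∈ Subgroup.closure (Set.range b), PL (lf E) v0 a (y * x) := by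
          intro a x hx
          induction hx with
          | nil => exact ⟨1, one_mem _, by rw [one_mul]; exact PL.nil _⟩
          | @fwd b' c g x' _ he ih2 =>
            obtain ⟨y, hy, hp⟩ := ih2
            rcases he with he | he
            · exact ⟨y, hy, by rw [← mul_assoc]; exact hp.fwd he⟩
            · simp only [Set.mem_singleton_iff, Prod.mk.injEq] at he
              obtain ⟨rfl, rfl, rfl⟩ := he
              have h3 : y * g ∈ Subgroup.closure (Set.range b) := by
                have h4 := (hE _).1 hp
                exact Subgroup.closure_mono (by rintro _ ⟨i, rfl⟩; exact ⟨i.castSucc, rfl⟩) h4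
              have h5 : g * b (Fin.last m) ∈ Subgroup.closure (Set.range b) := by
                have h6 : g = y⁻¹ * (y * g) := by group
                rw [h6]
                exact mul_mem (mul_mem (inv_mem hy) h3) (Subgroup.subset_closure ⟨_, rfl⟩)
              exact ⟨(g * b (Fin.last m))⁻¹, inv_mem h5, by rw [inv_mul_cancel]; exact PL.nil _⟩
          | @bwd b' c g x' _ he ih2 =>
            obtain ⟨y, hy, hp⟩ := ih2
            rcases he with he | he
            · exact ⟨y, hy, by rw [← mul_assoc]; exact hp.bwd he⟩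
            · simp only [Set.mem_singleton_iff, Prod.mk.injEq] at he
              obtain ⟨rfl, rfl, rfl⟩ := he
              have h3 : y * g ∈ Subgroup.closure (Set.range b) := by
                have h4 := (hE _).1 hp
                exact Subgroup.closure_mono (by rintro _ ⟨i, rfl⟩; exact ⟨i.castSucc, rfl⟩) h4
              have h5 : g * (b (Fin.last m))⁻¹ ∈ Subgroup.closure (Set.range b) := by
                have h6 : g = y⁻¹ * (y * g) := by group
                rw [h6]
                exact mul_mem (mul_mem (inv_mem hy) h3)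
                  (inv_mem (Subgroup.subset_closure ⟨_, rfl⟩))
              exact ⟨(g * (b (Fin.last m))⁻¹)⁻¹, inv_mem h5,
                by rw [inv_mul_cancel]; exact PL.nil _⟩
        obtain ⟨y, hy, hp⟩ := key h1
        have h4 := (hE _).1 hp
        have h5 : y * h ∈ Subgroup.closure (Set.range b) :=
          Subgroup.closure_mono (by rintro _ ⟨i, rfl⟩; exact ⟨i.castSucc, rfl⟩) h4
        have h6 : h = y⁻¹ * (y * h) := by group
        rw [h6]
        exact mul_mem (inv_mem hy) h5
      · intro h1
        have h2 : Subgroup.closure (Set.range b) ≤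
            loopG (lf E ∪ {(v0, b (Fin.last m), v0)}) v0 := by
          rw [Subgroup.closure_le]
          rintro _ ⟨i, rfl⟩
          refine Fin.lastCases ?_ (fun j => ?_) i
          · exact PL.edge (Or.inr rfl)
          · exact PL.mono (Set.subset_union_left) ((hE _).2 (Subgroup.subset_closure ⟨j, rfl⟩))
        exact h2 h1

end Pool.Agent.WN
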