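import Pool.Agent.helper99.WN.Asm1

/-!
# MP_5c1f29_al, assembly, part 2: a run with distinct states gives a smaller graph
-/

set_option autoImplicit false

open Classical

namespace Pool.Agent.WN

open Pool.Agent.NE

/-- outcome of the descent step: a smaller graph for a tuple conjugate to `b` modulo the kernel -/
def AOut {k : ℕ} (W : ℤ → Lt k) (N n S : ℕ) (b : Fin k → Fr k) (marked : Prop) : Prop :=
  ∃ (V' : Type) (_ : Fintype V') (E' : Gr V' k) (v0' : V') (b' : Fin k → Fr k) (g : Fr k),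
    Fintype.card V' + E'.card < S ∧ IsLoop E' v0' b' ∧
    (∀ i, (g⁻¹ * b i * g)⁻¹ * b' i ∈ Kn (wd W 0 N) n) ∧
    (marked → ∃ i g', b' i = g' * wd W 0 N * g'⁻¹)

theorem alpha (hHR : HR_stmt) (hCN : CN_stmt) (hCT : CT_stmt) (hSB : SB_stmt) (hPT : PT_stmt)
    (hCP : CP_stmt) (hIN : IN_stmt) (hRB : RB_stmt) (hRC : RC_stmt)
    {V : Type} [Fintype V] {k : ℕ} {E : Gr V k} {W : ℤ → Lt k} {N n : ℕ} {r : ℤ → ℤ} {v0 : V}
    {b : Fin k → Fr k} {s : ℤ} {z : ℤ → V} {marked : Prop} (hk : 1 ≤ k) (hn : 12 * k ≤ n)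
    (hW : Wd W N) (hr : Stk W N r) (hI : Imm E) (hC : Conn E) (hd : ∀ v, 2 ≤ deg E v)
    (hb : IsLoop E v0 b) (hz : Run (Rl E) W s (s + ((n : ℤ) - 3) * N) z)
    (hz' : ∀ t t', s ≤ t → t < t' → t' ≤ s + ((n : ℤ) - 3) * N → (N : ℤ) ∣ t' - t → z t ≠ z t')
    (hm : marked → 2 ≤ k ∧ ∃ i g, b i = g * wd W 0 N * g⁻¹) :
    AOut W N n (Fintype.card V + E.card) b marked := by
  have hN : 0 < N := hW.pos
  have hn12 : 12 ≤ n := by omega
  -- the length of the run
  obtain ⟨M, hM⟩ : ∃ M : ℕ, M + 3 * N = n * N := by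
    refine ⟨(n - 3) * N, ?_⟩
    obtain ⟨p, rfl⟩ : ∃ p, n = p + 3 := ⟨n - 3, by omega⟩
    rw [Nat.add_sub_cancel, add_mul]
  have hMz : ((n : ℤ) - 3) * N = M := by
    have : (M : ℤ) + 3 * N = n * N := by exact_mod_cast hM
    linarith
  rw [hMz] at hz hz'
  have h12 : 12 * k * N ≤ n * N := Nat.mul_le_mul_right N hn
  have hkN : N ≤ k * N := Nat.le_mul_of_pos_left N hk
  -- the rank
  have hrk := hHR V k k E v0 b hI hC hb
  have hends : ∀ t, s ≤ t → t < s + M → (s ≤ al W t ∧ al W t ≤ s + M) ∧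
      (s ≤ be W t ∧ be W t ≤ s + M) := by
    intro t h1 h2
    rcases al_be_cases (W := W) t with ⟨h3, h4⟩ | ⟨h3, h4⟩ <;> rw [h3, h4] <;> omega
  have hcn := hCN V k E ((Finset.Ico s (s + M)).image (ed W z)) ((Finset.Icc s (s + M)).image z) hC
    (by
      intro d hd'
      obtain ⟨t, ht, rfl⟩ := Finset.mem_image.1 hd'
      rw [Finset.mem_Ico] at ht
      exact ed_mem (hz t ht.1 ht.2))
    ⟨z s, Finset.mem_image.2 ⟨s, Finset.mem_Icc.2 ⟨le_refl _, by omega⟩, rfl⟩⟩
    (by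
      intro d hd'
      obtain ⟨t, ht, rfl⟩ := Finset.mem_image.1 hd'
      rw [Finset.mem_Ico] at ht
      obtain ⟨h1, h2⟩ := hends t ht.1 ht.2
      rw [ed_al, ed_be]
      exact ⟨Finset.mem_image_of_mem _ (Finset.mem_Icc.2 h1),
        Finset.mem_image_of_mem _ (Finset.mem_Icc.2 h2)⟩)
  have hct := hCT V k E W N r s (s + M) z k hW hr hI hz hz' (by omega)
  -- the protected set
  obtain ⟨C, hCE, hCP', hCc, hCm⟩ : ∃ C : Gr V k, C ⊆ E ∧ Prot E C ∧
      (11 * (k : ℤ) * N + C.card < (s + M - s) + 3 * N) ∧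
      (marked → ∃ i g' y u' c, PL (lf E) v0 y g' ∧ b i = g' * u' * g'⁻¹ ∧
        (∀ d, d ∉ C → PL (lf (E.erase d)) y y u') ∧ u' = c * wd W 0 N * c⁻¹) := by
    by_cases hmk : marked
    · obtain ⟨hk2, i, g, hig⟩ := hm hmk
      have h1 : PL (lf E) v0 v0 (g * wd W 0 N * g⁻¹) := by
        rw [← hig]; exact (hb _).2 (Subgroup.subset_closure ⟨i, rfl⟩)
      obtain ⟨z1, g', i1, h2, h3, h4, h5⟩ := hCP V k E W N v0 g hW hI h1
      obtain ⟨h6, h7, h8, h9⟩ := hPT V k E W N z1 hW hI h2 h3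
      refine ⟨_, h6, h7, ?_, fun _ => ?_⟩
      · have h10 : 2 * N ≤ k * N := Nat.mul_le_mul_right N hk2
        have h11 : 11 * k * N + ((Finset.Ico (0 : ℤ) N).image (ed W z1)).card < M + 3 * N := by
          rw [hM]
          have h12' : 12 * k * N = 11 * k * N + k * N := by ring
          omega
        have h12'' : ((11 * k * N + ((Finset.Ico (0 : ℤ) N).image (ed W z1)).card : ℕ) : ℤ) <
            ((M + 3 * N : ℕ) : ℤ) := by exact_mod_cast h11
        push_cast at h12''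
        linarith
      · obtain ⟨c, hc⟩ := hW.wd_conj i1 0
        refine ⟨i, g', z1 i1, wd W i1 N, c, h4, by rw [hig, h5], ?_, hc⟩
        intro d hdC
        have h10 : Run (Rl (E.erase d)) W i1 (i1 + N) z1 := by
          intro t _ _
          rw [← ed_mem_iff, Finset.mem_erase]
          exact ⟨fun h => hdC (h ▸ h9 t), ed_mem (h2 t)⟩
        have h11 := run_pl h10 (le_refl i1) N (le_refl _)
        rwa [h3 i1] at h11
    · refine ⟨∅, Finset.empty_subset _, ?_, ?_, fun h => absurd h hmk⟩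
      · intro v _ e he
        simp at he
      · have h11 : 11 * k * N < M + 3 * N := by
          rw [hM]
          have h12' : 12 * k * N = 11 * k * N + k * N := by ring
          omega
        have h12'' : ((11 * k * N : ℕ) : ℤ) < ((M + 3 * N : ℕ) : ℤ) := by exact_mod_cast h11
        push_cast at h12''
        rw [Finset.card_empty]
        push_cast
        linarith
  -- the long arc
  obtain ⟨t0, ht0, ht0', hSg, hin⟩ := hSB V k E C W N s (s + M) z k hW hI hd hrk hz (by omega)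
    hCE hCP' hct hCc
  have hq : ((3 * N : ℕ) : ℤ) = 3 * (N : ℤ) := by push_cast; ring
  have hSeg : Seg E W s (s + M) z t0 (3 * N) :=
    { pos := by omega
      run := hz
      hs := ht0
      he := by rw [hq]; exact ht0'
      single := by
        intro t h1 h2 t' h3 h4 h5
        rw [hq] at h2
        exact (hSg t h1 h2).2.2.1 t' h3 h4 h5
      inner := by
        intro t h1 h2
        rw [hq] at h2
        exact hin t h1 h2 }
  obtain ⟨hi1, hi2, hi3, hi4⟩ := hIN V k E W s (s + M) z t0 (3 * N) hSeg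
  have hII : ∀ t', s ≤ t' → t' ≤ s + M → ¬ (t0 < t' ∧ t' ≤ t0 + (3 * N : ℕ)) →
      z t' ∉ II z t0 (3 * N) := by
    intro t' h1 h2 h3 h4
    obtain ⟨t, ht, hzt⟩ := Finset.mem_image.1 h4
    rw [Finset.mem_Ioc] at ht
    have h5 := hi4 t t' ht.1 ht.2 h1 h2 hzt.symm
    subst h5
    exact h3 ht
  have hzs : z s ∉ II z t0 (3 * N) := hII s (le_refl _) (by omega) (by omega)
  have hze : z (s + M) ∉ II z t0 (3 * N) := hII (s + M) (by omega) (le_refl _) (by
    rw [hq]; omega)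
  -- change of the base point
  obtain ⟨g0, hg0⟩ := hC v0 (z s)
  have hb1 := hb.base hg0
  have hto : (s + (M : ℤ) - s).toNat = M := by omega
  have hker : wd W s (s + (M : ℤ) - s).toNat * wd W (s + M) (3 * N) ∈ Kn (wd W 0 N) n := by
    rw [hto, ← wd_add, hM]
    exact wd_mem_Kn hW s n
  obtain ⟨b', hb1', hb2', hb3'⟩ := hRB V k k E W n s (s + M) z t0 (3 * N) (wd W (s + M) (3 * N))
    (wd W 0 N) (fun i => g0⁻¹ * b i * g0) hI hSeg hker hb1
  have hLne : (List.range (3 * N)).map (fun t : ℕ => W (s + M + (t : ℤ))) ≠ [] := by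
    intro h
    have h1 := congrArg List.length h
    simp at h1
    omega
  obtain ⟨V', hV', E', v0', hc', hl'⟩ := hRC V k (E1 E W z t0 (3 * N)) (z (s + M)) (z s) (z s)
    ((List.range (3 * N)).map (fun t : ℕ => W (s + M + (t : ℤ)))) (II z t0 (3 * N)) hi3 hze hzs hzs
    hLne
  refine ⟨V', hV', E', v0', b', g0, ?_, ?_, ?_, ?_⟩
  · rw [List.length_map, List.length_range, hi1] at hc'
    omega
  · intro h
    rw [hl']
    exact hb2' h
  · exact hb1'
  · intro hmk
    obtain ⟨i, g', y, u', c, h1, h2, h3, h4⟩ := hCm hmk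
    have h5 : ed W z t0 ∉ C := (hSg t0 (le_refl _) (by omega)).2.2.2
    obtain ⟨g'', h6⟩ := hb3' i y (g0⁻¹ * g') u' (h3 _ h5) (hg0.symm.trans h1) (by
      show g0⁻¹ * b i * g0 = _
      rw [h2]; group)
    refine ⟨i, g'' * c, ?_⟩
    rw [h6, h4]
    group

end Pool.Agent.WN
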