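import Pool.Agent.helper99.WN.Asm2

/-!
# MP_5c1f29_al, assembly, part 3: the descent
-/

set_option autoImplicit false

open Classical

namespace Pool.Agent.WN

open Pool.Agent.NE

/-- outcome of the descent step: a smaller graph for a tuple which generates modulo the kernel and
has an entry conjugate to `w` -/
def BOut {k : ℕ} (W : ℤ → Lt k) (N n S : ℕ) : Prop :=
  ∃ (V' : Type) (_ : Fintype V') (E' : Gr V' k) (v0' : V') (c : Fin k → Fr k),
    Fintype.card V' + E'.card < S ∧ IsLoop E' v0' c ∧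
    (∃ i g', c i = g' * wd W 0 N * g'⁻¹) ∧ Gen (wd W 0 N) n c

theorem beta (hHR : HR_stmt) (hBE : BE_stmt) (hBB : BB_stmt) (hBC : BC_stmt) (hGR : GR_stmt)
    (hDG : DG_stmt) {V : Type} [Fintype V] {k : ℕ} {E : Gr V k} {W : ℤ → Lt k} {N n m : ℕ}
    {r : ℤ → ℤ} {v0 : V} {b : Fin k → Fr k} {Z : ℤ → V} (hn : 2 ≤ n)
    (hW : Wd W N) (hr : Stk W N r) (hI : Imm E) (hC : Conn E)
    (hb : IsLoop E v0 b) (hg : Gen (wd W 0 N) n b) (hm : 2 ≤ m) (hZ : Cyc (Rl E) W N m Z) :
    BOut W N n (Fintype.card V + E.card) := by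
  have hrk := hHR V k k E v0 b hI hC hb
  rcases hBE V k E W N m r Z hW hr hm hZ with ⟨t0, ht0⟩ | hlt
  · obtain ⟨V', hV', E', v0', c, h1, h2, h3, h4⟩ := hBB V k E W N m Z t0 v0 hW hC hrk hm hZ ht0
    exact ⟨V', hV', E', v0', c, h1, h2, h3, hg.mono (fun x hx => h4 x ((hb x).2 hx))⟩
  · exfalso
    obtain ⟨V', hV', f, hf, hcard⟩ := hBC V k E W N Z hW (fun t => ed_mem (hZ.1 t)) hlt
    set E'' : Finset (V' × Fr k × V') := E.image fun d => (f d.1, FreeGroup.of d.2.1, f d.2.2)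
      with hE''
    have hc1 : E''.card ≤ (E.image fun d => (f d.1, d.2.1, f d.2.2)).card := by
      have h1 : E'' = (E.image fun d => (f d.1, d.2.1, f d.2.2)).image
          (fun d => (d.1, FreeGroup.of d.2.1, d.2.2)) := by
        rw [Finset.image_image]
        rfl
      rw [h1]
      exact Finset.card_image_le
    have hmap : ∀ {a b' : V} {x : Fr k}, PL (lf E) a b' x →
        PL (E'' : Set (V' × Fr k × V')) (f a) (f b') x := by
      intro a b' x hx
      refine PL.map f ?_ hx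
      rintro a1 x1 b1 ⟨e, he, heq⟩
      rw [Prod.mk.injEq, Prod.mk.injEq] at heq
      obtain ⟨rfl, rfl, rfl⟩ := heq
      exact PL.edge (Finset.mem_coe.2 (Finset.mem_image.2 ⟨e, he, rfl⟩))
    obtain ⟨m', r', hm', hr'⟩ := hGR V' (Fr k) E'' (f v0) (by
      intro a' b'
      obtain ⟨a, rfl⟩ := hf a'
      obtain ⟨b1, rfl⟩ := hf b'
      obtain ⟨g, hg'⟩ := hC a b1
      exact ⟨g, hmap hg'⟩)
    have hgen : Gen (wd W 0 N) n r' :=
      hg.mono (fun x hx => (hr' x).1 (hmap ((hb x).2 hx)))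
    have hkm := hDG k m' _ n r' hn hgen
    omega

/-- the rows used below -/
structure Rows : Prop where
  SK : SK_stmt
  HR : HR_stmt
  GR : GR_stmt
  CN : CN_stmt
  MN : MN_stmt
  CF : CF_stmt
  DI : DI_stmt
  CT : CT_stmt
  SB : SB_stmt
  PT : PT_stmt
  CP : CP_stmt
  IN : IN_stmt
  RB : RB_stmt
  RC : RC_stmt
  BE : BE_stmt
  BC : BC_stmt
  BB : BB_stmt
  DG : DG_stmt
  O1 : O1_stmt

variable (H : Rows)

include H

theorem step {V : Type} [Fintype V] {k : ℕ} {E : Gr V k} {W : ℤ → Lt k} {N n : ℕ} {v0 : V}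
    {b : Fin k → Fr k} {marked : Prop} (hk : 1 ≤ k) (hn : 12 * k ≤ n)
    (hW : Wd W N) (hI : Imm E) (hC : Conn E) (hd : ∀ v, 2 ≤ deg E v) (hV : Fintype.card V ≠ 1)
    (hb : IsLoop E v0 b) (hg : Gen (wd W 0 N) n b)
    (hm : marked → 2 ≤ k ∧ ∃ i g, b i = g * wd W 0 N * g⁻¹) :
    AOut W N n (Fintype.card V + E.card) b marked ∨ BOut W N n (Fintype.card V + E.card) := by
  obtain ⟨r, hr⟩ := H.SK k W N hW
  have hcl : ¬ Cl (Rl E) W N n := by
    intro hcl
    have h1 := H.CF V k E W N n v0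
      { wd := hW, seven := by omega, det := hI, sym := rl_sym, cl := hcl }
      (by
        intro g
        obtain ⟨h, hh, hgh⟩ := hg g
        exact ⟨h, (hb h).2 hh, hgh⟩)
    apply hV
    rw [Fintype.card_eq_one_iff]
    refine ⟨v0, fun v => ?_⟩
    obtain ⟨g, hg'⟩ := hC v0 v
    exact h1 v g hg'
  unfold Cl at hcl
  push Not at hcl
  obtain ⟨s, z, hz, hnc⟩ := hcl
  rcases H.DI V k (Rl E) W N n hW hI rl_sym s z hz hnc with h1 | ⟨m, Z, hm2, hZ⟩
  · exact Or.inl (alpha H.HR H.CN H.CT H.SB H.PT H.CP H.IN H.RB H.RC hk hn hW hr hI hC hd hb hz h1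
      hm)
  · exact Or.inr (beta H.HR H.BE H.BB H.BC H.GR H.DG (by omega) hW hr hI hC hb hg hm2 hZ)

/-- a tuple which generates modulo the kernel and has an entry conjugate to `w` can be replaced by
one which generates the free group -/
theorem prim {k : ℕ} {W : ℤ → Lt k} {N n : ℕ} (hk : 2 ≤ k) (hn : 12 * k ≤ n) (hW : Wd W N) :
    ∀ (S : ℕ) (V : Type) [Fintype V] (E : Gr V k) (v0 : V) (c : Fin k → Fr k),
      Fintype.card V + E.card < S → IsLoop E v0 c → (∃ i g', c i = g' * wd W 0 N * g'⁻¹) →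
      Gen (wd W 0 N) n c →
      ∃ c' : Fin k → Fr k, Subgroup.closure (Set.range c') = ⊤ ∧
        ∃ i g', c' i = g' * wd W 0 N * g'⁻¹ := by
  intro S
  induction S with
  | zero => intro V _ E v0 c h; omega
  | succ S ih =>
    intro V _ E v0 c hS hl hc hg
    obtain ⟨V1, hV1, E1', v1, g, h1, h2, h3, h4, h5⟩ := H.MN V k E v0
    have hl1 := hl.conj h5
    have hg1 := hg.conj g
    have hc1 : ∃ i g', (fun i => g⁻¹ * c i * g) i = g' * wd W 0 N * g'⁻¹ := by
      obtain ⟨i, g', hi⟩ := hc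
      refine ⟨i, g⁻¹ * g', ?_⟩
      show g⁻¹ * c i * g = _
      rw [hi]; group
    by_cases hV : Fintype.card V1 = 1
    · exact ⟨_, H.O1 V1 k k n _ E1' v1 _ hV (by omega) hl1 hg1, hc1⟩
    · have hd : ∀ v, 2 ≤ deg E1' v := by
        rcases h4 with h4 | h4
        · exact absurd h4 hV
        · exact h4
      rcases step H (marked := True) (by omega) hn hW h2 h3 hd hV hl1 hg1
        (fun _ => ⟨hk, hc1⟩) with
        ⟨V2, hV2, E2, v2, b2, g2, h6, h7, h8, h9⟩ | ⟨V2, hV2, E2, v2, c2, h6, h7, h8, h9⟩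
      · exact ih V2 E2 v2 b2 (by omega) h7 (h9 trivial) (hg1.congr g2 h8)
      · exact ih V2 E2 v2 c2 (by omega) h7 h8 h9

/-- a tuple which generates modulo the kernel is, up to conjugation and the kernel, a tuple which
generates the free group; or some tuple as in `prim` exists -/
theorem main {k : ℕ} {W : ℤ → Lt k} {N n : ℕ} (hk : 2 ≤ k) (hn : 12 * k ≤ n) (hW : Wd W N) :
    ∀ (S : ℕ) (V : Type) [Fintype V] (E : Gr V k) (v0 : V) (b : Fin k → Fr k),
      Fintype.card V + E.card < S → IsLoop E v0 b → Gen (wd W 0 N) n b →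
      (∃ (b' : Fin k → Fr k) (g : Fr k), Subgroup.closure (Set.range b') = ⊤ ∧
        ∀ i, (g⁻¹ * b i * g)⁻¹ * b' i ∈ Kn (wd W 0 N) n) ∨
      ∃ c' : Fin k → Fr k, Subgroup.closure (Set.range c') = ⊤ ∧
        ∃ i g', c' i = g' * wd W 0 N * g'⁻¹ := by
  intro S
  induction S with
  | zero => intro V _ E v0 c h; omega
  | succ S ih =>
    intro V _ E v0 b hS hl hg
    obtain ⟨V1, hV1, E1', v1, g, h1, h2, h3, h4, h5⟩ := H.MN V k E v0
    have hl1 := hl.conj h5
    have hg1 := hg.conj g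
    by_cases hV : Fintype.card V1 = 1
    · exact Or.inl ⟨_, g, H.O1 V1 k k n _ E1' v1 _ hV (by omega) hl1 hg1,
        fun i => by rw [inv_mul_cancel]; exact one_mem _⟩
    · have hd : ∀ v, 2 ≤ deg E1' v := by
        rcases h4 with h4 | h4
        · exact absurd h4 hV
        · exact h4
      rcases step H (marked := False) (by omega) hn hW h2 h3 hd hV hl1 hg1
        (fun h => absurd h not_false) with
        ⟨V2, hV2, E2, v2, b2, g2, h6, h7, h8, h9⟩ | ⟨V2, hV2, E2, v2, c2, h6, h7, h8, h9⟩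
      · rcases ih V2 E2 v2 b2 (by omega) h7 (hg1.congr g2 h8) with ⟨b', g3, h10, h11⟩ | h10
        · refine Or.inl ⟨b', g * g2 * g3, h10, fun i => ?_⟩
          have e1 := mk_eq_iff_Kn.2 (h8 i)
          have e2 := mk_eq_iff_Kn.2 (h11 i)
          apply mk_eq_iff_Kn.1
          rw [← e2]
          simp only [map_mul, map_inv] at e1 ⊢
          rw [← e1]
          group
        · exact Or.inr h10
      · exact Or.inr (prim H hk hn hW _ V2 E2 v2 c2 (Nat.lt_succ_self _) h7 h8 h9)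

end Pool.Agent.WN
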