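import Pool.Agent.helper99.WN.Asm3

/-!
# MP_5c1f29_al, assembly, part 4: the theorem from the rows
-/

set_option autoImplicit false

open Classical

namespace Pool.Agent.WN

open Pool.Agent.NE

theorem step_map {G G' : Type} [Group G] [Group G'] (π : G →* G') {k : ℕ} {t t' : Fin k → G}
    (h : Step t t') : Step (fun i => π (t i)) (fun i => π (t' i)) := by
  cases h with
  | perm σ => exact Step.perm (fun i => π (t i)) σ
  | inv i =>
    have h1 : (fun j => π (Function.update t i (t i)⁻¹ j)) =
        Function.update (fun j => π (t j)) i (π (t i))⁻¹ := by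
      funext j
      by_cases hj : j = i
      · subst hj; simp
      · simp [Function.update_of_ne hj]
    rw [h1]
    exact Step.inv (fun i => π (t i)) i
  | mul i j hij =>
    have h1 : (fun l => π (Function.update t i (t i * t j) l)) =
        Function.update (fun j => π (t j)) i (π (t i) * π (t j)) := by
      funext l
      by_cases hl : l = i
      · subst hl; simp
      · simp [Function.update_of_ne hl]
    rw [h1]
    exact Step.mul (fun i => π (t i)) i j hij

theorem nielsen_map {G G' : Type} [Group G] [Group G'] (π : G →* G') {k : ℕ} {t t' : Fin k → G}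
    (h : NielsenEquiv t t') : NielsenEquiv (fun i => π (t i)) (fun i => π (t' i)) := by
  induction h with
  | refl => exact NielsenEquiv.refl _
  | tail _ hs ih => exact ih.trans (NielsenEquiv.of_step (step_map π hs))

section

variable {k : ℕ} {w : Fr k} {n : ℕ}

theorem Kn_conj (w c : Fr k) (n : ℕ) : Kn (c * w * c⁻¹) n = Kn w n := by
  apply le_antisymm
  · apply Subgroup.normalClosure_le_normal
    rintro _ rfl
    show (c * w * c⁻¹) ^ n ∈ Kn w n
    rw [conj_pow]
    exact conj_mem_Kn c pow_mem_Kn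
  · apply Subgroup.normalClosure_le_normal
    rintro _ rfl
    show w ^ n ∈ Kn (c * w * c⁻¹) n
    have h1 : w ^ n = c⁻¹ * (c * w * c⁻¹) ^ n * c := by rw [conj_pow]; group
    rw [h1]
    exact conj_mem_Kn' c pow_mem_Kn

theorem Gen.conj_word {m : ℕ} {b : Fin m → Fr k} {c : Fr k} (h : Gen (c * w * c⁻¹) n b) :
    Gen w n b := by
  intro g
  obtain ⟨y, hy, hg⟩ := h g
  exact ⟨y, hy, by rwa [Kn_conj] at hg⟩

theorem gen_iff' {m : ℕ} (b : Fin m → Fr k) :
    Gen w n b ↔ Generates (G := PresentedGroup ({w ^ n} : Set (FreeGroup (Fin k))))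
      (fun i => PresentedGroup.mk _ (b i)) := gen_iff b

theorem mk_eq {g h : Fr k} (hgh : g⁻¹ * h ∈ Kn w n) :
    (PresentedGroup.mk ({w ^ n} : Set (FreeGroup (Fin k))) g) = PresentedGroup.mk _ h :=
  QuotientGroup.eq.2 hgh

/-- generating tuples have at least `k` entries -/
theorem le_of_generates (hDG : DG_stmt) (hn : 2 ≤ n) {m : ℕ}
    {h : Fin m → PresentedGroup ({w ^ n} : Set (FreeGroup (Fin k)))} (hh : Generates h) :
    k ≤ m := by
  choose b hb using fun i => PresentedGroup.mk_surjective _ (h i)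
  apply hDG k m w n b hn
  rw [gen_iff']
  have h1 : (fun i => PresentedGroup.mk _ (b i)) = h := funext hb
  rw [h1]; exact hh

theorem isMinGen_of (hDG : DG_stmt) (hn : 2 ≤ n) :
    IsMinGen (fun i : Fin k => (PresentedGroup.of i : PresentedGroup ({w ^ n} : Set _))) :=
  ⟨PresentedGroup.closure_range_of _, fun _ _ hh => le_of_generates hDG hn hh⟩

end

/-- **The theorem from the rows.** -/
theorem final (H : Rows) (hWA : WA_stmt) (hN1 : N1_stmt) (hAU : AU_stmt) (hK1 : K1_stmt)
    (hCV : CV_stmt) {k : ℕ} (hk : 0 < k) (w : FreeGroup (Fin k))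
    (hw : ∀ (v : FreeGroup (Fin k)) (m : ℕ), 2 ≤ m → w ≠ v ^ m) (n : ℕ) (hn : 12 * k ≤ n) :
    IsMinGen (fun i : Fin k =>
      (PresentedGroup.of i : PresentedGroup ({w ^ n} : Set (FreeGroup (Fin k))))) ∧
    (PropertyN (PresentedGroup ({w ^ n} : Set (FreeGroup (Fin k)))) ↔
      ¬ ∃ (φ : FreeGroup (Fin k) ≃* FreeGroup (Fin k)) (i : Fin k), φ (FreeGroup.of i) = w) := by
  refine ⟨isMinGen_of H.DG (by omega), fun hN hp => hCV k w n (by omega) hp hN, fun hnp => ?_⟩
  have hk2 : 2 ≤ k := by
    by_contra hk2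
    have : k = 1 := by omega
    subst this
    exact hnp (hK1 w hw)
  obtain ⟨N, W, c, hW, hwc⟩ := hWA k w hw
  -- every generating `k`-tuple is equivalent to the standard one
  have key : ∀ u : Fin k → PresentedGroup ({w ^ n} : Set (FreeGroup (Fin k))), Generates u →
      NielsenEquiv u (fun i => PresentedGroup.of i) := by
    intro u hu
    choose b hb using fun i => PresentedGroup.mk_surjective _ (u i)
    have hbu : (fun i => PresentedGroup.mk _ (b i)) = u := funext hb
    have hg : Gen w n b := by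
      rw [gen_iff', hbu]; exact hu
    have hg' : Gen (wd W 0 N) n b := by
      rw [hwc] at hg
      exact hg.conj_word
    obtain ⟨V, hV, E, v0, hl⟩ := exists_isLoop H.RC k b
    rcases main H hk2 hn hW _ V E v0 b (Nat.lt_succ_self _) hl hg' with
      ⟨b', g, h1, h2⟩ | ⟨c', h1, i, g', h2⟩
    · have h3 : Subgroup.closure (Set.range fun i => (g⁻¹)⁻¹ * b' i * g⁻¹) = ⊤ :=
        closure_conj_top b' g⁻¹ h1
      have h4 := nielsen_map (PresentedGroup.mk ({w ^ n} : Set (FreeGroup (Fin k)))) (hN1 k _ h3)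
      have h5 : (fun i => PresentedGroup.mk ({w ^ n} : Set (FreeGroup (Fin k)))
          ((g⁻¹)⁻¹ * b' i * g⁻¹)) = u := by
        rw [← hbu]
        funext i
        symm
        apply mk_eq
        have h6 := conj_mem_Kn g (h2 i)
        rw [← Kn_conj (wd W 0 N) c n, ← hwc] at h6
        have h7 : (b i)⁻¹ * ((g⁻¹)⁻¹ * b' i * g⁻¹) =
            g * ((g⁻¹ * b i * g)⁻¹ * b' i) * g⁻¹ := by group
        rw [h7]; exact h6
      rw [h5] at h4
      exact h4
    · exfalso
      apply hnp
      have h3 := closure_conj_top c' (c * g'⁻¹)⁻¹ h1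
      obtain ⟨φ, hφ⟩ := hAU k _ (hN1 k _ h3)
      refine ⟨φ, i, ?_⟩
      rw [hφ i, h2, hwc]
      group
  intro m u u' hu hu'
  have hm : m = k := le_antisymm (hu.2 k _ (isMinGen_of H.DG (by omega)).1)
    (le_of_generates H.DG (by omega) hu.1)
  subst hm
  exact (key u hu.1).trans (key u' hu'.1).symm

end Pool.Agent.WN
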