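import Pool.Agent.helper43.NE.Basic

/-!
# MP_5c1f29_al, rows wn:* : definitions

The groups are `G = ⟨x_1, ..., x_k | w ^ n⟩` with `w` not a proper power in the free group `Fr k`.
Graphs are finite sets of labelled edges; subgroups of the free group are groups of labels of
closed paths.
-/

set_option autoImplicit false

open Classical

namespace Pool.Agent.WN

/-! ## Words -/

/-- signed letters -/
abbrev Lt (k : ℕ) : Type := Fin k × Bool

/-- inverse letter -/
def iv {k : ℕ} (a : Lt k) : Lt k := (a.1, !a.2)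

/-- the free group of rank `k` -/
abbrev Fr (k : ℕ) : Type := FreeGroup (Fin k)

/-- a letter as a group element -/
def lt {k : ℕ} (a : Lt k) : Fr k := FreeGroup.mk [a]

/-- the element `W(i) W(i+1) ... W(i+n-1)` -/
def wd {k : ℕ} (W : ℤ → Lt k) (i : ℤ) (n : ℕ) : Fr k :=
  FreeGroup.mk ((List.range n).map fun t : ℕ => W (i + (t : ℤ)))

/-- `W` is the bi-infinite periodic word of a cyclically reduced word of length `N` which is not a
proper power: period `N`, reduced, two equal (or inverse) subwords of length `N` only at places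
which agree modulo `N` (resp. never). -/
structure Wd {k : ℕ} (W : ℤ → Lt k) (N : ℕ) : Prop where
  pos : 0 < N
  per : ∀ i : ℤ, W (i + N) = W i
  red : ∀ i : ℤ, W (i + 1) ≠ iv (W i)
  pa : ∀ i j : ℤ, (∀ t : ℕ, t < N → W (i + t) = W (j + t)) → (N : ℤ) ∣ i - j
  pb : ∀ i j : ℤ, ¬ ∀ t : ℕ, t < N → W (i + t) = iv (W (j - t))

/-- a stacking: an order of the phases compatible with the letters -/
structure Stk {k : ℕ} (W : ℤ → Lt k) (N : ℕ) (r : ℤ → ℤ) : Prop where
  per : ∀ i : ℤ, r (i + N) = r i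
  inj : ∀ i j : ℤ, r i = r j → (N : ℤ) ∣ i - j
  same : ∀ i j : ℤ, W i = W j → (r i < r j ↔ r (i + 1) < r (j + 1))
  opp : ∀ i j : ℤ, W i = iv (W j) → (r i < r (j + 1) ↔ r (i + 1) < r j)

/-- the kernel of `Fr k → ⟨x_1, ..., x_k | w ^ n⟩` -/
def Kn {k : ℕ} (w : Fr k) (n : ℕ) : Subgroup (Fr k) := Subgroup.normalClosure {w ^ n}

/-- the tuple `b` generates `Fr k` modulo `Kn w n` -/
def Gen {k m : ℕ} (w : Fr k) (n : ℕ) (b : Fin m → Fr k) : Prop :=
  ∀ g : Fr k, ∃ h ∈ Subgroup.closure (Set.range b), g⁻¹ * h ∈ Kn w n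

/-! ## Labels of paths -/

/-- `PL S a b g`: there is a path from `a` to `b` with label `g` in the graph with the set `S` of
labelled edges `(initial vertex, label, terminal vertex)`, the labels being elements of the group
`K`; edges may be traversed backwards, with the inverse label. -/
inductive PL {V K : Type} [Group K] (S : Set (V × K × V)) : V → V → K → Prop
  | nil (a : V) : PL S a a 1
  | fwd {a b c : V} {g x : K} : PL S a b g → (b, x, c) ∈ S → PL S a c (g * x)
  | bwd {a b c : V} {g x : K} : PL S a b g → (c, x, b) ∈ S → PL S a c (g * x⁻¹)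

/-- finite graph on `V` with edges labelled by generators -/
abbrev Gr (V : Type) (k : ℕ) : Type := Finset (V × Fin k × V)

/-- the graph with labels in the free group -/
def lf {V : Type} {k : ℕ} (E : Gr V k) : Set (V × Fr k × V) :=
  {p | ∃ e ∈ E, p = (e.1, FreeGroup.of e.2.1, e.2.2)}

/-- the graph with pairs of labels: the letter and a second label `c e` in a group `K` -/
def lfc {V K : Type} {k : ℕ} (E : Gr V k) (c : V × Fin k × V → K) : Set (V × (Fr k × K) × V) :=
  {p | ∃ e ∈ E, p = (e.1, (FreeGroup.of e.2.1, c e), e.2.2)}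

/-- the step relation of a graph: `Rl E v a v'` if reading the signed letter `a` leads from `v` to
`v'` along an edge -/
def Rl {V : Type} {k : ℕ} (E : Gr V k) (v : V) (a : Lt k) (v' : V) : Prop :=
  if a.2 = true then (v, a.1, v') ∈ E else (v', a.1, v) ∈ E

/-- deterministic step relation -/
def Det {V : Type} {k : ℕ} (R : V → Lt k → V → Prop) : Prop :=
  ∀ v a v1 v2, R v a v1 → R v a v2 → v1 = v2

/-- symmetric step relation -/
def Sym {V : Type} {k : ℕ} (R : V → Lt k → V → Prop) : Prop :=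
  ∀ v a v', R v a v' → R v' (iv a) v

/-- reading a word -/
def Rd {V : Type} {k : ℕ} (R : V → Lt k → V → Prop) : V → List (Lt k) → V → Prop
  | v, [], v' => v = v'
  | v, a :: l, v' => ∃ v1, R v a v1 ∧ Rd R v1 l v'

/-- immersed graph -/
def Imm {V : Type} {k : ℕ} (E : Gr V k) : Prop := Det (Rl E)

/-- connected graph -/
def Conn {V : Type} {k : ℕ} (E : Gr V k) : Prop := ∀ a b : V, ∃ g, PL (lf E) a b g

/-- valence (a loop counts twice) -/
noncomputable def deg {V : Type} {k : ℕ} (E : Gr V k) (v : V) : ℕ :=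
  (E.filter fun e => e.1 = v).card + (E.filter fun e => e.2.2 = v).card

/-- the labels of closed paths at `v` form the subgroup generated by the tuple `b` -/
def IsLoop {V : Type} {k m : ℕ} (E : Gr V k) (v : V) (b : Fin m → Fr k) : Prop :=
  ∀ h : Fr k, PL (lf E) v v h ↔ h ∈ Subgroup.closure (Set.range b)

/-! ## Runs: paths labelled by pieces of the periodic word; the time is the phase -/

/-- `z` reads the letters `W(t)`, `s ≤ t < e` -/
def Run {V : Type} {k : ℕ} (R : V → Lt k → V → Prop) (W : ℤ → Lt k) (s e : ℤ) (z : ℤ → V) : Prop :=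
  ∀ t : ℤ, s ≤ t → t < e → R (z t) (W t) (z (t + 1))

/-- the vertex `v` with phase `s` lies on a closed reading of `n * N` letters -/
def ClAt {V : Type} {k : ℕ} (R : V → Lt k → V → Prop) (W : ℤ → Lt k) (N n : ℕ) (s : ℤ) (v : V) :
    Prop :=
  ∃ z : ℤ → V, Run R W s (s + (n : ℤ) * N) z ∧ z s = v ∧ z (s + (n : ℤ) * N) = v

/-- every run of length `(n - 3) N` is closed -/
def Cl {V : Type} {k : ℕ} (R : V → Lt k → V → Prop) (W : ℤ → Lt k) (N n : ℕ) : Prop :=
  ∀ (s : ℤ) (z : ℤ → V), Run R W s (s + ((n : ℤ) - 3) * N) z → ClAt R W N n s (z s)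

/-- `z` is a closed reading of `m N` letters, the states (vertex, phase modulo `N`) on it are
pairwise distinct -/
def Cyc {V : Type} {k : ℕ} (R : V → Lt k → V → Prop) (W : ℤ → Lt k) (N m : ℕ) (z : ℤ → V) : Prop :=
  (∀ t : ℤ, R (z t) (W t) (z (t + 1))) ∧
    ∀ s t : ℤ, ((N : ℤ) ∣ t - s ∧ z s = z t) ↔ ((m : ℤ) * N) ∣ t - s

/-- the edge used at time `t` -/
def ed {V : Type} {k : ℕ} (W : ℤ → Lt k) (z : ℤ → V) (t : ℤ) : V × Fin k × V :=
  if (W t).2 = true then (z t, (W t).1, z (t + 1)) else (z (t + 1), (W t).1, z t)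

/-- the time at which the step `t` is at the initial vertex of its edge -/
def al {k : ℕ} (W : ℤ → Lt k) (t : ℤ) : ℤ := if (W t).2 = true then t else t + 1

/-- the time at which the step `t` is at the terminal vertex of its edge -/
def be {k : ℕ} (W : ℤ → Lt k) (t : ℤ) : ℤ := if (W t).2 = true then t + 1 else t

/-- time `t` of the run `z` on `[s, e)` uses an edge which is used only once and is not in `C` -/
def Sg {V : Type} {k : ℕ} (W : ℤ → Lt k) (s e : ℤ) (z : ℤ → V) (C : Gr V k) (t : ℤ) : Prop :=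
  s ≤ t ∧ t < e ∧ (∀ t', s ≤ t' → t' < e → ed W z t' = ed W z t → t' = t) ∧ ed W z t ∉ C

/-- the edges of the set `C` are used completely by closed paths: at a vertex of valence 2 either
both edge ends or none belong to `C` -/
def Prot {V : Type} {k : ℕ} (E C : Gr V k) : Prop :=
  ∀ v, deg E v = 2 → ∀ e ∈ C, (e.1 = v ∨ e.2.2 = v) → ∀ e' ∈ E, (e'.1 = v ∨ e'.2.2 = v) → e' ∈ C

/-! ## The completion -/

section completion

variable {V : Type} {k : ℕ}

/-- the letter `a` cannot be read at `v` -/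
def Ms (R : V → Lt k → V → Prop) (v : V) (a : Lt k) : Prop := ∀ v', ¬ R v a v'

/-- a maximal open arc of length `l` from `y` to `v`, the phase at `v` is `i` -/
def Arc (R : V → Lt k → V → Prop) (W : ℤ → Lt k) (v : V) (i : ℤ) (y : V) (l : ℕ) : Prop :=
  Ms R v (W i) ∧ Ms R y (iv (W (i - l - 1))) ∧
    ∃ z : ℤ → V, z (i - l) = y ∧ z i = v ∧ Run R W (i - l) i z

/-- `W(i+m-1), ..., W(i+1), W(i)`: the word read forwards from phase `i`, last letter first -/
def fw (W : ℤ → Lt k) (i : ℤ) : ℕ → List (Lt k)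
  | 0 => []
  | m + 1 => W (i + (m : ℤ)) :: fw W i m

/-- the word read backwards from phase `j`, last letter first -/
def bw (W : ℤ → Lt k) (j : ℤ) : ℕ → List (Lt k)
  | 0 => []
  | m + 1 => iv (W (j - 1 - (m : ℤ))) :: bw W j m

/-- allowed words at `v` (stored last letter first) -/
def Al (R : V → Lt k → V → Prop) (W : ℤ → Lt k) (N n : ℕ) (v : V) (u : List (Lt k)) : Prop :=
  u.IsChain (fun a b => a ≠ iv b) ∧ (∃ a, u.getLast? = some a ∧ Ms R v a) ∧
    (u.length ≤ N ∨ ∃ i m y l, Arc R W v i y l ∧ u = fw W i m ∧ m + l + N + 1 ≤ n * N)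

/-- the step relation of the one step completion, on `V × List (Lt k)` -/
inductive Rp (R : V → Lt k → V → Prop) (W : ℤ → Lt k) (N n : ℕ) :
    V × List (Lt k) → Lt k → V × List (Lt k) → Prop
  | base {v : V} {a : Lt k} {v' : V} : R v a v' → Rp R W N n (v, []) a (v', [])
  | down {v : V} {a : Lt k} {u : List (Lt k)} : Al R W N n v (a :: u) →
      Rp R W N n (v, u) a (v, a :: u)
  | up {v : V} {a : Lt k} {u : List (Lt k)} : Al R W N n v (a :: u) →
      Rp R W N n (v, a :: u) (iv a) (v, u)
  | cf {v : V} {i : ℤ} {y : V} {l m : ℕ} : Arc R W v i y l → m + l + N + 1 = n * N →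
      Rp R W N n (v, fw W i m) (W (i + (m : ℤ))) (y, bw W (i - l) N)
  | cb {v : V} {i : ℤ} {y : V} {l m : ℕ} : Arc R W v i y l → m + l + N + 1 = n * N →
      Rp R W N n (y, bw W (i - l) N) (iv (W (i + (m : ℤ)))) (v, fw W i m)

end completion

end Pool.Agent.WN
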