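import Pool.Agent.helper99.WN.Basic

/-!
# MP_5c1f29_al, rows wn:*, blocks A (words and orders), B (graphs), C (completion)

THEOREM T. `k ≥ 1`, `w` in the free group `F = Fr k` not a proper power, `n ≥ 12 k`,
`G = ⟨x_1, ..., x_k | w ^ n⟩`. Then `(x_1, ..., x_k)` is a minimal generating tuple of `G`, and `G`
has property (N) iff `w` is not primitive.

Plan. A generating tuple of `G` lifts to a tuple `b` in `F`; the subgroup `H = ⟨b⟩` is the group of
labels of closed paths of a finite graph; take `b` (up to conjugation in `G`) with the smallest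
graph. If the graph has one vertex then `H = F` and `b` is Nielsen equivalent to the basis (block E).
Otherwise, since `H` maps onto `G`, the completion (block C) gives a run of length `(n - 3) N`
labelled by a piece of `w ^ ∞`. Either its states are distinct, then the stacking (bi-order of `F`,
block A) shows that most of its edges are used once and the graph can be made smaller (block D), or
it runs round a cycle of degree `m ≥ 2`, then (block D) the stacking shows that `G` has fewer than
`k` generators or that some edge is used once by the cycle, and then `G` is generated by a tuple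
whose first entry is conjugate to `w`; the same argument for such tuples shows that `w` is primitive.

Row X: theorem X : X_stmt, in namespace Pool.Agent.WN, file Pool/Agent/<seat>/WN/X.lean, importing
this file. A row may assume the rows named after 'uses': then write
theorem X (h1 : Y_stmt) ... : X_stmt.
All easy facts are in Basic.lean (PL.trans, PL.symm, PL.mor, PL.map, PL.lift, PL.hom, wd_add, ...).
-/

set_option autoImplicit false

open Classical

namespace Pool.Agent.WN

/-! ## Block A: words and orders -/

/-- WP (no other rows). Only the minimality of the period is used.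
Proof. `pa`: suppose `W(i+t) = W(j+t)` for `0 ≤ t < N`; by periodicity (every integer is congruent
to one of `i, ..., i+N-1`) it holds for all integers `t`, so `D = i - j` is a period:
`W(s + D) = W(s)` for all `s`. The set of periods is a subgroup of `ℤ` containing `N`, hence
generated by its least positive element `d`, and `d ∣ N`, `d ∣ D`. By hypothesis not `d < N`, so
`d = N` and `N ∣ D`. `pb`: suppose `W(i+t) = iv (W(j-t))` for `0 ≤ t < N`, then by periodicity for
all integers `t`, so with `c = i + j`: `W(s) = iv (W(c - s))` for all `s`. If `c = 2 s`, then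
`W(s) = iv (W s)`, impossible (`iv_ne`). If `c = 2 s + 1`: `W(s + 1) = iv (W(c - s - 1)) =
iv (W s)`, against the reducedness. -/
def WP_stmt : Prop :=
  ∀ (k : ℕ) (W : ℤ → Lt k) (N : ℕ), 0 < N → (∀ i : ℤ, W (i + N) = W i) →
    (∀ i : ℤ, W (i + 1) ≠ iv (W i)) →
    (∀ d : ℕ, 0 < d → d ∣ N → d < N → ¬ ∀ i : ℤ, W (i + d) = W i) → Wd W N

/-- WA (uses WP). Every element which is not a proper power is conjugate to the word of one period.
Proof. `w ≠ 1` because `1 = 1 ^ 2`. Let `L = reduceCyclically w.toWord` (Mathlib,
GroupTheory/FreeGroup/CyclicallyReduced): it is cyclically reduced and `w = c * mk L * c⁻¹`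
(`conj_conjugator_reduceCyclically`), so `L ≠ []` because `w ≠ 1`. Put `N = L.length` and
`W(i) = L[(i mod N)]`. Then `wd W 0 N = mk L`, `W(i + N) = W(i)` and `W(i+1) ≠ iv (W i)` since `L` is
cyclically reduced (for `i mod N = N - 1` this is the condition on the last and the first letter; if
`N = 1` it says `a ≠ iv a`). If `0 < d < N`, `d ∣ N` and `W(i + d) = W i` for all `i`, then `L` is the
`N / d`-fold repetition of its first `d` letters, so `mk L = v ^ (N / d)`, `w = (c v c⁻¹) ^ (N/d)`
with `N / d ≥ 2`, a contradiction. Apply WP. -/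
def WA_stmt : Prop :=
  ∀ (k : ℕ) (w : Fr k), (∀ (v : Fr k) (m : ℕ), 2 ≤ m → w ≠ v ^ m) →
    ∃ (N : ℕ) (W : ℤ → Lt k) (c : Fr k), Wd W N ∧ w = c * wd W 0 N * c⁻¹

/-- left multiplication by the letter `x` in the ring of noncommuting power series with `x² = 0`,
on coefficients -/
def SL {k : ℕ} (x : Fin k) (f : List (Fin k) → ℤ) : List (Fin k) → ℤ
  | [] => 0
  | y :: u => if y = x ∧ u.head? ≠ some x then f u else 0

/-- right multiplication by the letter `x` -/
def SR {k : ℕ} (x : Fin k) (f : List (Fin k) → ℤ) (u : List (Fin k)) : ℤ :=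
  if u.getLast? = some x ∧ u.dropLast.getLast? ≠ some x then f u.dropLast else 0

/-- MG (no other rows). Magnus' faithful power series, in the quotient by `x² = 0`.
Proof. Let `A` be the additive group of functions `List (Fin k) → ℤ`. `SL x` is additive and
`SL x (SL x f) = 0`, so `f ↦ f + SL x f` is a bijection of `A` with inverse `f ↦ f - SL x f`; let
`ρ : Fr k →* Equiv.Perm A` (or `A ≃+ A`) be the homomorphism sending `of x` to it. The same for
`SR x`; `SL x (SR y f) = SR y (SL x f)` (on words of length `≥ 2` both read `f` of the word without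
its ends, on a word `[x, y]` both need `x ≠ y`, on shorter words both are `0`), hence `f ↦ f + SR x f`
commutes with all `ρ g`. Put `μ g = ρ g δ`, `δ` the indicator of `[]`. The first formula is clear.
`SL x δ = SR x δ` (indicator of `[x]`), so `μ (g * of x) = ρ g (δ + SR x δ) = ρ g δ + SR x (ρ g δ)`.
Injectivity: if `μ g = μ h` then `ρ (h⁻¹ g) δ = δ`; so it suffices that `ρ g δ ≠ δ` for `g ≠ 1`. Let
`l` be a reduced list of signed letters and let `sy l` be the list of the generators in `l` with
adjacent repetitions removed. Claim, by induction on `l ≠ []`, with `sy l = x :: s` and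
`f = ρ (mk l) δ`: (i) `f u ≠ 0` only if `u` is a sublist of `sy l`; (ii) `f s = P` and
`f (x :: s) = e P` with integers `P ≠ 0` and `e`, `e > 0` if the first letter of `l` is `(x, true)`
and `e < 0` if it is `(x, false)`. Step: `l = (x, b) :: l'`, `f = f' ± SL x f'`. If
`sy l' = x :: s` (so `l'` begins with `(x, b)` because `l` is reduced) then `sy l = sy l'`,
`f s = f' s = P`, `f (x :: s) = (e ± 1) P`, and (i): if `SL x f' u ≠ 0` then `u = x :: u'` with `u'` a
sublist of `x :: s` not beginning with `x`, so `u'` is a sublist of `s`. If `sy l'` does not begin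
with `x` then `sy l = x :: sy l'`, `f (sy l') = f' (sy l') =: P ≠ 0` and `f (sy l) = ± P`. By (ii)
`f (sy l) ≠ 0` and `sy l ≠ []`, so `f ≠ δ`. -/
def MG_stmt : Prop :=
  ∀ k : ℕ, ∃ μ : Fr k → List (Fin k) → ℤ, Function.Injective μ ∧
    (∀ g x u, μ (FreeGroup.of x * g) u = μ g u + SL x (μ g) u) ∧
    (∀ g x u, μ (g * FreeGroup.of x) u = μ g u + SR x (μ g) u)

/-- BO (uses MG). Free groups are bi-orderable.
Proof. Order the words `u` by length and then lexicographically (any linear well-order in which
shorter words come first; for instance through an injection `List (Fin k) → ℕ`, such as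
`List.Shortlex` which is well-founded, or compare `(length, Encodable.encode)`). Put `a < b` if at the
first word `u` with `μ a u ≠ μ b u` we have `μ a u < μ b u`. By injectivity of `μ` this is a strict
linear order. If `d = μ b - μ a` has its first nonzero value at `u` then for `v ≤ u`,
`SL x d v = 0 = SR x d v`, since these values are `0` or values of `d` at a shorter word than `v`.
So `a < b` implies `x a < x b` and `a x < b x` for generators `x`; as the order is linear, these are
equivalences, hence also true for `x⁻¹`, and then for all group elements (`FreeGroup.induction_on`).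
-/
def BO_stmt : Prop :=
  ∀ k : ℕ, ∃ o : LinearOrder (Fr k), ∀ a b c : Fr k,
    o.lt a b → o.lt (c * a) (c * b) ∧ o.lt (a * c) (b * c)

/-- SK (uses BO). Stackings exist.
Proof. Let `ω(i) = wd W i N`. The list of its letters is reduced (`Wd.red`), so `ω(i) = ω(j)` implies
equality of the lists, `N ∣ i - j` by `pa`; and `ω(i + N) = ω(i)`. By `Wd.wd_shift`
`ω(i+1) = lt(W i)⁻¹ ω(i) lt(W i)`. Put `r i = #{j ∈ [0, N) : ω(j) < ω(i)}`; then `r i < r j` iff
`ω(i) < ω(j)` (if `ω(i) < ω(j)` the set for `i` is strictly contained in the set for `j`, which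
contains the residue of `i`). `same`: if `W i = W j = a` then conjugation by `lt a` maps
`ω(i), ω(j)` to `ω(i+1), ω(j+1)` and preserves the order. `opp`: if `W i = iv (W j)`, `a = W i`, then
`ω(j+1) = lt(W j)⁻¹ ω(j) lt(W j) = lt a ω(j) (lt a)⁻¹`, so conjugation by `lt a` maps
`ω(i), ω(j+1)` to `ω(i+1), ω(j)`. -/
def SK_stmt : Prop := ∀ (k : ℕ) (W : ℤ → Lt k) (N : ℕ), Wd W N → ∃ r : ℤ → ℤ, Stk W N r

/-! ## Block B: graphs -/

/-- RR (no other rows). Reading the reduced word.
Proof. First claim: if `Rd R v l v'` and `l` reduces in one step to `l'` (delete `a, iv a`) then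
`Rd R v l' v'` (by `Sym` and `Det` reading `a` and then `iv a` returns); so it holds for
`FreeGroup.Red`, in particular for `(mk l).toWord = reduce l`. Second: by induction on `PL` there is
a list `l` with `mk l = h` and `Rd (Rl E) a l b` (append `(x, true)` or `(x, false)`); use the first
claim and `rl_sym`. -/
def RR_stmt : Prop :=
  (∀ (V : Type) (k : ℕ) (R : V → Lt k → V → Prop), Det R → Sym R →
    ∀ (l : List (Lt k)) (v v' : V), Rd R v l v' → Rd R v (FreeGroup.mk l).toWord v') ∧
  (∀ (V : Type) (k : ℕ) (E : Gr V k), Imm E → ∀ (a b : V) (h : Fr k),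
    PL (lf E) a b h → Rd (Rl E) a h.toWord b)

/-- FU (no other rows). In an immersed finite graph the second label is a function of the first.
Proof. For each generator `x` the edges with label `x` define a partial injection of the finite set
`V`; extend it to a permutation `σ x` of `V` (`Equiv.extendSubtype` or
`Finset.exists_equiv_extend_of_card_eq`), and choose `c' : V → Fin k → K` with `c' a x = c e` if
`e = (a, x, b) ∈ E` and `c' a x = 1` otherwise. Let `F` act on `V × K` from the right: a homomorphism
`Φ` from `Fr k` to `(Equiv.Perm (V × K))ᵐᵒᵖ` with `of x` acting by `(a, κ) ↦ (σ x a, κ * c' a x)`. By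
induction on `PL (lfc E c) a b (h, g)`: acting by `h` on `(a, κ)` gives `(b, κ g)` for all `κ`.
For `h = 1`: `(a, κ) = (b, κ g)`. -/
def FU_stmt : Prop :=
  ∀ (V : Type) [Finite V] (k : ℕ) (K : Type) [Group K] (E : Gr V k) (c : V × Fin k × V → K),
    Imm E → ∀ (a b : V) (g : K), PL (lfc E c) a b (1, g) → a = b ∧ g = 1

/-- HR (uses FU). The rank of an immersed connected graph is at most the number of generators.
Proof. Take `K = Multiplicative (V × Fin k × V → ℚ)` (or finitely supported functions) and
`c e = ` the unit vector at `e`. Let `Z` be the set of all `ζ` for which there is `h` with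
`PL (lfc E c) v0 v0 (h, ζ)`. (1) For each `i` there is `ζ_i` with `PL .. (b i, ζ_i)` (`PL.lift` with
the first projection). If `PL .. (h, ζ)` then `h ∈ closure (range b)`, so there is `ζ'` in the span
of the `ζ_i` with `PL .. (h, ζ')` (closure induction), and `ζ = ζ'` by FU applied to
`(1, ζ⁻¹ ζ')`. So the span of `Z` has dimension at most `m`. (2) For every `v` choose a path from
`v0` to `v` and let `p_v` be its second label, in additive notation. For every edge `e = (a, x, b)`
the vector `p_a + 1_e - p_b` is in `Z`. If `z : E → ℚ` satisfies `∂ z = 0`, where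
`∂ z (v) = Σ_{e : e.1 = v} z_e - Σ_{e : e.2.2 = v} z_e`, then
`Σ_e z_e (p_a + 1_e - p_b) = z + Σ_v (∂ z)(v) p_v = z`, so `ker ∂` is contained in the span of `Z`.
The image of `∂ : ℚ^E → ℚ^V` is in the hyperplane of vectors with sum `0`, so
`dim ker ∂ ≥ |E| - (|V| - 1)`. -/
def HR_stmt : Prop :=
  ∀ (V : Type) [Fintype V] (k m : ℕ) (E : Gr V k) (v0 : V) (b : Fin m → Fr k),
    Imm E → Conn E → IsLoop E v0 b → E.card + 1 ≤ Fintype.card V + m

/-- GR (no other rows). The group of labels of closed paths is generated by `|E| - |V| + 1`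
elements. Proof by induction on `|V|`. If `|V| = 1`, it is the closure of the set of labels of the
edges. If `|V| ≥ 2`, there is an edge `(a, x, b) ∈ E` with `a ≠ b` (otherwise no path leaves a
vertex). Contract it: `V' = {v // v ≠ b}`, `f b = a`, `f v = v` otherwise, gauge `γ b = x⁻¹`, `γ v = 1`
otherwise, `E'` = image of `E.erase (a, x, b)` under
`(c, y, d) ↦ (f c, (γ c)⁻¹ * y * γ d, f d)`. By `PL.mor` in both directions,
`PL E c d g ↔ PL E' (f c) (f d) ((γ c)⁻¹ g γ d)` (the edge `(a, x, b)` goes to the trivial label
`x x⁻¹`; back: the vertex `b` is joined to `a` by a path with label `x⁻¹` in `E`). `|V'| = |V| - 1`,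
`|E'| ≤ |E| - 1`. The group at `v0` is the group at `f v0` conjugated by `γ v0`. -/
def GR_stmt : Prop :=
  ∀ (V : Type) [Fintype V] (K : Type) [Group K] (E : Finset (V × K × V)) (v0 : V),
    (∀ a b : V, ∃ g, PL (E : Set (V × K × V)) a b g) →
    ∃ (m : ℕ) (r : Fin m → K), m + Fintype.card V ≤ E.card + 1 ∧
      ∀ h : K, PL (E : Set (V × K × V)) v0 v0 h ↔ h ∈ Subgroup.closure (Set.range r)

/-- CN (no other rows). Proof. Let `d v` be the least length of a path (number of steps) from `v` to
a vertex of `Vp` (define the relation: an edge joins `u` and `v`; `Conn` gives a finite chain). For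
`v ∉ Vp`, `d v ≥ 1` and there is an edge `e_v ∈ E` joining `v` to a vertex `v'` with
`d v' = d v - 1`. `e_v ∉ Ep` since the ends of `Ep` are in `Vp`. `v ↦ e_v` is injective: if
`e_v = e_u`, `u ≠ v`, then the ends are `u` and `v`, and `d u = d v - 1`, `d v = d u - 1`, absurd. So
`|V| - |Vp| ≤ |E| - |Ep|`. (Or: induction on the number of vertices outside `Vp`, adding one adjacent
vertex and one edge.) -/
def CN_stmt : Prop :=
  ∀ (V : Type) [Fintype V] (k : ℕ) (E Ep : Gr V k) (Vp : Finset V), Conn E → Ep ⊆ E →
    Vp.Nonempty → (∀ e ∈ Ep, e.1 ∈ Vp ∧ e.2.2 ∈ Vp) →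
    Ep.card + Fintype.card V ≤ Vp.card + E.card

/-- QU (no other rows). Identification of two vertices `y, y'` joined by a path with label `u`.
Proof. Let `C` be the closure on the right. `⊇`: `PL.map` for closed paths in `S`; and
`g`, then `u` (from `y` to `y'`, a closed path after identification), then `g⁻¹`. `⊆`: Claim A: if
`f v = f v'`, `PL S v0 v a`, `PL S v0 v' a'`, then `a a'⁻¹ ∈ C`. If `v = v'` this is a closed path.
If `v = y`, `v' = y'`: `a u a'⁻¹` is closed, so in `C`, and
`a u a⁻¹ = (a g⁻¹) (g u g⁻¹) (a g⁻¹)⁻¹ ∈ C`, so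
`a a'⁻¹ = (a u a⁻¹)⁻¹ (a u a'⁻¹) ∈ C`; the case `v = y'`, `v' = y` follows by inversion. Claim B, by
induction on `PL S'' (f v0) c h`: for every `v` with `f v = c` there is `a` with `PL S v0 v a`, and
for every such `a`, `h a⁻¹ ∈ C`. Start: `h = 1`, use Claim A with the empty path at `v0` (existence:
`f v = f v0` means `v = v0` or `{v, v0} = {y, y'}`, and then `v` is reached by `g` or `g u`). Step
along `(v1, x, v2) ∈ S`: for `v` with `f v = f v2`, the induction hypothesis gives `a` with
`PL S v0 v1 a`, `h a⁻¹ ∈ C`; `PL S v0 v2 (a x)`; so some path to `v` exists, and for `PL S v0 v a'`,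
`h x a'⁻¹ = (h a⁻¹) ((a x) a'⁻¹) ∈ C` by Claim A. Same backwards. -/
def QU_stmt : Prop :=
  ∀ (V V' K : Type) [Group K] (S : Set (V × K × V)) (f : V → V') (y y' v0 : V) (u g : K),
    (∀ a b, f a = f b → a = b ∨ (a = y ∧ b = y') ∨ (a = y' ∧ b = y)) → f y = f y' →
    PL S y y' u → PL S v0 y g →
    ∀ h : K, PL {p : V' × K × V' | ∃ a x b, (a, x, b) ∈ S ∧ p = (f a, x, f b)} (f v0) (f v0) h ↔
      h ∈ Subgroup.closure ({h : K | PL S v0 v0 h} ∪ {g * u * g⁻¹})

/-- FO (no other rows). Folding. Proof. There are `v, a, v1 ≠ v2` with `Rl E v a v1`, `Rl E v a v2`.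
`V' = {v // v ≠ v2}`, `f v2 = v1`, `f v = v` otherwise, `E' = ` image of `E` under
`(c, x, d) ↦ (f c, x, f d)`; the two edges are different and have the same image, so
`|E'| ≤ |E| - 1` and `|V'| = |V| - 1`. `PL (lf E) c d h → PL (lf E') (f c) (f d) h` by `PL.map`.
Back by `PL.map` with the inclusion `V' → V`: since `PL (lf E) v1 v2 1` (path `v1, v, v2`), every
`c` is joined to `f c` by a path with label `1`, so an edge `(f c, x, f d)` of `E'` gives
`PL (lf E) (f c) (f d) x`. Base point `f v0`. -/
def FO_stmt : Prop :=
  ∀ (V : Type) [Fintype V] (k : ℕ) (E : Gr V k) (v0 : V), ¬ Imm E →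
    ∃ (V' : Type) (_ : Fintype V') (E' : Gr V' k) (v0' : V'),
      Fintype.card V' + E'.card < Fintype.card V + E.card ∧
      ∀ h : Fr k, PL (lf E') v0' v0' h ↔ PL (lf E) v0 v0 h

/-- CM (no other rows). Restriction to the component of `v0`. Proof. `V' = {v // ∃ g, PL (lf E) v0 v g}`,
`E'` = the edges of `E` with both ends in `V'`. If all vertices were reachable from `v0` the graph
would be connected, so `|V'| < |V|`; `|E'| ≤ |E|`. All vertices on a path starting in `V'` are in
`V'`. -/
def CM_stmt : Prop :=
  ∀ (V : Type) [Fintype V] (k : ℕ) (E : Gr V k) (v0 : V), ¬ Conn E →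
    ∃ (V' : Type) (_ : Fintype V') (E' : Gr V' k) (v0' : V'),
      Fintype.card V' + E'.card < Fintype.card V + E.card ∧
      ∀ h : Fr k, PL (lf E') v0' v0' h ↔ PL (lf E) v0 v0 h

/-- PR (no other rows). Pruning a vertex of valence at most one. Proof. Valence `0` is impossible
because `v` is connected to another vertex. So there is exactly one edge end at `v`: one edge `e`, not
a loop, joining `v` to `v1 ≠ v`. `V' = {u // u ≠ v}`, `E'` = `E.erase e` (its ends are in `V'`),
`f v = v1`, `f u = u` otherwise; gauge `γ v` such that the image of `e` is trivial (the label of `e`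
read from `v` to `v1`), `γ u = 1` for `u ≠ v`. `PL.mor` in one
direction, the inclusion in the other. Base point `f v0`, `g = γ v0` or its inverse. -/
def PR_stmt : Prop :=
  ∀ (V : Type) [Fintype V] (k : ℕ) (E : Gr V k) (v0 v : V), 2 ≤ Fintype.card V → Conn E →
    deg E v ≤ 1 →
    ∃ (V' : Type) (_ : Fintype V') (E' : Gr V' k) (v0' : V') (g : Fr k),
      Fintype.card V' + E'.card < Fintype.card V + E.card ∧
      ∀ h : Fr k, PL (lf E') v0' v0' h ↔ PL (lf E) v0 v0 (g * h * g⁻¹)

/-- MN (uses FO, CM, PR). Strong induction on `|V| + |E|`: if one of the conditions fails apply FO,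
CM or PR and the induction hypothesis, and compose the conjugations. (If `|V| ≠ 1` then `|V| ≥ 2`
because `v0` exists.) -/
def MN_stmt : Prop :=
  ∀ (V : Type) [Fintype V] (k : ℕ) (E : Gr V k) (v0 : V),
    ∃ (V' : Type) (_ : Fintype V') (E' : Gr V' k) (v0' : V') (g : Fr k),
      Fintype.card V' + E'.card ≤ Fintype.card V + E.card ∧ Imm E' ∧ Conn E' ∧
      (Fintype.card V' = 1 ∨ ∀ v, 2 ≤ deg E' v) ∧
      ∀ h : Fr k, PL (lf E') v0' v0' h ↔ PL (lf E) v0 v0 (g * h * g⁻¹)

/-! ## Block C: the completion

Standing hypotheses of CA, CB, CC, C1, C2, C3, CD: `Wd W N`, `7 ≤ n`, `Det R`, `Sym R`,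
`Cl R W N n` (every run of length `(n-3) N` is closed). One step of the completion attaches to the
graph, at every missing letter, the reduced words of length at most `N`, and at every maximal open
arc (from `y` to `v`, length `l`, phase `i` at `v`) the word `fw W i m` at `v`, `m = nN - N - 1 - l`,
and an edge from its end to the end of the word `bw W (i - l) N` at `y`, so that the arc becomes part
of a closed reading of `n N` letters. Words are stored last letter first. -/

/-- hypotheses of the completion rows -/
structure Hyp {V : Type} {k : ℕ} (R : V → Lt k → V → Prop) (W : ℤ → Lt k) (N n : ℕ) : Prop where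
  wd : Wd W N
  seven : 7 ≤ n
  det : Det R
  sym : Sym R
  cl : Cl R W N n

/-- CA (no other rows). Maximal arcs.
(1) existence: consider the `l` for which there is a run of length `l` on `[i - l, i]` ending at
`v` (`l = 0` works). If `l = (n-3) N` worked then its start would be closed (`Cl`), the closed
reading `z'` of `n N` letters agrees with the run on `[i - l, i]` (`Det`), so `z' i = v` and
`R v (W i) (z' (i+1))`, contradiction. So there is a largest `l`, and `l < (n-3) N`; by maximality and
`Sym` its start `y` cannot read `iv (W (i - l - 1))`.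
(2) `l < (n-3) N` for every arc: otherwise the restriction to `[i-(n-3)N, i]` gives the same
contradiction. (3) two arcs ending at `v` with `N ∣ i - i'`: the letters agree by periodicity, so by
`Sym` and `Det` the vertices agree backwards from `v` for `min l l'` steps; if `l < l'` then `y` could
read `iv (W (i - l - 1))` (`Sym`), contradiction; so `l = l'`, `y = y'`. (4) the same forwards from the
common start. -/
def CA_stmt : Prop :=
  ∀ (V : Type) (k : ℕ) (R : V → Lt k → V → Prop) (W : ℤ → Lt k) (N n : ℕ), Hyp R W N n →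
    (∀ v i, Ms R v (W i) → ∃ y l, Arc R W v i y l) ∧
    (∀ v i y l, Arc R W v i y l → (l : ℤ) < ((n : ℤ) - 3) * N) ∧
    (∀ v i y l i' y' l', Arc R W v i y l → Arc R W v i' y' l' → (N : ℤ) ∣ i - i' →
      y = y' ∧ l = l') ∧
    (∀ v i y l v' i' l', Arc R W v i y l → Arc R W v' i' y l' → (N : ℤ) ∣ (i - l) - (i' - l') →
      v = v' ∧ l = l')

/-- CB (uses CA). The step relation of the completion is symmetric and deterministic.
Write `J = m` for the length in the constructors `cf`, `cb`; by CA (2) `J = nN - N - 1 - l ≥ 2N`.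
Facts: (F1) `fw W i m = fw W i' m` with `m ≥ N` implies `N ∣ i - i'` (`pa`, the first `N` letters
read). (F2) `bw W j N = bw W j' N` implies `N ∣ j - j'` (`pa` at `j - N`, `j' - N`). (F3)
`fw W i N ≠ bw W j N` (`pb`). (F4) if `Al R W N n v (a :: u)` with `u.length ≥ N` then
`a :: u = fw W i (m+1)` with `Arc R W v i y l`, `(m+1) + l + N + 1 ≤ nN`, so `u = fw W i m`,
`a = W(i+m)`.
Symmetric: the constructors come in pairs (`base` by `Sym R`, `iv_iv`). Deterministic: compare the
steps from `(v, u)` reading `a`. `u = []`: only `base` and `down` are possible (`cf`, `cb` start at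
nonempty words); `down` needs `Ms R v a`, against `base`. `u = b :: u'`: `down`/`up`: the word of
`down` is reduced, `a ≠ iv b`. `cf` (`u = fw W i J`, `a = W(i+J)`) against `up` (`a = iv b`,
`b = W(i+J-1)`): `Wd.red`. `cf` against `down`: F4 gives `u = fw W i' J`, so `N ∣ i - i'` by F1,
`l' = l` by CA (3) and `J + 1 + l + N + 1 ≤ nN`, contradiction to `J + l + N + 1 = nN`. `cf`/`cf`: F1,
CA (3), the ends are the same (`bw` depends on `j` modulo `N` only). `cf`/`cb`: lengths
`J ≥ 2N > N`. `cb` (`u = bw W j N`, `j = i - l`, `b = iv (W (j - N))`, `a = iv (W (i + J))`,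
`i + J ≡ j - N - 1` modulo `N`) against `up` (`a = iv b`): `iv (W (j-N-1)) = W (j - N)` contradicts
`Wd.red`. `cb` against `down`: F4 gives `u = fw W i' N`, F3. `cb`/`cb`: F2, CA (4). -/
def CB_stmt : Prop :=
  ∀ (V : Type) (k : ℕ) (R : V → Lt k → V → Prop) (W : ℤ → Lt k) (N n : ℕ), Hyp R W N n →
    Det (Rp R W N n) ∧ Sym (Rp R W N n)

/-- CY (no other rows). Closedness is invariant along a run. Proof. Let `z'` be the closed reading
at `t1`; extend it periodically with period `n N > 0` to all of `ℤ` (the letters have period `N`):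
`Z (t1 + q) = z' (t1 + (q mod nN))`, a run on all of `ℤ` with `Z t1 = z t1`. By `Det` (forwards) and
`Sym`, `Det` (backwards) `Z = z` on `[s, e]`. For `t ∈ [s, e]` the restriction of `Z` to
`[t, t + nN]` is a closed reading at `z t`. -/
def CY_stmt : Prop :=
  ∀ (V : Type) (k : ℕ) (R : V → Lt k → V → Prop) (W : ℤ → Lt k) (N n : ℕ), Wd W N → 1 ≤ n →
    Det R → Sym R → ∀ (s e : ℤ) (z : ℤ → V), Run R W s e z → ∀ t1, s ≤ t1 → t1 ≤ e →
    ClAt R W N n t1 (z t1) → ∀ t, s ≤ t → t ≤ e → ClAt R W N n t (z t)

/-- CC (uses CA, CB, CY). Proof. First for an arc (`Arc R W v i y l`, `J = nN - N - 1 - l`, which is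
`≥ 2N` by CA (2)) the closed reading in the completion, starting at `(v, [])` with phase `i`: `J` times
`down` through `(v, fw W i q)`, then `cf` to `(y, bw W (i-l) N)`, then `N` times `up` (the letters are
`iv (iv (W (i - l - 1 - q)))`, phase `i + J + 1 + (N-1-q) = i - l - 1 - q + nN`), then the `l` steps of
the arc by `base`: `J + 1 + N + l = nN`. All intermediate words are allowed: the words
`fw W i q` with `q ≤ J` by the second alternative of `Al` (reduced by `Wd.red`, first letter `W i`
missing at `v`), the words `bw W (i-l) q`, `q ≤ N`, by the first alternative. This gives the second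
statement for `m = 0`, and by CY (for `Rp`, using CB) the second statement. First statement, for
`(v, [])` and phase `j`: if there is a run of length `(n-3) N` in `R` from `v`, phase `j`, then `Cl`
gives a closed reading in `R`, push it forward by `base`. If not, take the longest run on `[j, j+q]`
from `v`, let `v1` be its end: `Ms R v1 (W (j+q))`. CA (1) gives an arc ending at `v1` with phase
`j + q`, by the case already treated `(v1, [])` is closed, and by CY along the run pushed forward by
`base` `(v, [])` is closed. -/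
def CC_stmt : Prop :=
  ∀ (V : Type) (k : ℕ) (R : V → Lt k → V → Prop) (W : ℤ → Lt k) (N n : ℕ), Hyp R W N n →
    (∀ v j, ClAt (Rp R W N n) W N n j (v, ([] : List (Lt k)))) ∧
    (∀ v i y l m, Arc R W v i y l → m + l + N + 1 ≤ n * N →
      ClAt (Rp R W N n) W N n (i + m) (v, fw W i m))

/-- C1 (uses CA, CB). A run in the completion which passes a closing edge forwards at time `t` after
at least `N` steps is on the closed reading of the arc.
Proof. Claim, by induction on `q ≤ N`: `z (t - q) = (v, fw W i (m - q))` and (for `q ≥ 1`)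
`W (t - q) = W (i + m - q)`; recall `m ≥ 2N` by CA (2), so `m - q ≥ N`. Step: look at the step at time
`t - q - 1 ≥ s`, which ends at `(v, fw W i (m - q))`, a nonempty word; cases of `Rp`:
`base`: the target word would be empty. `down`: the source is `(v, fw W i (m-q-1))` and the letter is
`W (i + m - q - 1)`, as claimed. `up`: the source is `(v, b :: fw W i (m-q))`, allowed, of length
`> N`, so by F4, F1 of CB and CA (3) it is `fw W i' (m-q+1)` with `N ∣ i - i'`, the same `l`, and
`m - q + 1 + l + N + 1 ≤ nN`, so `q ≥ 1`, and `b = W (i + m - q) = W (t - q)`; the letter read at time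
`t - q - 1` is `iv b`, contradiction to `Wd.red`. `cf`: the target is `(y', bw W j' N)`, so
`fw W i (m-q) = bw W j' N`, `m - q = N`, against F3. `cb`: the target is `(v, fw W i' m')` with
`fw W i' m' = fw W i (m - q)`, `m' = m - q ≥ N`, `N ∣ i - i'`, same `l`, so `m' = m` and `q = 0`; the
letter at time `t - 1` is `iv (W (i' + m')) = iv (W t)`, against `Wd.red'`.
So `W (t - q) = W (i + m - q)` for `q = 1, ..., N`, and `pa` gives `N ∣ (t - N) - (i + m - N)`. -/
def C1_stmt : Prop :=
  ∀ (V : Type) (k : ℕ) (R : V → Lt k → V → Prop) (W : ℤ → Lt k) (N n : ℕ), Hyp R W N n →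
    ∀ (s e : ℤ) (z : ℤ → V × List (Lt k)), Run (Rp R W N n) W s e z →
    ∀ (t : ℤ) (v : V) (i : ℤ) (y : V) (l m : ℕ), s + N ≤ t → t < e → Arc R W v i y l →
    m + l + N + 1 = n * N → z t = (v, fw W i m) → z (t + 1) = (y, bw W (i - l) N) →
    W t = W (i + m) → (N : ℤ) ∣ t - (i + m)

/-- C2 (uses CA, CB). A run in the completion which passes a closing edge backwards at time `t` ends
before time `t + N`. Proof. Claim, by induction on `q < N`: `z (t + 1 + q) = (v, fw W i (m - q))` and
`W (t + q) = iv (W (i + m - q))`. Start `q = 0`: hypothesis. Step: the step at time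
`t + 1 + q < e` (as `q + 1 < N`) starts at `(v, fw W i (m-q))`, nonempty; cases: `base` no. `down`:
by F4, F1 of CB and CA (3) `q ≥ 1` and the letter is `W (i + m - q) = iv (W (t + q))`, against
`Wd.red`. `up`: as claimed, the letter is `iv (W (i + m - q - 1))`. `cf`: the start is
`(v, fw W i' m')`, `m' = m - q ≥ N`, so `N ∣ i - i'`, same `l`, `m' = m`, `q = 0`, the letter is
`W (i + m) = iv (W t)`, against `Wd.red`. `cb`: the start is `(y', bw W j' N) = (v, fw W i (m-q))`,
against F3 (`m - q = N`). So `W (t + q) = iv (W (i + m - q))` for `0 ≤ q < N`, against `pb`. -/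
def C2_stmt : Prop :=
  ∀ (V : Type) (k : ℕ) (R : V → Lt k → V → Prop) (W : ℤ → Lt k) (N n : ℕ), Hyp R W N n →
    ∀ (s e : ℤ) (z : ℤ → V × List (Lt k)), Run (Rp R W N n) W s e z →
    ∀ (t : ℤ) (v : V) (i : ℤ) (y : V) (l m : ℕ), s ≤ t → t + N ≤ e → Arc R W v i y l →
    m + l + N + 1 = n * N → z t = (y, bw W (i - l) N) → z (t + 1) = (v, fw W i m) →
    W t = iv (W (i + m)) → False

/-- C3 (uses CC). A run of `2 N` up and down steps away from the old vertices meets a closed state.
Proof. After a `down` step there is no `up` step: `down` at time `t` with letter `W t` ends at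
`(v, W t :: u)`, an `up` step there reads `iv (W t)`, against `Wd.red`. So for some `c` the steps in
`[s, c)` are `up` and in `[c, s + 2N)` `down`; one of the two has at least `N` steps.
`N` down steps from time `t1`: the word at time `t1 + N` is
`[W(t1+N-1), ..., W(t1)] ++ u`, `u ≠ []`, it is allowed and longer than `N`, so equal to
`fw W i m` with `Arc R W v i y l`, `m + l + N + 1 ≤ nN`, `m > N`; comparing the last `N` letters read,
`W (t1 + q) = W (i + m - N + q)` for `q < N`, so `N ∣ t1 + N - (i + m)` by `pa`; by CC the state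
`(v, fw W i m)` is closed at phase `i + m`, hence at phase `t1 + N` (shift the reading by a multiple of
`N`). `N` up steps from time `t1`: the word at time `t1` is
`[iv (W t1), ..., iv (W (t1+N-1))] ++ u`, `u ≠ []`, allowed (it is the word `a :: u` of an `up` step)
and longer than `N`, so equal to `fw W i m`, and `W (i + m - 1 - q) = iv (W (t1 + q))` for `q < N`,
against `pb`. -/
def C3_stmt : Prop :=
  ∀ (V : Type) (k : ℕ) (R : V → Lt k → V → Prop) (W : ℤ → Lt k) (N n : ℕ), Hyp R W N n →
    ∀ (s : ℤ) (z : ℤ → V × List (Lt k)),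
    (∀ t, s ≤ t → t ≤ s + 2 * N → (z t).2 ≠ []) →
    (∀ t, s ≤ t → t < s + 2 * N →
      (∃ v u, Al R W N n v (W t :: u) ∧ z t = (v, u) ∧ z (t + 1) = (v, W t :: u)) ∨
      (∃ v u, Al R W N n v (iv (W t) :: u) ∧ z t = (v, iv (W t) :: u) ∧ z (t + 1) = (v, u))) →
    ∃ t, s ≤ t ∧ t ≤ s + 2 * N ∧ ClAt (Rp R W N n) W N n t (z t)

/-- CD (uses CA, CB, CY, CC, C1, C2, C3). The completion has property `Cl` again.
Proof. Let `z` be a run of `Rp` on `[s, s + M]`, `M = (n-3) N ≥ 4N`. By CY it suffices to find a closed
state on it. If some `z t` has empty word, CC. Otherwise no step is `base`. If a step at time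
`t ≥ s + N` is `cf` then by C1 `N ∣ t - (i + m)` and `z t = (v, fw W i m)` is closed by CC (shift the
reading by a multiple of `N`). If a step at a time `t ≤ s + M - N` is `cb`, contradiction by C2. So the
steps at times in `[s + N, s + M - N)` are `down` or `up`; there are `M - 2N ≥ 2N` of them; C3. -/
def CD_stmt : Prop :=
  ∀ (V : Type) (k : ℕ) (R : V → Lt k → V → Prop) (W : ℤ → Lt k) (N n : ℕ), Hyp R W N n →
    Cl (Rp R W N n) W N n

/-- CI (uses CB, CD). Iterated completion. Proof by induction on `s`. `s = 0`: take `V' = V`. Step: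
apply the induction hypothesis to `V × List (Lt k)` and `Rp R W N n` (CB, CD), compose with
`v ↦ (v, [])`; it preserves steps by `base`. At `(v, [])` every letter `a` can be read in `Rp`: `base`
if possible, otherwise `down` with the word `[a]` (allowed since its length is `1 ≤ N` and `a` is
missing at `v`). A word `a :: l` with `l.length ≤ s`: read `a`, then `l` by the induction
hypothesis. -/
def CI_stmt : Prop :=
  ∀ (k : ℕ) (W : ℤ → Lt k) (N n : ℕ) (s : ℕ) (V : Type) (R : V → Lt k → V → Prop), Hyp R W N n →
    ∃ (V' : Type) (R' : V' → Lt k → V' → Prop) (ι : V → V'), Hyp R' W N n ∧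
      Function.Injective ι ∧ (∀ v a v', R v a v' → R' (ι v) a (ι v')) ∧
      ∀ (v : V) (l : List (Lt k)), l.length ≤ s → ∃ v', Rd R' (ι v) l v'

/-- KE (uses RR). Elements of the kernel are trivial for readings in graphs with property `Cl`.
Proof. Let `P κ` be the statement after `κ ∈ Kn (wd W 0 N) n →`. `Kn` is the closure of the
conjugates of `w ^ n`; use `Subgroup.closure_induction` (on
`Subgroup.normalClosure = closure (Group.conjugatesOfSet ..)`). `P 1`: `L = []`.
Products: append the lists; inverses: reverse the list and invert the letters (reading it from `z`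
to `z'`, then by `Sym` `L` can be read from `z'` to `z`, so `z = z'`). Conjugates
`c w^n c⁻¹` (`w = wd W 0 N`, `w ^ n = wd W 0 (nN)` by `Wd.wd_mul`): `L = c.toWord ++ (letters
W 0, ..., W (nN - 1)) ++ inverse of c.toWord`. Reading `L` from `z` to `z'`: after `c.toWord` at `p`,
then a run of length `nN ≥ (n-3) N` from `p`, by `Cl` and `Det` it returns to `p`, then the
inverse word leads back to `z` (`Sym`, `Det`). -/
def KE_stmt : Prop :=
  ∀ (k : ℕ) (W : ℤ → Lt k) (N n : ℕ) (κ : Fr k), Wd W N → κ ∈ Kn (wd W 0 N) n →
    ∃ L : List (Lt k), FreeGroup.mk L = κ ∧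
      ∀ (V : Type) (R : V → Lt k → V → Prop), Hyp R W N n → ∀ z z' : V, Rd R z L z' → z' = z

/-- CF (uses RR, CI, KE). A graph with `Cl` whose group of closed paths maps onto `F / Kn` has one
vertex. Proof. Let `PL (lf E) v0 v g`, and let `h` be given for `g`, `κ = g⁻¹ h ∈ Kn`; `L` from KE.
By RR there are readings of `g.toWord` from `v0` to `v` and of `h.toWord` from `v0` to `v0` in
`Rl E`. CI with `s = L.length`: `ι v0` reads `g.toWord` to `ι v` and `h.toWord` to `ι v0`, and `ι v`
reads `L` to some `z'`, which is `ι v` by KE. So `ι v0` reads `g.toWord ++ L` to `ι v`, and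
`mk (g.toWord ++ L) = g κ = h = mk (h.toWord)`. By RR and `rd_det` `ι v = ι v0`, so `v = v0`. -/
def CF_stmt : Prop :=
  ∀ (V : Type) (k : ℕ) (E : Gr V k) (W : ℤ → Lt k) (N n : ℕ) (v0 : V), Hyp (Rl E) W N n →
    (∀ g : Fr k, ∃ h, PL (lf E) v0 v0 h ∧ g⁻¹ * h ∈ Kn (wd W 0 N) n) →
    ∀ v g, PL (lf E) v0 v g → v = v0

end Pool.Agent.WN
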