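import Pool.Agent.helper99.WN.SpecA

/-!
# MP_5c1f29_al, rows wn:*, block D (runs, stacking counts, reduction)

Row X: theorem X : X_stmt, namespace Pool.Agent.WN, file Pool/Agent/<seat>/WN/X.lean. A row may
assume the rows named after 'uses' as hypotheses.
-/

set_option autoImplicit false

open Classical

namespace Pool.Agent.WN

/-- DI (no other rows). A run of length `(n-3) N` which is not closed has distinct states, or there
is a cycle of degree `m ≥ 2`. Proof. Suppose `z t = z t'` with `s ≤ t < t' ≤ s + (n-3)N` and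
`N ∣ d`, `d = t' - t`. By `Sym` and `Det` (and the periodicity of the letters)
`z (t - q) = z (t' - q)` for `0 ≤ q ≤ t - s`, so `z s = z (s + d)`. Put
`Z u = z (s + ((u - s) mod d))`: a run on all of `ℤ` with period `d`. Let `m` be the least positive
integer such that `Z (u + m N) = Z u` for some `u` (`d / N` is such). By `Det`, `Sym`, if
`Z (u + q N) = Z u` for some `u` then for all `u` (the runs `Z` and `Z (· + q N)` read the same
letters and agree at one time), so the set of such `q ∈ ℤ` is the subgroup `m ℤ`: this is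
`Cyc R W N m Z` (if `N ∣ t - s`, `Z s = Z t`, then `(t - s) / N ∈ m ℤ`). If `m = 1` then `Z` restricted
to `[s, s + nN]` shows `ClAt R W N n s (z s)`, a contradiction; so `m ≥ 2`. -/
def DI_stmt : Prop :=
  ∀ (V : Type) (k : ℕ) (R : V → Lt k → V → Prop) (W : ℤ → Lt k) (N n : ℕ), Wd W N → Det R →
    Sym R → ∀ (s : ℤ) (z : ℤ → V), Run R W s (s + ((n : ℤ) - 3) * N) z →
    ¬ ClAt R W N n s (z s) →
    (∀ t t', s ≤ t → t < t' → t' ≤ s + ((n : ℤ) - 3) * N → (N : ℤ) ∣ t' - t → z t ≠ z t') ∨
    ∃ (m : ℕ) (Z : ℤ → V), 2 ≤ m ∧ Cyc R W N m Z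

/-- TT (no other rows). The number of steps which are not top steps.
Proof. If `e < s` everything is empty. A time `t ∈ [s, e]` is not top if there is `t' ∈ [s, e]` with
`z t' = z t` and `r t < r t'`. At every visited vertex exactly one time is top: the values `r t` of the
times at one vertex are distinct, because `r t = r t'` gives `N ∣ t - t'` (`Stk.inj`), against the
distinctness of the states. So the set `Z` of not top times has `(e - s + 1) - |V_p|` elements,
`V_p = image z`. A step `t ∈ [s, e)` is not top if it is in the filter of the statement. For every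
used edge exactly one step is top: the values `r (al t)` of the steps over one edge are distinct
(`Stk.inj` gives `N ∣ al t - al t'`, both times are in `[s, e]` and at the initial vertex of the edge,
so `al t = al t'` by the distinctness of the states; if `t ≠ t'` then `{t, t'} = {τ - 1, τ}` with
`W (τ - 1) = (x, false)`, `W τ = (x, true)`, against `Wd.red`). So the number of not top steps is `(e - s) - |E_p|`, `E_p = image ed`, and
`#Z - #(not top steps) = 1 - |V_p| + |E_p| ≤ κ`. (*)
If `t` is a not top step, with witness `t'`, then `r (al t) < r (al t')` and by `Stk.al_be`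
`r (be t) < r (be t')`, so both times `al t`, `be t`, that is `t` and `t + 1`, are not top. So the
number of not top steps is at most `#{t ∈ Z : t + 1 ∈ Z}`, and by (*) the number `ρ` of `t ∈ Z` with
`t - 1 ∉ Z` (which is `#Z - #{t ∈ Z : t + 1 ∈ Z}`) is at most `κ`. Let `i` be a time with the largest
value `r i` (over all integers; `r` is periodic). No time `≡ i` modulo `N` is in `Z`. So for
`t ∈ Z` the first `t₁ ≤ t` with `[t₁, t] ⊆ Z` satisfies `t - t₁ < N` (in fact `< N - 1`), and
`t₁ - 1 ∉ Z`; hence `#Z ≤ ρ N ≤ κ N`. -/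
def TT_stmt : Prop :=
  ∀ (V : Type) (k : ℕ) (E : Gr V k) (W : ℤ → Lt k) (N : ℕ) (r : ℤ → ℤ) (s e : ℤ) (z : ℤ → V)
    (κ : ℕ), Wd W N → Stk W N r → Imm E → Run (Rl E) W s e z →
    (∀ t t', s ≤ t → t < t' → t' ≤ e → (N : ℤ) ∣ t' - t → z t ≠ z t') →
    ((Finset.Ico s e).image (ed W z)).card + 1 ≤ ((Finset.Icc s e).image z).card + κ →
    ((Finset.Ico s e).filter fun t => ∃ t' ∈ Finset.Ico s e,
      ed W z t' = ed W z t ∧ r (al W t) < r (al W t')).card ≤ κ * N

/-- CT (uses TT). All but `2 κ N` steps use an edge which is used only once. Proof. If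
`ed t' = ed t`, `t' ≠ t`, then `r (al t) ≠ r (al t')` (as in TT), so `t` is in the filter of TT for `r`
or for `- r` (`Stk.neg`). -/
def CT_stmt : Prop :=
  ∀ (V : Type) (k : ℕ) (E : Gr V k) (W : ℤ → Lt k) (N : ℕ) (r : ℤ → ℤ) (s e : ℤ) (z : ℤ → V)
    (κ : ℕ), Wd W N → Stk W N r → Imm E → Run (Rl E) W s e z →
    (∀ t t', s ≤ t → t < t' → t' ≤ e → (N : ℤ) ∣ t' - t → z t ≠ z t') →
    ((Finset.Ico s e).image (ed W z)).card + 1 ≤ ((Finset.Icc s e).image z).card + κ →
    ((Finset.Ico s e).filter fun t => ∃ t' ∈ Finset.Ico s e,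
      t' ≠ t ∧ ed W z t' = ed W z t).card ≤ 2 * κ * N

/-- LA (no other rows). Singly used edges come in arcs which end at vertices of valence `≥ 3` or at
the ends of the run. Proof of the first statement. `t > s` since `z t ≠ z s`. `t - 1 ∈ [s, e)`, so
`ed (t-1) ≠ ed t` because `t` is single; as the valence of `z t` is `2`, the edge ends at `z t` are
exactly one end of `ed (t-1)` and one end of `ed t` (in particular `ed t` is not a loop).
`ed (t-1) ∉ C`, otherwise `Prot` gives `ed t ∈ C`. Let `s ≤ t' < e`, `ed t' = ed (t-1)`,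
`t' ≠ t - 1`. Same direction (`W t' = W (t-1)`): `z (t'+1) = z t`, so `t' + 1 ≠ e`; the step `t' + 1`
leaves `z t` and does not go back over the end by which step `t'` arrived (`W (t'+1) ≠ iv (W t')`, and
`Imm`), so it uses the other edge end: `ed (t'+1) = ed t`, `t' + 1 = t`, a contradiction. Opposite
direction (`W t' = iv (W (t-1))`): `z t' = z t`, so `t' ≠ s`; the step `t' - 1` arrives at `z t` not
over the end by which step `t'` leaves, so `ed (t'-1) = ed t`, `t' = t + 1`, `z (t+1) = z t' = z t`,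
so `ed t` is a loop at `z t`, a contradiction. The second statement is the same with time reversed:
`t + 1 < e` since `z (t+1) ≠ z e`; the edge ends at `z (t+1)` are one end of `ed t` and one end of
`ed (t+1)`. -/
def LA_stmt : Prop :=
  ∀ (V : Type) (k : ℕ) (E C : Gr V k) (W : ℤ → Lt k) (s e : ℤ) (z : ℤ → V),
    (∀ i : ℤ, W (i + 1) ≠ iv (W i)) → Imm E → Run (Rl E) W s e z → C ⊆ E → Prot E C →
    ∀ t, Sg W s e z C t →
    (deg E (z t) = 2 → z t ≠ z s → z t ≠ z e → Sg W s e z C (t - 1)) ∧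
    (deg E (z (t + 1)) = 2 → z (t + 1) ≠ z s → z (t + 1) ≠ z e → Sg W s e z C (t + 1))

/-- SB (uses LA). There is a long arc of singly used edges.
Proof. `S = {t ∈ [s, e) : Sg t}`. By the bound on the not single steps, and since every edge of `C`
is used by at most one single step, `|S| ≥ (e - s) - 2 κ N - |C|`. Let `B` be the set of vertices `v`
with `deg v ≥ 3` or `v = z s` or `v = z e`. `Σ_v (deg v - 2) = 2 |E| - 2 |V| ≤ 2 κ - 2` (all terms are
`≥ 0`), and `deg v ≤ 3 (deg v - 2)` if `deg v ≥ 3`, so `Σ_{v ∈ B} deg v ≤ 3 (2κ - 2) + 2 + 2 = 6 κ - 2`.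
`Lk = {t ∈ S : t + 1 ∈ S, z (t+1) ∉ B}`, `St = {t ∈ S : ¬ (t - 1 ∈ S ∧ z t ∉ B)}` (starts),
`En = S \ Lk` (ends): `|St| = |En| = |S| - |Lk|`. By LA `z t ∈ B` for `t ∈ St` and `z (t+1) ∈ B` for
`t ∈ En`. To `t ∈ St` assign the edge end of `ed t` at `z t`, to `t ∈ En` the edge end of `ed t` at
`z (t+1)`; as the edges `ed t`, `t ∈ S`, are distinct, and the two ends of an edge are distinct as edge
ends, this is an injection of the disjoint union of `St` and `En` into the edge ends at vertices of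
`B`. So `2 |St| ≤ 6 κ - 2`, `|St| ≤ 3 κ - 1`. For `t ∈ S` let `p t ≤ t` be the last start before `t`
(all times from `p t` to `t` are in `S`, and `z (t') ∉ B` for `p t < t' ≤ t`). If always
`t - p t < 3 N` then `|S| ≤ 3 N |St| ≤ 3 N (3 κ - 1)`, so
`(e - s) - 2 κ N - |C| ≤ 9 κ N - 3 N`, against the hypothesis. So `t - p t ≥ 3 N` for some `t`; take
`t0 = p t`; `t0 + 3N ≤ t < e`. -/
def SB_stmt : Prop :=
  ∀ (V : Type) [Fintype V] (k : ℕ) (E C : Gr V k) (W : ℤ → Lt k) (N : ℕ) (s e : ℤ) (z : ℤ → V)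
    (κ : ℕ), Wd W N → Imm E → (∀ v, 2 ≤ deg E v) → E.card + 1 ≤ Fintype.card V + κ →
    Run (Rl E) W s e z → s ≤ e → C ⊆ E → Prot E C →
    ((Finset.Ico s e).filter fun t => ∃ t' ∈ Finset.Ico s e,
      t' ≠ t ∧ ed W z t' = ed W z t).card ≤ 2 * κ * N →
    11 * (κ : ℤ) * N + C.card < (e - s) + 3 * N →
    ∃ t0, s ≤ t0 ∧ t0 + 3 * N < e ∧ (∀ t, t0 ≤ t → t ≤ t0 + 3 * N → Sg W s e z C t) ∧
      ∀ t, t0 < t → t ≤ t0 + 3 * N → deg E (z t) = 2 ∧ z t ≠ z s ∧ z t ≠ z e

/-- PT (no other rows). The edges of a closed reading of the word `w` form a protected set.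
Proof. Let `deg v = 2` and let `e = ed t` be in the set, with an end at `v`, so `v = z t` or
`v = z (t+1)`; replacing `t` by `t + 1` (all times modulo `N` are allowed, since `z` and `W` have
period `N`) let `v = z t`. The edge end by which step `t - 1` arrives at `v` and the edge end by which
step `t` leaves are different, because `W t ≠ iv (W (t-1))` and the graph is immersed; so they are the
two edge ends at `v`, and every edge with an end at `v` is `ed (t-1)` or `ed t`. -/
def PT_stmt : Prop :=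
  ∀ (V : Type) (k : ℕ) (E : Gr V k) (W : ℤ → Lt k) (N : ℕ) (z : ℤ → V), Wd W N → Imm E →
    (∀ t, Rl E (z t) (W t) (z (t + 1))) → (∀ t, z (t + N) = z t) →
    (Finset.Ico (0 : ℤ) N).image (ed W z) ⊆ E ∧ Prot E ((Finset.Ico (0 : ℤ) N).image (ed W z)) ∧
    ((Finset.Ico (0 : ℤ) N).image (ed W z)).card ≤ N ∧
    ∀ t, ed W z t ∈ (Finset.Ico (0 : ℤ) N).image (ed W z)

/-- CP (uses RR). A conjugate of `w` which is the label of a closed path comes from a closed reading
of `w`. Proof. Claim: for every list `g` and every `i` there are `g', i'` with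
`mk g * wd W i N * (mk g)⁻¹ = mk g' * wd W i' N * (mk g')⁻¹` and the list
`g' ++ (letters W i', ..., W (i'+N-1)) ++ inverse of g'` reduced. Induction on the length of `g`, which
may be taken reduced: if the last letter of `g` is `iv (W i)`, `g = g1 ++ [iv (W i)]`, then
`lt (iv (W i)) wd W i N lt (W i) = wd W (i+1) N` (`Wd.wd_shift`); if it is `W (i-1)` (`= W (i+N-1)`)
then `lt (W (i-1)) wd W i N (lt (W (i-1)))⁻¹ = wd W (i-1) N`; in both cases `g1` is shorter.
Otherwise (or `g = []`) the list is reduced. So the element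
`h = g * wd W 0 N * g⁻¹` has reduced word `g' ++ letters ++ inverse of g'`. By RR this word can be
read in `E` from `v` to `v`: `g'` from `v` to `y`, the letters from `y` to `y'`, the inverse of `g'` from
`y'` to `v`; reading backwards, `g'` leads from `v` to `y'`, so `y = y'`. Let `z` be the periodic
extension of the reading from `y` to `y` on `[i', i' + N]`. -/
def CP_stmt : Prop :=
  ∀ (V : Type) (k : ℕ) (E : Gr V k) (W : ℤ → Lt k) (N : ℕ) (v : V) (g : Fr k), Wd W N → Imm E →
    PL (lf E) v v (g * wd W 0 N * g⁻¹) →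
    ∃ (z : ℤ → V) (g' : Fr k) (i : ℤ), (∀ t, Rl E (z t) (W t) (z (t + 1))) ∧
      (∀ t, z (t + N) = z t) ∧ PL (lf E) v (z i) g' ∧
      g * wd W 0 N * g⁻¹ = g' * wd W i N * g'⁻¹

/-- an arc of `q + 1` singly used edges with `q` inner vertices of valence two, on a run -/
structure Seg {V : Type} {k : ℕ} (E : Gr V k) (W : ℤ → Lt k) (s e : ℤ) (z : ℤ → V) (t0 : ℤ)
    (q : ℕ) : Prop where
  pos : 1 ≤ q
  run : Run (Rl E) W s e z
  hs : s ≤ t0
  he : t0 + q < e
  single : ∀ t, t0 ≤ t → t ≤ t0 + q → ∀ t', s ≤ t' → t' < e → ed W z t' = ed W z t → t' = t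
  inner : ∀ t, t0 < t → t ≤ t0 + q → deg E (z t) = 2 ∧ z t ≠ z s ∧ z t ≠ z e

/-- the graph without the edges of the arc -/
noncomputable def E1 {V : Type} {k : ℕ} (E : Gr V k) (W : ℤ → Lt k) (z : ℤ → V) (t0 : ℤ) (q : ℕ) :
    Gr V k := E \ (Finset.Icc t0 (t0 + q)).image (ed W z)

/-- the inner vertices of the arc -/
noncomputable def II {V : Type} (z : ℤ → V) (t0 : ℤ) (q : ℕ) : Finset V :=
  (Finset.Ioc t0 (t0 + q)).image z

/-- IN (no other rows). Proof. The edges `ed t`, `t0 ≤ t ≤ t0 + q`, are distinct by `single`, and in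
`E` by `run`: the count for `E1`. For `t0 < t ≤ t0 + q` the edges `ed (t-1) ≠ ed t` have an end at
`z t`, and the valence is `2`, so these are the only edge ends at `z t`, neither is a loop. Hence no
edge of `E1` has an end at `z t`. If `z t' = z t` for some `t' ∈ [s, e]`, `t' ≠ t`: if `t' < e` then
`ed t'` has an end at `z t`, so `t' ∈ {t - 1, t}` by `single`, `t' = t - 1`, and `ed (t-1)` is a loop,
absurd; `t' = e` is excluded by `inner`. So the `z t` are distinct and different from
`z s, z e, z t0, z (t0 + q + 1)`. -/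
def IN_stmt : Prop :=
  ∀ (V : Type) (k : ℕ) (E : Gr V k) (W : ℤ → Lt k) (s e : ℤ) (z : ℤ → V) (t0 : ℤ) (q : ℕ),
    Seg E W s e z t0 q →
    (II z t0 q).card = q ∧ (E1 E W z t0 q).card + (q + 1) = E.card ∧
    (∀ d ∈ E1 E W z t0 q, d.1 ∉ II z t0 q ∧ d.2.2 ∉ II z t0 q) ∧
    (∀ t t', t0 < t → t ≤ t0 + q → s ≤ t' → t' ≤ e → z t' = z t → t' = t)

/-- the new value of the edge `ed W z t0`, read in the direction of the run -/
noncomputable def X0 {k : ℕ} (W : ℤ → Lt k) (s e t0 : ℤ) (u : Fr k) : Fr k :=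
  (wd W s (t0 - s).toNat)⁻¹ * u⁻¹ * (wd W (t0 + 1) (e - t0 - 1).toNat)⁻¹

/-- the second labels: the letters, except at the edge `ed W z t0` -/
noncomputable def cc {V : Type} {k : ℕ} (W : ℤ → Lt k) (z : ℤ → V) (s e t0 : ℤ) (u : Fr k)
    (d : V × Fin k × V) : Fr k :=
  if d = ed W z t0 then (if (W t0).2 = true then X0 W s e t0 u else (X0 W s e t0 u)⁻¹)
  else FreeGroup.of d.2.1

/-- RA (uses IN). The graph with pairs of labels: the edge `ed t0` may be replaced by an edge `q̂` from
`z e` to `z s` with label `(P⁻¹, u)`, `P = wd W s (e - s)`, and the rest of the arc pruned.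
Notation: `A = wd W s (t0 - s)`, `x = lt (W t0)`, `A' = wd W (t0+1) q`,
`B' = wd W (t0+q+1) (e - t0 - q - 1)`, so `P = A x A' B'` and `X0 = A⁻¹ u⁻¹ (A' B')⁻¹`. `⊇`: the edges of
`E1` are edges of `E`, and in `lfc E cc` the path from `z e` back to `z s` along the run has label
`(P⁻¹, (A' B')⁻¹ X0⁻¹ A⁻¹) = (P⁻¹, u)` (the run passes `ed t0` only at time `t0`, by `single`; all
other second labels are the letters). `⊆`: `PL.mor` with `f (z t) = z (t0 + q + 1)` and gauge
`γ (z t) = (wd W t (t0 + q + 1 - t), same)` for `t0 < t ≤ t0 + q`, and `f v = v`, `γ v = 1` for the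
other vertices (by IN `z t` determines `t`). Edges of `E1`: their ends are outside `II`. The edges
`ed t`, `t0 < t ≤ t0 + q`: the image has trivial label. The edge `ed t0`, in the direction of the run
from `z t0` to `z (t0+1)`: needed is `PL .. (z t0) (z (t0+q+1)) (x A', X0 A')`; the path back along
the run from `z t0` to `z s`, label `(A⁻¹, A⁻¹)`, then `q̂` backwards, `(P, u⁻¹)`, then back along the
run from `z e` to `z (t0+q+1)`, `(B'⁻¹, B'⁻¹)`: product `(A⁻¹ P B'⁻¹, A⁻¹ u⁻¹ B'⁻¹) = (x A', X0 A')`.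
The two pieces of the run at times `< t0` and `> t0 + q` use edges of `E1` by `single`. -/
def RA_stmt : Prop :=
  ∀ (V : Type) (k : ℕ) (E : Gr V k) (W : ℤ → Lt k) (s e : ℤ) (z : ℤ → V) (t0 : ℤ) (q : ℕ)
    (u : Fr k), Seg E W s e z t0 q → ∀ a b : V, a ∉ II z t0 q → b ∉ II z t0 q → ∀ p : Fr k × Fr k,
    PL (lfc E (cc W z s e t0 u)) a b p ↔
    PL (lfc (E1 E W z t0 q) (cc W z s e t0 u) ∪ {(z e, ((wd W s (e - s).toNat)⁻¹, u), z s)}) a b p

/-- RB (uses FU, IN, RA). Replacement of the tuple.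
Proof. Let `S = lfc E cc`. (1) All labels `(x, c)` of `S` satisfy `x⁻¹ c ∈ Kn w n`: for `ed t0` in the
direction of the run, `x = lt (W t0)`, `A x B u ∈ Kn` with `A = wd W s (t0 - s)`,
`B = wd W (t0+1) (e - t0 - 1)`, so modulo the normal subgroup `x ≡ A⁻¹ u⁻¹ B⁻¹ = X0`. So
`PL S a b (h, g)` implies `h⁻¹ g ∈ Kn w n`. (2) For each `i` there is `b' i` with
`PL S (z s) (z s) (b i, b' i)` (`PL.lift` with `MonoidHom.fst`). (3) If `PL S (z s) (z s) (h, g)` then
`h ∈ closure (range b)`, so by closure induction there is `g'' ∈ closure (range b')` with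
`PL S (z s) (z s) (h, g'')`, and by FU, applied to `(1, g⁻¹ g'')`, `g = g''`. Conversely
`g ∈ closure (range b')` has some `h` with `PL S (z s) (z s) (h, g)`. (4) By RA (with `z s ∉ II` from
IN or `Seg.inner`) the same for the graph `S'` of RA, whose second projection is the set of labelled
edges `lf E1 ∪ {(z e, u, z s)}` (`cc d = of d.2.1` for `d ∈ E1`, since `ed t0 ∉ E1`); by `PL.lift`
(`MonoidHom.snd`) and `PL.hom` the group of closed paths of the latter is
`{g : ∃ h, PL S' (z s) (z s) (h, g)}`. (5) Last claim: lift the path from `z s` to `y` to a pair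
`(g, ĝ)`; `(u', u')` is a label of a closed path at `y` in `S` avoiding `ed t0`; so
`PL S (z s) (z s) (b i, ĝ u' ĝ⁻¹)`, and by FU `b' i = ĝ u' ĝ⁻¹`. -/
def RB_stmt : Prop :=
  ∀ (V : Type) [Fintype V] (k m : ℕ) (E : Gr V k) (W : ℤ → Lt k) (n : ℕ) (s e : ℤ) (z : ℤ → V)
    (t0 : ℤ) (q : ℕ) (u w : Fr k) (b : Fin m → Fr k), Imm E → Seg E W s e z t0 q →
    wd W s (e - s).toNat * u ∈ Kn w n → IsLoop E (z s) b →
    ∃ b' : Fin m → Fr k, (∀ i, (b i)⁻¹ * b' i ∈ Kn w n) ∧
      (∀ h, PL (lf (E1 E W z t0 q) ∪ {(z e, u, z s)}) (z s) (z s) h ↔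
        h ∈ Subgroup.closure (Set.range b')) ∧
      ∀ i y g u', PL (lf (E.erase (ed W z t0))) y y u' → PL (lf E) (z s) y g →
        b i = g * u' * g⁻¹ → ∃ g', b' i = g' * u' * g'⁻¹

/-- RC (no other rows). Subdivision of an edge labelled by a word `L`, and removal of isolated
vertices. Proof. `V' = {v // v ∉ I} ⊕ Fin (L.length - 1)`, `E'` = the edges of `E1` together with a
chain of `L.length` edges from `a` to `b` through the new vertices with the letters of `L` (a letter
`(x, false)` gives an edge in the opposite direction). `|V'| = |V| - |I| + L.length - 1`,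
`|E'| ≤ |E1| + L.length`. Labels of paths: `PL.mor` from `E'` to the graph on the right, mapping the
`j`-th new vertex to `a` with gauge the product of the first `j` letters (then all edges of the chain
are trivial except the last, which goes to `(a, mk L, b)`); back by `PL.map`. Vertices in `I` are never
reached from `v0`. -/
def RC_stmt : Prop :=
  ∀ (V : Type) [Fintype V] (k : ℕ) (F1 : Gr V k) (a b v0 : V) (L : List (Lt k)) (I : Finset V),
    (∀ d ∈ F1, d.1 ∉ I ∧ d.2.2 ∉ I) → a ∉ I → b ∉ I → v0 ∉ I → L ≠ [] →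
    ∃ (V' : Type) (_ : Fintype V') (E' : Gr V' k) (v0' : V'),
      Fintype.card V' + E'.card + 1 + I.card ≤ Fintype.card V + F1.card + 2 * L.length ∧
      ∀ h, PL (lf E') v0' v0' h ↔ PL (lf F1 ∪ {(a, FreeGroup.mk L, b)}) v0 v0 h

/-! ## cycles of degree `m ≥ 2` -/

/-- differences of the values at places congruent modulo `N` -/
noncomputable def dif {X : Type} (N : ℕ) (f : ℤ → X) : Submodule ℚ (X → ℚ) :=
  Submodule.span ℚ {v | ∃ a b : ℤ, (N : ℤ) ∣ a - b ∧ v = Pi.single (f a) 1 - Pi.single (f b) 1}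

/-- the part of `dif N z` from places of rank less than `ρ` -/
noncomputable def uu {V : Type} (N : ℕ) (r : ℤ → ℤ) (z : ℤ → V) (ρ : ℤ) : Submodule ℚ (V → ℚ) :=
  Submodule.span ℚ {v | ∃ a b : ℤ, (N : ℤ) ∣ a - b ∧ r a < ρ ∧
    v = Pi.single (z a) 1 - Pi.single (z b) 1}

/-- the part of `dif N (ed W z)` from steps over the letter `x` whose initial ends have rank less
than `ρ` -/
noncomputable def dd {V : Type} {k : ℕ} (W : ℤ → Lt k) (N : ℕ) (r : ℤ → ℤ) (z : ℤ → V) (x : Fin k)
    (ρ : ℤ) : Submodule ℚ (V × Fin k × V → ℚ) :=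
  Submodule.span ℚ {v | ∃ a b : ℤ, (N : ℤ) ∣ a - b ∧ (W a).1 = x ∧ r (al W a) < ρ ∧
    v = Pi.single (ed W z a) 1 - Pi.single (ed W z b) 1}

/-- the jump of `dim uu` at the rank of `i` -/
noncomputable def ka {V : Type} (N : ℕ) (r : ℤ → ℤ) (z : ℤ → V) (i : ℤ) : ℤ :=
  (Module.finrank ℚ (uu N r z (r i + 1)) : ℤ) - Module.finrank ℚ (uu N r z (r i))

/-- the jump of `dim dd` at the rank of the initial end of the step `i` -/
noncomputable def la {V : Type} {k : ℕ} (W : ℤ → Lt k) (N : ℕ) (r : ℤ → ℤ) (z : ℤ → V) (i : ℤ) : ℤ :=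
  (Module.finrank ℚ (dd W N r z (W i).1 (r (al W i) + 1)) : ℤ) -
    Module.finrank ℚ (dd W N r z (W i).1 (r (al W i)))

/-- BK (no other rows). Proof. General fact: `A ≤ A'`, `B ≤ B'` finite dimensional subspaces, `φ`
linear, `φ(A) ≤ B`, `B' ≤ B ⊔ φ(A')`; then `dim B' - dim B ≤ dim A' - dim A` (the induced map
`A'/A → B'/B` is onto, when also `φ(A') ≤ B'`). Take `x = (W i).1`, `A = dd x (r (al i))`,
`A' = dd x (r (al i) + 1)`. First inequality: `φ` = pushforward of functions along `d ↦ d.1`, which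
maps `[ed a] - [ed b]` to `[z (al a)] - [z (al b)]` (`ed_al`; if `N ∣ a - b` then `W a = W b` and
`al a - al b = a - b`), `B = uu (r (al i))`, `B' = uu (r (al i) + 1)`. `B' ≤ B ⊔ φ(A')`: a
generator `[z a] - [z b]` with `r a = r (al i)` has `N ∣ a - al i` (`Stk.inj`), put
`a' = i + (a - al i)`, `b' = a' + (b - a)`: `al a' = a`, `al b' = b`, and
`[z a] - [z b] = φ([ed a'] - [ed b'])`. Second inequality: the same with `d ↦ d.2.2` and `be`; note
that for `(W a).1 = x` `r (al a) < r (al i) ↔ r (be a) < r (be i)` and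
`r (al a) < r (al i) + 1 ↔ r (be a) < r (be i) + 1` by `Stk.al_be`. -/
def BK_stmt : Prop :=
  ∀ (V : Type) [Fintype V] (k : ℕ) (W : ℤ → Lt k) (N : ℕ) (r : ℤ → ℤ) (z : ℤ → V), Wd W N →
    Stk W N r → ∀ i : ℤ, ka N r z (al W i) ≤ la W N r z i ∧ ka N r z (be W i) ≤ la W N r z i

/-- BS (no other rows). Telescoping. Proof. General fact: `X : ℤ → Submodule` with `X ρ = X (ρ+1)`
unless `ρ = g i` for some `i` in a finite set `J`, `g` injective on `J`, `X ρ = 0` for small `ρ`,
`X ρ = X∞` for large `ρ`; then `Σ_{i ∈ J} (dim X (g i + 1) - dim X (g i)) = dim X∞` (telescope over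
`ρ` in a large interval). First formula: `X = uu`, `J = [0, N)`, `g = r` (injective on `J` by
`Stk.inj`, every value of `r` is a value on `J`). Second formula: for each generator `x` apply it to
`X = dd x`, `J = {i ∈ [0, N) : (W i).1 = x}`, `g i = r (al i)` (injective on `J` by `Stk.inj` and
`al_inj`), and sum over `x`: `dif N (ed W z)` is the direct sum over `x` of the subspaces `dd x ∞`,
because vectors of `dd x ∞` are supported on the edges with letter `x`. -/
def BS_stmt : Prop :=
  ∀ (V : Type) [Fintype V] (k : ℕ) (W : ℤ → Lt k) (N : ℕ) (r : ℤ → ℤ) (z : ℤ → V), Wd W N →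
    Stk W N r →
    ∑ i ∈ Finset.range N, ka N r z i = Module.finrank ℚ (dif N z) ∧
    ∑ i ∈ Finset.range N, la W N r z i = Module.finrank ℚ (dif N (ed W z))

/-- BE (uses BK, BS). Proof. `ka (i + N) = ka i`. Since `{al i, be i} = {i, i + 1}`, BK gives
`ka i ≤ la i` and `ka (i+1) ≤ la i`, so `dim dif N z ≤ dim dif N (ed W z)` by BS. Suppose equality.
Then `la i = ka i` for `0 ≤ i < N`, hence `ka (i + 1) ≤ ka i` for all `i` (periodicity), so `ka` is
constant (cyclically decreasing). Let `i₀` have the least rank: `uu (r i₀) = 0` and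
`uu (r i₀ + 1)` is spanned by the differences of the `m` distinct vertices `z (i₀ + j N)`,
`0 ≤ j < m`, so `ka i₀ = m - 1`. Hence `dim dif N (ed W z) = N (m - 1)`. Let `U` be the (finite) set of
the edges `ed t`. `dif N (ed W z)` consists of functions supported in `U` with sum zero, so
`N (m - 1) ≤ |U| - 1`. If no edge is used only once modulo `m N` then every edge of `U` is `ed t` for
at least two of the `m N` times `t ∈ [0, mN)` (`ed` has period `mN`), so `2 |U| ≤ m N`. Then
`2 N (m - 1) ≤ m N - 2`, `m N ≤ 2 N - 2`, against `m ≥ 2`. -/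
def BE_stmt : Prop :=
  ∀ (V : Type) [Fintype V] (k : ℕ) (E : Gr V k) (W : ℤ → Lt k) (N m : ℕ) (r : ℤ → ℤ) (z : ℤ → V),
    Wd W N → Stk W N r → 2 ≤ m → Cyc (Rl E) W N m z →
    (∃ t0, ∀ t, ed W z t = ed W z t0 → ((m : ℤ) * N) ∣ t - t0) ∨
    Module.finrank ℚ (dif N z) < Module.finrank ℚ (dif N (ed W z))

/-- BC (no other rows). Collapse. Proof. `V' = Quot` of `V` by the relation `z a ~ z b` for
`N ∣ a - b` (any Fintype instance), `f` the quotient map. `|V'| ≥ |V| - dim (dif N z)`: the linear map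
`ℚ^{V'} → (V → ℚ) ⧸ dif N z` sending the class of `v` to the class of `[v]` is well defined and onto.
`|E'| ≤ |E| - dim (dif N (ed W z))` for the image `E'` of `E`: extend to all triples; the linear map
`(E → ℚ) → (E' → ℚ)` induced by the surjection `E → E'` is onto and kills the differences
`[ed a] - [ed b]`, `N ∣ a - b` (same letter, ends identified), and `dif N (ed W z)` is contained in
the functions supported in `E`. -/
def BC_stmt : Prop :=
  ∀ (V : Type) [Fintype V] (k : ℕ) (E : Gr V k) (W : ℤ → Lt k) (N : ℕ) (z : ℤ → V), Wd W N →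
    (∀ t, ed W z t ∈ E) →
    Module.finrank ℚ (dif N z) < Module.finrank ℚ (dif N (ed W z)) →
    ∃ (V' : Type) (_ : Fintype V') (f : V → V'), Function.Surjective f ∧
      (E.image fun d => (f d.1, d.2.1, f d.2.2)).card + Fintype.card V < E.card + Fintype.card V'

/-- BB (uses GR, QU). A cycle of degree `m ≥ 2` using some edge only once gives a smaller graph with
a generator conjugate to `w`.
Proof. `k ≥ 1` since letters exist. `e₀ = ed t0`, `E₁ = E.erase e₀`, `y = z (t0+1)`,
`y' = z (t0+1+N) ≠ y` (`Cyc`, `m ≥ 2`), `u = wd W (t0+1) N`. The steps at times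
`t0 + 1, ..., t0 + mN - 1` avoid `e₀` and lead from `y` to `z (t0 + mN) = z t0`; so the ends of `e₀` are
joined in `E₁`, and `E₁` is connected. GR (for the image of `E₁` under `e ↦ (e.1, of e.2.1, e.2.2)`)
gives generators `r : Fin m' → Fr k` of the group at `v0` of `E₁` with
`m' + |V| ≤ (|E| - 1) + 1`, so `m' ≤ k - 1`. `V' = {v // v ≠ y'}`, `f y' = y`, `f v = v` otherwise,
`E'` = image of `E₁`: `|V'| = |V| - 1`, `|E'| ≤ |E| - 1`. Let `g` be a label of a path from `v0` to `y`
in `E₁`. By QU (`PL (lf E₁) y y' u`, as `N < mN`) the group of `E'` at `f v0` is generated by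
`g u g⁻¹` and `r`; let `c` consist of these elements, and `1`s. `g u g⁻¹` is conjugate to `wd W 0 N` by
`Wd.wd_conj`. Last claim: `PL.map` with `f`, from `lf E` to `lf E'`; for the edge `e₀`, in the
direction of the run from `z t0` to `y`: in `E'` `u`, hence `u ^ m = wd W (t0+1) (mN)`, is the label
of a closed path at `f y`, and `wd W (t0+1) (mN - 1)` is the label of a path from `f y` to `f (z t0)`,
so `u^{-m} wd W (t0+1) (mN-1) = (lt (W t0))⁻¹` (as `W (t0 + mN) = W t0`) is the label of a path from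
`f y` to `f (z t0)`. -/
def BB_stmt : Prop :=
  ∀ (V : Type) [Fintype V] (k : ℕ) (E : Gr V k) (W : ℤ → Lt k) (N m : ℕ) (z : ℤ → V) (t0 : ℤ)
    (v0 : V), Wd W N → Conn E → E.card + 1 ≤ Fintype.card V + k → 2 ≤ m → Cyc (Rl E) W N m z →
    (∀ t, ed W z t = ed W z t0 → ((m : ℤ) * N) ∣ t - t0) →
    ∃ (V' : Type) (_ : Fintype V') (E' : Gr V' k) (v0' : V') (c : Fin k → Fr k),
      Fintype.card V' + E'.card < Fintype.card V + E.card ∧ IsLoop E' v0' c ∧
      (∃ i g, c i = g * wd W 0 N * g⁻¹) ∧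
      ∀ h, PL (lf E) v0 v0 h → h ∈ Subgroup.closure (Set.range c)

end Pool.Agent.WN
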