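import Pool.Agent.helper99.WN.SpecB

/-!
# MP_5c1f29_al, rows wn:*, blocks E (Nielsen's theorem for free groups) and F (rank, converse)

Row X: theorem X : X_stmt, namespace Pool.Agent.WN, file Pool/Agent/<seat>/WN/X.lean. A row may
assume the rows named after 'uses' as hypotheses. `NielsenEquiv`, `Generates`, `IsMinGen`,
`PropertyN` and basic facts: Pool/Agent/helper43/NE/Defs.lean, Basic.lean (equiv_update_mul, ...).
-/

set_option autoImplicit false

open Classical

namespace Pool.Agent.WN

open Pool.Agent.NE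

/-! ## Block E: generating `k`-tuples of the free group of rank `k` -/

/-- the tuple `t` in tree form: `t j = a j * (letter x j) * (b j)⁻¹` with `a j, b j` in a finite
subtree `A` of the Cayley tree containing `1` (closed under dropping the last letter). It describes a
graph: the tree `A` with `k` additional edges from `a j` to `b j` labelled `x j`. -/
structure TF {k : ℕ} (A : Finset (Fr k)) (t a b : Fin k → Fr k) (x : Fin k → Lt k) : Prop where
  one : (1 : Fr k) ∈ A
  pc : ∀ g ∈ A, FreeGroup.mk g.toWord.dropLast ∈ A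
  ha : ∀ j, a j ∈ A
  hb : ∀ j, b j ∈ A
  eq : ∀ j, t j = a j * lt (x j) * (b j)⁻¹

/-- the step relation of this graph -/
def RT {k : ℕ} (A : Finset (Fr k)) (a b : Fin k → Fr k) (x : Fin k → Lt k) (c : Fr k) (y : Lt k)
    (c' : Fr k) : Prop :=
  (c ∈ A ∧ c' ∈ A ∧ c' = c * lt y) ∨
    ∃ j, (c = a j ∧ y = x j ∧ c' = b j) ∨ (c = b j ∧ y = iv (x j) ∧ c' = a j)

/-- NR (no other rows). Proof. The homomorphism `Fr k →* Multiplicative (Fin k → ZMod 2)`,
`of i ↦ e_i`, is onto, so the images of the `t i` span the `k`-dimensional space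
`Fin k → ZMod 2`; if `t j = 1` then `k - 1` vectors span it, a contradiction. -/
def NR_stmt : Prop :=
  ∀ (k : ℕ) (t : Fin k → Fr k), Subgroup.closure (Set.range t) = ⊤ → ∀ j, t j ≠ 1

/-- NA (no other rows). Proof. `A` = the set of all `mk p`, `p` a prefix of some `(t j).toWord`
(prefixes of reduced words are reduced, `(mk p).toWord = p`). `b j = 1`, `x j` = the last letter of
`(t j).toWord`, `a j` = `mk` of the word without its last letter. (If `k = 0`, `A = {1}`.) -/
def NA_stmt : Prop :=
  ∀ (k : ℕ) (t : Fin k → Fr k), (∀ j, t j ≠ 1) →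
    ∃ (A : Finset (Fr k)) (a b : Fin k → Fr k) (x : Fin k → Lt k), TF A t a b x

/-- NB (uses RR). Only the first half of RR is used. Proof. `RT` is symmetric. For `g ∈ A` all
prefixes of `g.toWord` give elements of `A` (iterate `pc`), so `Rd RT 1 g.toWord g` (tree edges).
Claim: for every `h ∈ closure (range t) = ⊤` there is a list `l` with `mk l = h` and
`Rd RT 1 l 1`: for `t j` read `(a j).toWord`, the letter `x j` (to `b j`) and backwards
`(b j).toWord`; products: append; inverses: reverse (symmetry). By RR `Rd RT 1 g.toWord 1`, and by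
`rd_det` `g = 1`. -/
def NB_stmt : Prop :=
  ∀ (k : ℕ) (A : Finset (Fr k)) (t a b : Fin k → Fr k) (x : Fin k → Lt k), TF A t a b x →
    Subgroup.closure (Set.range t) = ⊤ → Det (RT A a b x) → ∀ g ∈ A, g = 1

/-- NC (no other rows). A fold gives a Nielsen move after which one entry is `c d⁻¹` with
`c ≠ d` in `A`. Proof. `¬ Det`: `RT c0 y c1`, `RT c0 y c2`, `c1 ≠ c2`. Not both are tree edges (then
`c1 = c0 * lt y = c2`). Tree edge and additional edge `j` (say `c1 = c0 * lt y ∈ A`): if
`c0 = a j`, `y = x j`, `c2 = b j`, then `t j = c0 * lt y * c2⁻¹ = c1 * c2⁻¹`; if `c0 = b j`,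
`y = iv (x j)`, `c2 = a j`, then `(t j)⁻¹ = c1 * c2⁻¹` (Nielsen move inversion). Two additional edges
`i, j`: `i = j` would give the same end, or `x j = iv (x j)`; so `i ≠ j`, and after inversions (the
inverse of `a * lt x * b⁻¹` is `b * lt (iv x) * a⁻¹`, again of the form required)
`t j = c0 * lt y * c1⁻¹`, `t i = c0 * lt y * c2⁻¹`; replace `t j` by `(t j)⁻¹ * t i = c1 * c2⁻¹`. So we
have `t' j = c * d⁻¹`, `{c, d} = {c1, c2}`. If `d.toWord` is a prefix of `c.toWord`, then `c.toWord` is
not a prefix of `d.toWord` (`c ≠ d`); replace `t' j` by its inverse `d * c⁻¹` and exchange the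
names. -/
def NC_stmt : Prop :=
  ∀ (k : ℕ) (A : Finset (Fr k)) (t a b : Fin k → Fr k) (x : Fin k → Lt k), TF A t a b x →
    ¬ Det (RT A a b x) →
    ∃ (t' : Fin k → Fr k) (j : Fin k) (c d : Fr k), NielsenEquiv t t' ∧ c ∈ A ∧ d ∈ A ∧ c ≠ d ∧
      t' j = c * d⁻¹ ∧
      (∀ i, i ≠ j → ∃ a' ∈ A, ∃ b' ∈ A, ∃ x' : Lt k, t' i = a' * lt x' * b'⁻¹) ∧
      ¬ d.toWord <+: c.toWord

/-- NM (no other rows). Multiplying the other entries on both sides by powers of `t j`, and
inverting `t j`. Proof. One entry at a time (induction over a finite set of indices `i ≠ j`):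
right multiplication by `equiv_update_mul` (the power of `t j` is in the closure of the other
entries), left multiplication by inverting entry `i`, right multiplication and inverting again. -/
def NM_stmt : Prop :=
  ∀ (G : Type) [Group G] (k : ℕ) (t : Fin k → G) (j : Fin k) (ε δ : Fin k → ℤ),
    NielsenEquiv t (fun i => if i = j then (t j)⁻¹ else (t j) ^ ε i * t i * (t j) ^ δ i)

/-- NT (no other rows). A connected subset of the Cayley tree containing `1` is closed under dropping
the last letter. Proof. By induction on the chain from `1` to `g`: `mk p ∈ A` for every prefix `p` of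
`g.toWord`. Step `g' = g * lt y ∈ A`: `g'.toWord` is `g.toWord ++ [y]` (its prefixes are those of
`g.toWord` and itself) or `g.toWord.dropLast`. (For `g = 1`: `1 ∈ A`.) -/
def NT_stmt : Prop :=
  ∀ (k : ℕ) (A : Set (Fr k)),
    (∀ g ∈ A, Relation.ReflTransGen (fun p q => p ∈ A ∧ q ∈ A ∧ ∃ y : Lt k, q = p * lt y) 1 g) →
    ∀ g ∈ A, FreeGroup.mk g.toWord.dropLast ∈ A

/-- ND (uses NM, NT). Cutting the tree above `d` and glueing it again at `c`.
Proof. `d ≠ 1` since the empty word is a prefix of every word. `B = {g ∈ A : d.toWord <+: g.toWord}`: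
`1 ∉ B`, `c ∉ B`, `d ∈ B`; `B` is closed under extension in `A`, and `A \ B` is closed under
prefixes. `f g = t j * g` for `g ∈ B`, `f g = g` otherwise, `A' = A.image f`. `f d = c = f c`, `c ≠ d`, so
`|A'| < |A|`. New tuple: `t' i = f a' * lt x' * (f b')⁻¹` for `i ≠ j`, which is
`(t j)^ε t i (t j)^(-ε')`, `ε, ε' ∈ {0, 1}`; `t' j = d0 * lt y * c⁻¹ = d c⁻¹ = (t j)⁻¹`, where
`y` is the last letter of `d`, `d0 = mk d.toWord.dropLast ∈ A \ B`, `d = d0 * lt y`, `f d0 = d0`. By NM
`t` and `t'` are Nielsen equivalent. `A'` is closed under dropping the last letter by NT: the elements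
of `A \ B` are joined to `1` inside `A \ B` along their prefixes, in particular `c`; an element of `B`
has the word `d.toWord ++ s`, and `f` maps `d * mk s'` to `c * mk s'` for the prefixes `s'` of `s`, a
chain in `A'` from `c` to it. -/
def ND_stmt : Prop :=
  ∀ (k : ℕ) (A : Finset (Fr k)) (t : Fin k → Fr k) (j : Fin k) (c d : Fr k), (1 : Fr k) ∈ A →
    (∀ g ∈ A, FreeGroup.mk g.toWord.dropLast ∈ A) → c ∈ A → d ∈ A → c ≠ d → t j = c * d⁻¹ →
    (∀ i, i ≠ j → ∃ a' ∈ A, ∃ b' ∈ A, ∃ x' : Lt k, t i = a' * lt x' * b'⁻¹) →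
    ¬ d.toWord <+: c.toWord →
    ∃ (A' : Finset (Fr k)) (t' a b : Fin k → Fr k) (x : Fin k → Lt k),
      A'.card < A.card ∧ NielsenEquiv t t' ∧ TF A' t' a b x

/-- NE (no other rows). Proof. Every generator `i` occurs as `(x j).1`: otherwise the homomorphism
`Fr k →* Multiplicative ℤ` with `of i ↦ ofAdd 1` and the other generators `↦ 1` kills `t` but is not
trivial. So `j ↦ (x j).1` is a surjection, hence a permutation of `Fin k`; permute the entries (Step
perm) and invert those with sign `false` (induction over a finite set of indices). -/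
def NE_stmt : Prop :=
  ∀ (k : ℕ) (t : Fin k → Fr k) (x : Fin k → Lt k), (∀ j, t j = lt (x j)) →
    Subgroup.closure (Set.range t) = ⊤ → NielsenEquiv t (fun i => FreeGroup.of i)

/-- N1 (uses NR, NA, NB, NC, ND, NE). Nielsen's theorem. Proof. Start with NR, NA. Strong induction
on `|A|` for tuples in tree form which generate: if `Det (RT A a b x)`, then by NB all elements of
`A` are `1`, `t j = lt (x j)`, NE. Otherwise NC and ND give a Nielsen equivalent tuple in tree form
with a smaller `A`; it generates (`NielsenEquiv.generates`, `symm`). -/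
def N1_stmt : Prop :=
  ∀ (k : ℕ) (b : Fin k → Fr k), Subgroup.closure (Set.range b) = ⊤ →
    NielsenEquiv b (fun i => FreeGroup.of i)

/-- AU (no other rows). Proof. Backwards along the steps from the basis: if `Step g g'` and `g'` is
the image of the basis under an automorphism `φ'`, then `g` is the image of the basis under
`φ' ∘ ψ` with an elementary automorphism `ψ` (permutation of the basis; inversion of one generator;
`of i ↦ of i * (of j)⁻¹`). -/
def AU_stmt : Prop :=
  ∀ (k : ℕ) (b : Fin k → Fr k), NielsenEquiv b (fun i => FreeGroup.of i) →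
    ∃ φ : Fr k ≃* Fr k, ∀ i, φ (FreeGroup.of i) = b i

/-! ## Block F: the rank, and primitive words -/

/-- DG (no other rows). The rank of `Fr k / Kn w n` is `k`. Proof. Let `p` be a prime divisor of `n`
and `θ : Fr k →* Multiplicative (Fin k → ZMod p)`, `of i ↦ e_i`, onto. `θ (w ^ n) = n θ(w) = 0`, so
`Kn w n ≤ ker θ` (normal closure). Every `θ g` is `θ h` with `h ∈ closure (range b)`, so the `m` vectors
`θ (b i)` span a space of dimension `k`. -/
def DG_stmt : Prop :=
  ∀ (k m : ℕ) (w : Fr k) (n : ℕ) (b : Fin m → Fr k), 2 ≤ n → Gen w n b → k ≤ m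

/-- O1 (uses DG). A graph with one vertex. Proof. The group of closed paths is the closure of
`{of x : (v0, x, v0) ∈ E}`. If all generators occur, it is `⊤`. Otherwise it is generated by
`m' < k` elements (list the generators which occur as a tuple `Fin m' → Fr k`), and this tuple
satisfies `Gen w n` because `closure (range b)` is the same group; so `k ≤ m'` by DG, a
contradiction. -/
def O1_stmt : Prop :=
  ∀ (V : Type) [Fintype V] (k m n : ℕ) (w : Fr k) (E : Gr V k) (v0 : V) (b : Fin m → Fr k),
    Fintype.card V = 1 → 2 ≤ n → IsLoop E v0 b → Gen w n b → Subgroup.closure (Set.range b) = ⊤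

/-- K1 (uses WA). Rank one. Proof. By WA `w = c * wd W 0 N * c⁻¹` with `Wd W N`, `k = 1`. The letters
are `(0, true)`, `(0, false)`, and `W (i+1) ≠ iv (W i)` means `W (i+1) = W i`. So `W` is constant and
`pa` (for `0`, `1`) gives `N ∣ 1`. `Fr 1` is commutative (`FreeGroup (Fin 1)`; generated by one
element), so `w = lt (W 0)` is the generator or its inverse. (The inversion
`FreeGroup.lift (fun i => (of i)⁻¹)` is an automorphism.) Or directly: `w` is a power `x ^ a` of the
generator, `|a| = 1`. -/
def K1_stmt : Prop :=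
  ∀ w : Fr 1, (∀ (v : Fr 1) (m : ℕ), 2 ≤ m → w ≠ v ^ m) →
    ∃ (φ : Fr 1 ≃* Fr 1) (i : Fin 1), φ (FreeGroup.of i) = w

/-- DT (no other rows). The determinant in an abelian quotient is a Nielsen invariant up to sign.
Proof. For each elementary transformation: permuting the rows multiplies the determinant by the
sign; inverting an entry negates a row; adding a row to another does not change it. -/
def DT_stmt : Prop :=
  ∀ (G : Type) [Group G] (k n : ℕ) (ψ : G →* Multiplicative (Fin k → ZMod n)) (t t' : Fin k → G),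
    NielsenEquiv t t' →
    (Matrix.of fun i => Multiplicative.toAdd (ψ (t i))).det =
      (Matrix.of fun i => Multiplicative.toAdd (ψ (t' i))).det ∨
    (Matrix.of fun i => Multiplicative.toAdd (ψ (t i))).det =
      - (Matrix.of fun i => Multiplicative.toAdd (ψ (t' i))).det

/-- NU (no other rows). Proof. `n` odd: `j = 2`. `4 ∣ n`: `j = n / 2 + 1` (odd; a common divisor
divides `2 j - n = 2`). `n ≡ 2` modulo `4`: `j = n / 2 + 2` (odd; a common divisor divides
`2 j - n = 4`). In each case `1 < j < n - 1`. -/
def NU_stmt : Prop :=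
  ∀ n : ℕ, 12 ≤ n → ∃ j : ℕ, j.Coprime n ∧ (j : ZMod n) ≠ 1 ∧ (j : ZMod n) ≠ -1

/-- CV (uses DG, DT, NU). The converse: if `w` is primitive, property (N) fails.
Proof. `G = PresentedGroup {w ^ n}`, `π : Fr k →* G`, `y i = π (φ (of i))`, `w = φ (of i₀)`. The
homomorphism `Fr k →* Multiplicative (Fin k → ZMod n)`, the composition of `φ⁻¹` with `of i ↦ e_i`,
kills `w ^ n`, so it induces `ψ : G →* Multiplicative (Fin k → ZMod n)` with `ψ (y i) = e_i`. Let
`t = y` and `t' = Function.update y i₀ (y i₀ ^ j)`, `j` from NU. `t` generates since `φ` and `π` are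
onto; `t'` generates because `y i₀ = (y i₀ ^ j) ^ j'` for `j j' ≡ 1` modulo `n` (`y i₀ ^ n = 1`). Both
are minimal generating tuples: a generating tuple `h : Fin m → G` lifts to `b : Fin m → Fr k` with
`Gen w n b` (the kernel of `π` is `Kn w n`), so `k ≤ m` by DG. If they were Nielsen equivalent then
DT would give `1 = ± j` in `ZMod n` (determinants of the identity and of a diagonal matrix), against
NU. -/
def CV_stmt : Prop :=
  ∀ (k : ℕ) (w : Fr k) (n : ℕ), 12 ≤ n →
    (∃ (φ : Fr k ≃* Fr k) (i : Fin k), φ (FreeGroup.of i) = w) →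
    ¬ PropertyN (PresentedGroup ({w ^ n} : Set (FreeGroup (Fin k))))

end Pool.Agent.WN
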